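import Pool.Agent.Lib.TNF.HIT.Spec

/-!
# TNF / HIT: formal rules for counting
-/

set_option autoImplicit false

noncomputable section

namespace TNF.HIT

open Polynomial

namespace Bas_aux

theorem fin (p N : ℕ) : (bx p N).Finite := by
  refine (Set.Finite.pi' fun _ : Fin p => Set.finite_Icc (-(N : ℤ)) N).subset ?_
  intro s hs i
  exact abs_le.1 (hs i)

theorem cardIcc {N : ℕ} (hN : 1 ≤ N) : (Set.Icc (-(N : ℤ)) N).ncard ≤ 3 * N := by
  rw [← Finset.coe_Icc, Set.ncard_coe_finset, Int.card_Icc]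
  omega

theorem card (p : ℕ) {N : ℕ} (hN : 1 ≤ N) : (bx p N).ncard ≤ (3 * N) ^ p := by
  have h1 : bx p N = ((Fintype.piFinset fun _ : Fin p => Finset.Icc (-(N : ℤ)) N : Finset (Fin p → ℤ)) : Set (Fin p → ℤ)) := by
    ext s
    rw [Finset.mem_coe, Fintype.mem_piFinset]
    simp only [bx, Set.mem_ofPred_eq, Finset.mem_Icc, abs_le]
  rw [h1, Set.ncard_coe_finset, Fintype.card_piFinset]
  have h2 : ∏ _i : Fin p, (Finset.Icc (-(N : ℤ)) N).card ≤ ∏ _i : Fin p, (3 * N) := by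
    refine Finset.prod_le_prod' fun i _ => ?_
    rw [Int.card_Icc]
    omega
  simpa using h2

theorem mono {p : ℕ} {x : ℝ} {B B' : Set (Fin p → ℤ)} (h : B ⊆ B') (hB : Thn p x B') : Thn p x B := by
  obtain ⟨C, hC⟩ := hB
  refine ⟨C, fun N hN => le_trans ?_ (hC N hN)⟩
  have : (bx p N ∩ B).ncard ≤ (bx p N ∩ B').ncard :=
    Set.ncard_le_ncard (Set.inter_subset_inter_right _ h) ((fin p N).subset Set.inter_subset_left)
  exact_mod_cast this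

theorem pos {p : ℕ} {x : ℝ} {B : Set (Fin p → ℤ)} (hB : Thn p x B) :
    ∃ C : ℝ, 0 ≤ C ∧ ∀ N : ℕ, 1 ≤ N → ((bx p N ∩ B).ncard : ℝ) ≤ C * (N : ℝ) ^ x := by
  obtain ⟨C, hC⟩ := hB
  refine ⟨|C|, abs_nonneg C, fun N hN => (hC N hN).trans ?_⟩
  exact mul_le_mul_of_nonneg_right (le_abs_self C) (Real.rpow_nonneg (Nat.cast_nonneg N) x)

theorem expo {p : ℕ} {x x' : ℝ} {B : Set (Fin p → ℤ)} (h : x ≤ x') (hB : Thn p x B) : Thn p x' B := by
  obtain ⟨C, hC0, hC⟩ := pos hB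
  refine ⟨C, fun N hN => (hC N hN).trans ?_⟩
  exact mul_le_mul_of_nonneg_left (Real.rpow_le_rpow_of_exponent_le (by exact_mod_cast hN) h) hC0

theorem iun {p : ℕ} {x : ℝ} {k : ℕ} {B : Fin k → Set (Fin p → ℤ)} (hB : ∀ i, Thn p x (B i)) :
    Thn p x (⋃ i, B i) := by
  choose C hC using hB
  refine ⟨∑ i, C i, fun N hN => ?_⟩
  have hf : ∀ i, (bx p N ∩ B i).Finite := fun i => (fin p N).subset Set.inter_subset_left
  have h1 : bx p N ∩ ⋃ i, B i = ((Finset.univ.biUnion fun i => (hf i).toFinset : Finset (Fin p → ℤ)) : Set (Fin p → ℤ)) := by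
    ext s
    simp
  rw [h1, Set.ncard_coe_finset, Finset.sum_mul]
  have h2 : (((Finset.univ.biUnion fun i => (hf i).toFinset).card : ℕ) : ℝ) ≤ ∑ i, (((hf i).toFinset.card : ℕ) : ℝ) := by
    exact_mod_cast Finset.card_biUnion_le
  refine h2.trans (Finset.sum_le_sum fun i _ => ?_)
  rw [← Set.ncard_eq_toFinset_card _ (hf i)]
  exact hC i N hN

theorem uni {p : ℕ} {x : ℝ} {B B' : Set (Fin p → ℤ)} (hB : Thn p x B) (hB' : Thn p x B') : Thn p x (B ∪ B') := by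
  obtain ⟨C, hC⟩ := hB
  obtain ⟨C', hC'⟩ := hB'
  refine ⟨C + C', fun N hN => ?_⟩
  rw [Set.inter_union_distrib_left, add_mul]
  have h1 : (((bx p N ∩ B) ∪ (bx p N ∩ B')).ncard : ℝ) ≤ ((bx p N ∩ B).ncard : ℝ) + ((bx p N ∩ B').ncard : ℝ) := by
    exact_mod_cast Set.ncard_union_le _ _
  linarith [hC N hN, hC' N hN]

theorem cyl {p : ℕ} {x : ℝ} {A : Set (Fin p → ℤ)} (hA : Thn p x A) : Thn (p + 1) (x + 1) {s | Fin.tail s ∈ A} := by
  obtain ⟨C, hC0, hC⟩ := pos hA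
  refine ⟨3 * C, fun N hN => ?_⟩
  have hf : (bx p N ∩ A).Finite := (fin p N).subset Set.inter_subset_left
  have hsub : bx (p + 1) N ∩ {s | Fin.tail s ∈ A} ⊆
      (fun q : ℤ × (Fin p → ℤ) => (Fin.cons (α := fun _ => ℤ) q.1 q.2 : Fin (p + 1) → ℤ)) ''
        (Set.Icc (-(N : ℤ)) N ×ˢ (bx p N ∩ A)) := by
    rintro s ⟨hs1, hs2⟩
    refine ⟨(s 0, Fin.tail s), ⟨abs_le.1 (hs1 0), fun i => hs1 i.succ, hs2⟩, ?_⟩
    exact Fin.cons_self_tail s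
  have hpf : (Set.Icc (-(N : ℤ)) N ×ˢ (bx p N ∩ A)).Finite := (Set.finite_Icc _ _).prod hf
  have h1 : (bx (p + 1) N ∩ {s | Fin.tail s ∈ A}).ncard ≤ 3 * N * (bx p N ∩ A).ncard := by
    refine (Set.ncard_le_ncard hsub (hpf.image _)).trans ((Set.ncard_image_le hpf).trans ?_)
    rw [Set.ncard_prod]
    exact Nat.mul_le_mul_right _ (cardIcc hN)
  have hN0 : (0 : ℝ) < N := by exact_mod_cast hN
  have h2 : ((bx (p + 1) N ∩ {s | Fin.tail s ∈ A}).ncard : ℝ) ≤ 3 * N * ((bx p N ∩ A).ncard : ℝ) := by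
    exact_mod_cast h1
  refine h2.trans ?_
  rw [Real.rpow_add hN0, Real.rpow_one]
  have h3 := mul_le_mul_of_nonneg_left (hC N hN) (by positivity : (0 : ℝ) ≤ 3 * N)
  refine h3.trans (le_of_eq ?_)
  ring

theorem fib {p : ℕ} {x : ℝ} {B : Set (Fin (p + 1) → ℤ)} (hB : ∃ C : ℝ, ∀ N : ℕ, 1 ≤ N → ∀ a ∈ bx p N,
    ({t : ℤ | |t| ≤ N ∧ Fin.cons (α := fun _ => ℤ) t a ∈ B}.ncard : ℝ) ≤ C * (N : ℝ) ^ x) : Thn (p + 1) (p + x) B := by
  obtain ⟨C, hC⟩ := hB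
  refine ⟨3 ^ p * |C|, fun N hN => ?_⟩
  have hN0 : (0 : ℝ) < N := by exact_mod_cast hN
  have hf : ∀ a : Fin p → ℤ, ({t : ℤ | |t| ≤ N ∧ Fin.cons (α := fun _ => ℤ) t a ∈ B}).Finite := fun a =>
    (Set.finite_Icc (-(N : ℤ)) N).subset fun t ht => abs_le.1 ht.1
  have hi : ∀ a : Fin p → ℤ, ((fun t : ℤ => (Fin.cons (α := fun _ => ℤ) t a : Fin (p + 1) → ℤ)) ''
      {t : ℤ | |t| ≤ N ∧ Fin.cons (α := fun _ => ℤ) t a ∈ B}).Finite := fun a => (hf a).image _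
  have hsub : bx (p + 1) N ∩ B ⊆ (((fin p N).toFinset.biUnion fun a => (hi a).toFinset : Finset (Fin (p + 1) → ℤ)) :
      Set (Fin (p + 1) → ℤ)) := by
    rintro s ⟨hs1, hs2⟩
    simp only [Finset.coe_biUnion, Set.Finite.coe_toFinset, Set.mem_iUnion, Set.mem_image, Set.mem_ofPred_eq]
    refine ⟨Fin.tail s, fun i => hs1 i.succ, s 0, ⟨hs1 0, ?_⟩, Fin.cons_self_tail s⟩
    rw [Fin.cons_self_tail s]
    exact hs2
  have h1 : ((bx (p + 1) N ∩ B).ncard : ℝ) ≤ ∑ a ∈ (fin p N).toFinset, (((hi a).toFinset.card : ℕ) : ℝ) := by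
    have h2 : (bx (p + 1) N ∩ B).ncard ≤ ∑ a ∈ (fin p N).toFinset, (hi a).toFinset.card := by
      refine (Set.ncard_le_ncard hsub (Finset.finite_toSet _)).trans ?_
      rw [Set.ncard_coe_finset]
      exact Finset.card_biUnion_le
    exact_mod_cast h2
  have h3 : ∀ a ∈ (fin p N).toFinset, (((hi a).toFinset.card : ℕ) : ℝ) ≤ |C| * (N : ℝ) ^ x := by
    intro a ha
    have ha' : a ∈ bx p N := (Set.Finite.mem_toFinset _).1 ha
    rw [← Set.ncard_eq_toFinset_card _ (hi a)]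
    have h4 := Set.ncard_image_le (f := fun t : ℤ => (Fin.cons (α := fun _ => ℤ) t a : Fin (p + 1) → ℤ)) (hf a)
    have h5 := hC N hN a ha'
    have h6 : C * (N : ℝ) ^ x ≤ |C| * (N : ℝ) ^ x :=
      mul_le_mul_of_nonneg_right (le_abs_self C) (Real.rpow_nonneg hN0.le x)
    calc (((fun t : ℤ => (Fin.cons (α := fun _ => ℤ) t a : Fin (p + 1) → ℤ)) ''
          {t : ℤ | |t| ≤ N ∧ Fin.cons (α := fun _ => ℤ) t a ∈ B}).ncard : ℝ)
        ≤ ({t : ℤ | |t| ≤ N ∧ Fin.cons (α := fun _ => ℤ) t a ∈ B}.ncard : ℝ) := by exact_mod_cast h4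
      _ ≤ |C| * (N : ℝ) ^ x := h5.trans h6
  have h7 := Finset.sum_le_sum h3
  rw [Finset.sum_const, nsmul_eq_mul] at h7
  have h8 : (((fin p N).toFinset.card : ℕ) : ℝ) ≤ (3 * (N : ℝ)) ^ p := by
    rw [← Set.ncard_eq_toFinset_card _ (fin p N)]
    exact_mod_cast card p hN
  have h9 : (0 : ℝ) ≤ |C| * (N : ℝ) ^ x := mul_nonneg (abs_nonneg C) (Real.rpow_nonneg hN0.le x)
  refine (h1.trans h7).trans ((mul_le_mul_of_nonneg_right h8 h9).trans (le_of_eq ?_))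
  rw [Real.rpow_add hN0, Real.rpow_natCast, mul_pow]
  ring

end Bas_aux

theorem tBas : S_Bas :=
  ⟨Bas_aux.fin, fun _ _ _ _ h hB => Bas_aux.mono h hB, fun _ _ _ _ h hB => Bas_aux.expo h hB,
    fun _ _ _ _ hB => Bas_aux.iun hB, fun _ _ _ hA => Bas_aux.cyl hA, fun _ _ _ hB => Bas_aux.fib hB,
    fun _ _ _ _ hB hB' => Bas_aux.uni hB hB'⟩

end TNF.HIT
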