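import Pool.Agent.Lib.TNF.HIT.Spec

set_option autoImplicit false

noncomputable section

namespace TNF.HIT

open Polynomial

namespace Bd_aux

theorem one (N B e : ℕ) (hN : 1 ≤ N) (D : ℤ[X]) (hD : D.natDegree ≤ e) (hB : ∀ j, |D.coeff j| ≤ B) (t : ℤ)
    (ht : |t| ≤ N) : |D.eval t| ≤ (e + 1) * B * (N : ℤ) ^ e := by
  rw [Polynomial.eval_eq_sum_range' (Nat.lt_succ_of_le hD) t]
  refine (Finset.abs_sum_le_sum_abs _ _).trans ?_
  have hN' : (1 : ℤ) ≤ N := by exact_mod_cast hN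
  have : ∀ j ∈ Finset.range (e + 1), |D.coeff j * t ^ j| ≤ (B : ℤ) * (N : ℤ) ^ e := by
    intro j hj
    rw [abs_mul, abs_pow]
    have hje : j ≤ e := Nat.lt_succ_iff.1 (Finset.mem_range.1 hj)
    have h1 : |t| ^ j ≤ (N : ℤ) ^ e :=
      (pow_le_pow_left₀ (abs_nonneg t) ht j).trans (pow_le_pow_right₀ hN' hje)
    exact mul_le_mul (hB j) h1 (pow_nonneg (abs_nonneg t) j) (Int.natCast_nonneg B)
  refine (Finset.sum_le_card_nsmul _ _ _ this).trans ?_
  rw [Finset.card_range, nsmul_eq_mul]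
  push_cast
  exact le_of_eq (by ring)

theorem two (G : ℤ[X]) (K : ℤ) (hG : G.Monic) (hc : ∀ i, |G.coeff i| ≤ K) (y : ℤ) (hy : G.eval y = 0) :
    |y| ≤ 1 + G.natDegree * K := by
  by_contra hlt
  push Not at hlt
  have hK : 0 ≤ K := (abs_nonneg _).trans (hc 0)
  rcases Nat.eq_zero_or_pos G.natDegree with h0 | hpos
  · have h1 : G = 1 := Polynomial.eq_one_of_monic_natDegree_zero hG h0
    rw [h1, Polynomial.eval_one] at hy
    exact one_ne_zero hy
  · obtain ⟨m, hm⟩ : ∃ m, G.natDegree = m + 1 := ⟨G.natDegree - 1, by omega⟩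
    have hy1 : 1 ≤ |y| := by
      have : 0 ≤ (G.natDegree : ℤ) * K := mul_nonneg (Int.natCast_nonneg _) hK
      linarith
    rw [Polynomial.eval_eq_sum_range, Finset.sum_range_succ, hG.coeff_natDegree, one_mul] at hy
    have e1 : y ^ G.natDegree = -∑ i ∈ Finset.range G.natDegree, G.coeff i * y ^ i := by linarith
    have e2 : |y| ^ (m + 1) ≤ ((m + 1 : ℕ) : ℤ) * (K * |y| ^ m) := by
      rw [← abs_pow, ← hm, e1, abs_neg]
      refine (Finset.abs_sum_le_sum_abs _ _).trans ?_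
      have : ∀ j ∈ Finset.range G.natDegree, |G.coeff j * y ^ j| ≤ K * |y| ^ m := by
        intro j hj
        rw [abs_mul, abs_pow]
        have hje : j ≤ m := by
          have := Finset.mem_range.1 hj
          omega
        exact mul_le_mul (hc j) (pow_le_pow_right₀ hy1 hje) (pow_nonneg (abs_nonneg y) j) hK
      refine (Finset.sum_le_card_nsmul _ _ _ this).trans ?_
      rw [Finset.card_range, nsmul_eq_mul]
    have hp : 0 < |y| ^ m := pow_pos (by linarith) m
    have e3 : |y| ^ (m + 1) = |y| * |y| ^ m := by ring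
    rw [e3, ← mul_assoc, ← hm] at e2
    have e4 : |y| ≤ (G.natDegree : ℤ) * K := le_of_mul_le_mul_right e2 hp
    linarith

end Bd_aux

theorem tBd : S_Bd := by
  intro N B d e hN
  refine ⟨fun D hD hB t ht => Bd_aux.one N B e hN D hD hB t ht, ?_⟩
  intro F hF hd he hB t y ht hy
  have hK : ∀ i, |(F.map (evalRingHom t)).coeff i| ≤ (e + 1) * B * (N : ℤ) ^ e := by
    intro i
    rw [Polynomial.coeff_map]
    exact Bd_aux.one N B e hN (F.coeff i) (he i) (hB i) t ht
  have h := Bd_aux.two (F.map (evalRingHom t)) ((e + 1) * B * (N : ℤ) ^ e) (hF.map _) hK y hy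
  rw [hF.natDegree_map] at h
  have hK0 : 0 ≤ (e + 1) * B * (N : ℤ) ^ e := (abs_nonneg _).trans (hK 0)
  have h2 : (F.natDegree : ℤ) * ((e + 1) * B * (N : ℤ) ^ e) ≤ d * ((e + 1) * B * (N : ℤ) ^ e) :=
    mul_le_mul_of_nonneg_right (by exact_mod_cast hd) hK0
  linarith

end TNF.HIT
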