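import Pool.Agent.Lib.TNF.HIT.Spec
import Pool.Agent.Lib.TNF.Iface

/-!
# PROJECT TNF, package HIT: the bridge to the interface (helper59)
-/

set_option autoImplicit false

noncomputable section

namespace TNF.HIT

open Polynomial

/-- **HIT2**: HILBERT'S IRREDUCIBILITY THEOREM: outside the Hilbert set there are at most `C N ^ (p - 1/2 + ε)` integral points
in the box of size `N`. -/
def StmtHIT2 : Prop :=
  ∀ (p : ℕ) (F : List (Polynomial (MvPolynomial (Fin p) ℚ))) (Δ : MvPolynomial (Fin p) ℚ), Δ ≠ 0 →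
    (∀ P ∈ F, IrrG P ∧ 0 < P.natDegree) → ∀ ε : ℝ, 0 < ε → ∃ C : ℝ, ∀ N : ℕ, 1 ≤ N →
      ({s : Fin p → ℤ | (∀ i, |s i| ≤ N) ∧ ¬ Hil F Δ fun i => (s i : ℂ)}.ncard : ℝ) ≤ C * (N : ℝ) ^ ((p : ℝ) - 1 / 2 + ε)

namespace Brg_aux

variable {p : ℕ}

/-- The point with complex coordinates. -/
abbrev toC (s : Fin p → ℤ) : Fin p → ℂ := fun i => (s i : ℂ)

/-- The point with rational coordinates. -/
abbrev toQ (s : Fin p → ℤ) : Fin p → ℚ := fun i => (s i : ℚ)

theorem aeval_eq (s : Fin p → ℤ) (Δ : MvPolynomial (Fin p) ℚ) :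
    MvPolynomial.aeval (toC s) Δ = algebraMap ℚ ℂ (MvPolynomial.eval (toQ s) Δ) := by
  have h : (MvPolynomial.aeval (toC s) : MvPolynomial (Fin p) ℚ →ₐ[ℚ] ℂ).toRingHom =
      (algebraMap ℚ ℂ).comp (MvPolynomial.eval (toQ s)) := by
    apply MvPolynomial.ringHom_ext
    · intro r
      simp
    · intro i
      simp
  exact congrArg (fun f : MvPolynomial (Fin p) ℚ →+* ℂ => f Δ) h

theorem qs_bot (s : Fin p → ℤ) : Qs (toC s) = ⊥ := by
  rw [eq_bot_iff, IntermediateField.adjoin_le_iff]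
  rintro _ ⟨i, rfl⟩
  exact intCast_mem _ _

/-- `ℚ(s) = ℚ`. -/
theorem bij (s : Fin p → ℤ) : Function.Bijective (algebraMap ℚ (Qs (toC s))) := by
  refine ⟨(algebraMap ℚ (Qs (toC s))).injective, fun x => ?_⟩
  have h1 : (x : ℂ) ∈ (⊥ : IntermediateField ℚ ℂ) := by
    rw [← qs_bot s]
    exact x.2
  obtain ⟨q, hq⟩ := IntermediateField.mem_bot.mp h1
  exact ⟨q, Subtype.ext hq⟩

theorem toQs_eq (s : Fin p → ℤ) : toQs (toC s) = (algebraMap ℚ (Qs (toC s))).comp (MvPolynomial.eval (toQ s)) := by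
  apply MvPolynomial.ringHom_ext
  · intro r
    simp [toQs]
  · intro i
    apply Subtype.ext
    simp [toQs]

theorem irr (s : Fin p → ℤ) (P : Polynomial (MvPolynomial (Fin p) ℚ))
    (h : Irreducible (P.map (MvPolynomial.eval (toQ s)))) : IrrAt P (toC s) := by
  unfold IrrAt
  rw [toQs_eq, ← Polynomial.map_map]
  let e : ℚ ≃+* Qs (toC s) := RingEquiv.ofBijective _ (bij s)
  exact (MulEquiv.irreducible_iff (Polynomial.mapEquiv e)).mpr h

theorem hil (s : Fin p → ℤ) (F : List (Polynomial (MvPolynomial (Fin p) ℚ))) (Δ : MvPolynomial (Fin p) ℚ)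
    (h : MvPolynomial.eval (toQ s) Δ ≠ 0 ∧ ∀ P ∈ F, Irreducible (P.map (MvPolynomial.eval (toQ s)))) :
    Hil F Δ (toC s) := by
  refine ⟨?_, fun P hP => irr s P (h.2 P hP)⟩
  rw [aeval_eq]
  simpa using h.1

theorem bx_eq (p N : ℕ) : bx p N = ((Fintype.piFinset fun _ : Fin p => Finset.Icc (-(N : ℤ)) N : Finset (Fin p → ℤ)) :
    Set (Fin p → ℤ)) := by
  ext s
  rw [Finset.mem_coe, Fintype.mem_piFinset]
  simp only [bx, Set.mem_ofPred_eq, abs_le, Finset.mem_Icc]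

theorem bx_fin (p N : ℕ) : (bx p N).Finite := by
  rw [bx_eq]
  exact Finset.finite_toSet _

theorem bx_card (p N : ℕ) : (bx p N).ncard = (2 * N + 1) ^ p := by
  rw [bx_eq, Set.ncard_coe_finset, Fintype.card_piFinset]
  simp only [Int.card_Icc, Finset.prod_const, Finset.card_univ, Fintype.card_fin]
  congr 1
  omega

end Brg_aux

open Brg_aux

/-- **Brg**: the statements of the interface. -/
theorem tBrg : S_Cnt → StmtHIT ∧ StmtHIT2 := by
  intro hC
  constructor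
  · intro p F Δ hΔ hF G hG
    obtain ⟨C, hC⟩ := hC p F (Δ * G) (mul_ne_zero hΔ hG) hF (1 / 4) (by norm_num)
    obtain ⟨N, hN⟩ := exists_nat_gt (|C| ^ 4)
    have hN0 : (0 : ℝ) < N := lt_of_le_of_lt (by positivity) hN
    have hN1 : 1 ≤ N := by exact_mod_cast Nat.one_le_iff_ne_zero.mpr (by rintro rfl; simp at hN0)
    have hN4 : |C| < (N : ℝ) ^ (1 / 4 : ℝ) := by
      have h1 : |C| = (|C| ^ (4 : ℕ)) ^ (1 / 4 : ℝ) := by
        rw [← Real.rpow_natCast, ← Real.rpow_mul (abs_nonneg C)]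
        norm_num
      rw [h1]
      exact Real.rpow_lt_rpow (by positivity) hN (by norm_num)
    by_contra hcon
    push Not at hcon
    have hsub : bx p N ⊆ bx p N ∩ {s | ¬ (MvPolynomial.eval (fun i => (s i : ℚ)) (Δ * G) ≠ 0 ∧
        ∀ P ∈ F, Irreducible (P.map (MvPolynomial.eval fun i => (s i : ℚ))))} := by
      intro s hs
      refine ⟨hs, fun hgood => ?_⟩
      rw [map_mul] at hgood
      have hG' : MvPolynomial.aeval (fun i => (s i : ℂ)) G ≠ 0 := by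
        rw [aeval_eq s G]
        simpa using right_ne_zero_of_mul hgood.1
      exact hcon s hG' (hil s F Δ ⟨left_ne_zero_of_mul hgood.1, hgood.2⟩)
    have h1 : (bx p N).ncard ≤ _ := Set.ncard_le_ncard hsub ((bx_fin p N).subset Set.inter_subset_left)
    have h2 := hC N hN1
    have h3 : ((N : ℝ)) ^ (p : ℝ) ≤ C * (N : ℝ) ^ ((p : ℝ) - 1 / 2 + 1 / 4) := by
      refine le_trans ?_ (le_trans (Nat.cast_le.mpr h1) h2)
      rw [bx_card, Real.rpow_natCast]
      push_cast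
      exact pow_le_pow_left₀ hN0.le (by linarith) p
    have h4 : (N : ℝ) ^ (p : ℝ) = (N : ℝ) ^ (1 / 4 : ℝ) * (N : ℝ) ^ ((p : ℝ) - 1 / 2 + 1 / 4) := by
      rw [← Real.rpow_add hN0]
      congr 1
      ring
    have h5 : (0 : ℝ) < (N : ℝ) ^ ((p : ℝ) - 1 / 2 + 1 / 4) := Real.rpow_pos_of_pos hN0 _
    rw [h4] at h3
    have h6 := le_of_mul_le_mul_right h3 h5
    linarith [le_abs_self C]
  · intro p F Δ hΔ hF ε hε
    obtain ⟨C, hC⟩ := hC p F Δ hΔ hF ε hε
    refine ⟨C, fun N hN => le_trans ?_ (hC N hN)⟩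
    have hsub : {s : Fin p → ℤ | (∀ i, |s i| ≤ N) ∧ ¬ Hil F Δ fun i => (s i : ℂ)} ⊆
        bx p N ∩ {s | ¬ (MvPolynomial.eval (fun i => (s i : ℚ)) Δ ≠ 0 ∧
        ∀ P ∈ F, Irreducible (P.map (MvPolynomial.eval fun i => (s i : ℚ))))} :=
      fun s hs => ⟨hs.1, fun hgood => hs.2 (hil s F Δ hgood)⟩
    exact_mod_cast Set.ncard_le_ncard hsub ((bx_fin p N).subset Set.inter_subset_left)

end TNF.HIT
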