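import Pool.Agent.Lib.TNF.HIT.Spec

set_option autoImplicit false

namespace TNF.HIT

theorem tBrt : S_Brt := by
  intro r Q hQ
  have h : ∀ j : Fin r, ∃ p : ℕ, p.Prime ∧ 2 ^ (j : ℕ) * Q < p ∧ p ≤ 2 * (2 ^ (j : ℕ) * Q) := fun j =>
    Nat.exists_prime_lt_and_le_two_mul (2 ^ (j : ℕ) * Q) (by positivity)
  choose q hq1 hq2 hq3 using h
  have hmono : StrictMono q := by
    intro i j hij
    have h1 : 2 * (2 ^ (i : ℕ) * Q) ≤ 2 ^ (j : ℕ) * Q := by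
      have h2 : 2 ^ ((i : ℕ) + 1) ≤ 2 ^ (j : ℕ) :=
        Nat.pow_le_pow_right (by norm_num) (by exact_mod_cast hij)
      calc 2 * (2 ^ (i : ℕ) * Q) = 2 ^ ((i : ℕ) + 1) * Q := by ring
        _ ≤ 2 ^ (j : ℕ) * Q := Nat.mul_le_mul_right _ h2
    exact lt_of_le_of_lt ((hq3 i).trans h1) (hq2 j)
  refine ⟨q, hmono.injective, fun j => ⟨hq1 j, ?_, ?_⟩⟩
  · refine lt_of_le_of_lt ?_ (hq2 j)
    exact Nat.le_mul_of_pos_left _ (by positivity)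
  · refine (hq3 j).trans ?_
    have h2 : 2 ^ ((j : ℕ) + 1) ≤ 2 ^ r := Nat.pow_le_pow_right (by norm_num) j.2
    calc 2 * (2 ^ (j : ℕ) * Q) = 2 ^ ((j : ℕ) + 1) * Q := by ring
      _ ≤ 2 ^ r * Q := Nat.mul_le_mul_right _ h2

end TNF.HIT
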