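import Pool.Agent.Lib.TNF.HIT.Spec

/-!
# TNF, package HIT, Cls: one residue class (helper42)
-/

set_option autoImplicit false

open Polynomial

noncomputable section

namespace TNF.HIT

namespace Cls_aux

/-- `g1 ^ D F(-g0 / g1)`. -/
def hm (F : ℤ[X][X]) (g0 g1 : ℤ[X]) : ℤ[X] :=
  ∑ i ∈ Finset.range (F.natDegree + 1), F.coeff i * (-g0) ^ i * g1 ^ (F.natDegree - i)

theorem ev_eq (F : ℤ[X][X]) (t y : ℤ) : (F.eval (C y)).eval t = ev F t y := by
  unfold ev
  rw [eval_map, ← coe_evalRingHom]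
  conv_rhs => rw [show y = evalRingHom t (C y) by simp]
  rw [eval₂_at_apply]

theorem hm_eval (F : ℤ[X][X]) (g0 g1 : ℤ[X]) (t y : ℤ) (h : g0.eval t + g1.eval t * y = 0)
    (hF : ev F t y = 0) : (hm F g0 g1).eval t = 0 := by
  have h1 : -(g0.eval t) = g1.eval t * y := by linear_combination -h
  have h2 : (hm F g0 g1).eval t = g1.eval t ^ F.natDegree * ev F t y := by
    have h3 : F.eval (C y) = ∑ i ∈ Finset.range (F.natDegree + 1), F.coeff i * C y ^ i :=
      eval_eq_sum_range (C y)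
    rw [← ev_eq, h3, eval_finsetSum, hm, eval_finsetSum, Finset.mul_sum]
    refine Finset.sum_congr rfl fun i hi => ?_
    have hi' : i ≤ F.natDegree := by rw [Finset.mem_range] at hi; omega
    simp only [eval_mul, eval_pow, eval_neg, eval_C]
    rw [h1, ← Nat.add_sub_cancel' hi', Nat.add_sub_cancel_left, pow_add, mul_pow]
    ring
  rw [h2, hF, mul_zero]

theorem hm_ne (hHom : S_Hom) (F : ℤ[X][X]) (hF : NR F) (g0 g1 : ℤ[X]) (h : g0 ≠ 0 ∨ g1 ≠ 0) :
    hm F g0 g1 ≠ 0 := by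
  by_cases h1 : g1 = 0
  · have h2 : g0 ≠ 0 := by
      rcases h with h | h
      · exact h
      · exact absurd h1 h
    subst h1
    have : hm F g0 0 = (-g0) ^ F.natDegree := by
      rw [hm, Finset.sum_range_succ, Finset.sum_eq_zero, zero_add, Nat.sub_self, pow_zero, mul_one,
        show F.coeff F.natDegree = 1 from hF.1, one_mul]
      intro i hi
      rw [Finset.mem_range] at hi
      rw [zero_pow (by omega), mul_zero]
    rw [this]
    exact pow_ne_zero _ (neg_ne_zero.2 h2)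
  · exact hHom ℤ[X] F hF (-g0) g1 h1

theorem hm_deg (F : ℤ[X][X]) (g0 g1 : ℤ[X]) {e n d : ℕ} (he : ∀ i, (F.coeff i).natDegree ≤ e)
    (hd : F.natDegree ≤ d) (h0 : g0.natDegree ≤ n) (h1 : g1.natDegree ≤ n) :
    (hm F g0 g1).natDegree ≤ e + d * n := by
  rw [hm]
  refine natDegree_sum_le_of_forall_le _ _ fun i hi => ?_
  have hi' : i ≤ F.natDegree := by rw [Finset.mem_range] at hi; omega
  refine natDegree_mul_le.trans ?_
  refine (add_le_add natDegree_mul_le le_rfl).trans ?_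
  have h2 : ((-g0) ^ i).natDegree ≤ i * n := natDegree_pow_le.trans (by
    rw [natDegree_neg]; exact Nat.mul_le_mul_left _ h0)
  have h3 : (g1 ^ (F.natDegree - i)).natDegree ≤ (F.natDegree - i) * n := natDegree_pow_le.trans
    (Nat.mul_le_mul_left _ h1)
  have h4 : i * n + (F.natDegree - i) * n = F.natDegree * n := by
    rw [← add_mul, Nat.add_sub_cancel' hi']
  have h5 : F.natDegree * n ≤ d * n := Nat.mul_le_mul_right _ hd
  have := he i
  omega

end Cls_aux

open Cls_aux in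
theorem tCls : S_Rel → S_Hom → S_Cls := by
  intro hRel hHom F q n N Y d e t₀ y₀ hq hu hs hF hd he
  classical
  obtain ⟨g₀, g₁, hne, h0, h1, hg⟩ := hRel F q n N Y t₀ y₀ hq hu hs
  have hH := hm_ne hHom F hF g₀ g₁ hne
  have hsub : {t : ℤ | |t| ≤ N ∧ (q : ℤ) ∣ t - t₀ ∧ ∃ y : ℤ, (q : ℤ) ∣ y - y₀ ∧ |y| ≤ Y ∧
      ev F t y = 0} ⊆ ((hm F g₀ g₁).roots.toFinset : Set ℤ) := by
    rintro t ⟨h2, h3, y, h4, h5, h6⟩
    rw [Finset.mem_coe, Multiset.mem_toFinset, mem_roots hH, IsRoot.def]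
    exact hm_eval F g₀ g₁ t y (hg t y h3 h4 h2 h5 h6) h6
  refine (Set.ncard_le_ncard hsub (Finset.finite_toSet _)).trans ?_
  rw [Set.ncard_coe_finset]
  exact (Multiset.toFinset_card_le _).trans ((card_roots' _).trans (hm_deg F g₀ g₁ he hd h0 h1))

end TNF.HIT
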