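import Pool.Agent.Lib.TNF.HIT.Spec

/-!
# PROJECT TNF, package HIT: Hilbert's irreducibility theorem with a count
-/

set_option autoImplicit false

noncomputable section

namespace TNF.HIT

open Polynomial

namespace Cnt_aux

/-- A polynomial with rational coefficients has an integral multiple. -/
lemma denom {σ : Type} (D : MvPolynomial σ ℚ) : ∃ (c : ℤ) (D₁ : MvPolynomial σ ℤ), c ≠ 0 ∧
    MvPolynomial.map (Int.castRingHom ℚ) D₁ = MvPolynomial.C (c : ℚ) * D := by
  induction D using MvPolynomial.induction_on with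
  | C a =>
    refine ⟨a.den, MvPolynomial.C a.num, by exact_mod_cast a.den_nz, ?_⟩
    rw [MvPolynomial.map_C, ← MvPolynomial.C_mul]
    congr 1
    have h := Rat.mul_den_eq_num a
    rw [mul_comm] at h
    simpa using h.symm
  | add P Q hP hQ =>
    obtain ⟨c, P₁, hc, h1⟩ := hP
    obtain ⟨d, Q₁, hd, h2⟩ := hQ
    refine ⟨c * d, MvPolynomial.C d * P₁ + MvPolynomial.C c * Q₁, mul_ne_zero hc hd, ?_⟩
    rw [map_add, map_mul, map_mul, MvPolynomial.map_C, MvPolynomial.map_C, h1, h2]
    simp only [eq_intCast, Int.cast_mul, MvPolynomial.C_mul]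
    ring
  | mul_X P i hP =>
    obtain ⟨c, P₁, hc, h1⟩ := hP
    refine ⟨c, P₁ * MvPolynomial.X i, hc, ?_⟩
    rw [map_mul, MvPolynomial.map_X, h1]
    ring

/-- Values at integral points. -/
lemma cast_eval {σ : Type} (D : MvPolynomial σ ℤ) (s : σ → ℤ) :
    ((MvPolynomial.eval s D : ℤ) : ℚ) =
      MvPolynomial.eval (fun i => (s i : ℚ)) (MvPolynomial.map (Int.castRingHom ℚ) D) := by
  induction D using MvPolynomial.induction_on with
  | C a => simp
  | add P Q hP hQ => simp only [map_add, Int.cast_add, hP, hQ]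
  | mul_X P i hP => simp only [map_mul, Int.cast_mul, hP, MvPolynomial.map_X, MvPolynomial.eval_X]

lemma empty (p : ℕ) (x : ℝ) : Thn p x ∅ := ⟨0, fun N _ => by simp⟩

end Cnt_aux

/-- **Cnt** -/
theorem tCnt : S_Bas → S_Zer → S_Hall → S_Res → S_Rat → S_Cnt := by
  intro hBas hZer hHall hRes hRat p F D hD hF ε hε
  obtain ⟨-, hmono, hexp, hU, -, -, hun⟩ := hBas
  have hzero : ∀ h : Rp p, h ≠ 0 →
      Thn p ((p : ℝ) - 1 / 2 + ε) {a | MvPolynomial.eval a h = 0} := fun h hh =>
    hexp p _ _ _ (by linarith) (hZer p h hh)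
  have hbad : ∀ G : (Rp p)[X], NR G → Thn p ((p : ℝ) - 1 / 2 + ε) (Bad G) := fun G hG =>
    hexp p _ _ _ (by linarith) (hHall p (1 / 2 + ε) (by linarith) G hG)
  have hone : ∀ P : (MvPolynomial (Fin p) ℚ)[X],
      Irreducible (P.map (algebraMap (MvPolynomial (Fin p) ℚ)
        (FractionRing (MvPolynomial (Fin p) ℚ)))) → 0 < P.natDegree →
      Thn p ((p : ℝ) - 1 / 2 + ε)
        {s | ¬ Irreducible (P.map (MvPolynomial.eval fun i => (s i : ℚ)))} := by
    intro P hP hPd
    obtain ⟨F₁, h, hh, hF₁, hF₁i, hF₁s⟩ := hRat p P hP hPd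
    obtain ⟨k, G, hG, hGs⟩ := hRes p F₁ hF₁ hF₁i
    refine hmono p _ _ _ ?_
      (hun p _ _ _ (hzero h hh) (hU p _ k (fun i => Bad (G i)) fun i => hbad (G i) (hG i)))
    intro s hs
    by_cases h0 : MvPolynomial.eval s h = 0
    · exact Or.inl h0
    · right
      by_contra hcon
      refine hs (hF₁s s h0 ?_)
      by_contra hred
      obtain ⟨i, hi⟩ := hGs s hred
      exact hcon (Set.mem_iUnion.mpr ⟨i, hi⟩)
  have hlist : ∀ L : List (MvPolynomial (Fin p) ℚ)[X],
      (∀ P ∈ L, Irreducible (P.map (algebraMap (MvPolynomial (Fin p) ℚ)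
        (FractionRing (MvPolynomial (Fin p) ℚ)))) ∧ 0 < P.natDegree) →
      Thn p ((p : ℝ) - 1 / 2 + ε)
        {s | ¬ ∀ P ∈ L, Irreducible (P.map (MvPolynomial.eval fun i => (s i : ℚ)))} := by
    intro L
    induction L with
    | nil =>
      intro _
      refine hmono p _ _ _ ?_ (Cnt_aux.empty p _)
      intro s hs
      exact absurd (fun P hP => absurd hP (by simp)) hs
    | cons P L ih =>
      intro hL
      obtain ⟨h1, h2⟩ := hL P (by simp)
      refine hmono p _ _ _ ?_
        (hun p _ _ _ (hone P h1 h2) (ih fun Q hQ => hL Q (List.mem_cons_of_mem _ hQ)))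
      intro s hs
      by_cases hP : Irreducible (P.map (MvPolynomial.eval fun i => (s i : ℚ)))
      · right
        intro hcon
        refine hs fun Q hQ => ?_
        rcases List.mem_cons.mp hQ with rfl | hQ
        · exact hP
        · exact hcon Q hQ
      · exact Or.inl hP
  obtain ⟨c, D₁, hc, hD₁⟩ := Cnt_aux.denom D
  have hD₁0 : D₁ ≠ 0 := by
    rintro rfl
    rw [map_zero] at hD₁
    have hc' : (c : ℚ) ≠ 0 := by exact_mod_cast hc
    exact mul_ne_zero (by simpa using hc') hD hD₁.symm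
  refine hmono p _ _ _ ?_ (hun p _ _ _ (hzero D₁ hD₁0) (hlist F hF))
  intro s hs
  by_cases h0 : MvPolynomial.eval (fun i => (s i : ℚ)) D = 0
  · left
    have h1 := Cnt_aux.cast_eval D₁ s
    rw [hD₁, map_mul, h0, mul_zero] at h1
    exact_mod_cast h1
  · right
    intro hcon
    exact hs ⟨h0, hcon⟩

end TNF.HIT
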