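import Pool.Agent.Lib.TNF.HIT.Spec

/-!
# PROJECT TNF, package HIT, module Deg: the degree of a root
-/

set_option autoImplicit false

namespace TNF.HIT

open Polynomial

/-- **Deg**: the degree of a root. -/
theorem tDeg : S_Deg := by
  intro A _ _ F e hF hc g hg
  by_contra hlt
  have hlt : e < g.natDegree := not_le.mp hlt
  have hD : 1 ≤ F.natDegree := by
    by_contra h0
    have h0 : F.natDegree = 0 := by omega
    have h1 : F = 1 := hF.natDegree_eq_zero.mp h0
    rw [h1, eval_one] at hg
    exact one_ne_zero hg
  have hsum : g ^ F.natDegree = - ∑ i ∈ Finset.range F.natDegree, F.coeff i * g ^ i := by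
    rw [eval_eq_sum_range, Finset.sum_range_succ, hF.coeff_natDegree, one_mul] at hg
    exact eq_neg_of_add_eq_zero_right hg
  have hdeg : (g ^ F.natDegree).natDegree ≤ e + (F.natDegree - 1) * g.natDegree := by
    rw [hsum, natDegree_neg]
    apply natDegree_sum_le_of_forall_le
    intro i hi
    have hi' : i < F.natDegree := Finset.mem_range.mp hi
    calc (F.coeff i * g ^ i).natDegree ≤ (F.coeff i).natDegree + (g ^ i).natDegree := natDegree_mul_le
      _ ≤ e + i * g.natDegree := Nat.add_le_add (hc i) natDegree_pow_le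
      _ ≤ e + (F.natDegree - 1) * g.natDegree :=
        Nat.add_le_add_left (Nat.mul_le_mul_right _ (by omega)) e
  rw [natDegree_pow] at hdeg
  have hsplit : F.natDegree * g.natDegree = (F.natDegree - 1) * g.natDegree + g.natDegree := by
    obtain ⟨k, hk⟩ : ∃ k, F.natDegree = k + 1 := ⟨F.natDegree - 1, by omega⟩
    rw [hk, Nat.add_sub_cancel, Nat.add_mul, Nat.one_mul]
  omega

end TNF.HIT
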