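import Pool.Agent.Lib.TNF.HIT.Spec

/-!
# TNF, package HIT, Det: divisibility of the interpolation determinant (helper42)
-/

set_option autoImplicit false

open Polynomial

noncomputable section

namespace TNF.HIT

namespace Det_aux

/-- The sum of different natural numbers. -/
theorem sum_distinct {ι : Type} [Fintype ι] (κ : ι → ℕ) (hκ : Function.Injective κ) :
    Fintype.card ι * (Fintype.card ι - 1) / 2 ≤ ∑ j, κ j := by
  have h1 : ∑ j, κ j = ∑ x ∈ Finset.univ.image κ, x :=
    (Finset.sum_image (f := fun x => x) fun a _ b _ h => hκ h).symm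
  have hc : (Finset.univ.image κ).card = Fintype.card ι := by
    rw [Finset.card_image_of_injective _ hκ, Finset.card_univ]
  rw [h1, ← Finset.sum_range_id]
  have key : ∀ (n : ℕ) (s : Finset ℕ), s.card = n → ∑ i ∈ Finset.range n, i ≤ ∑ x ∈ s, x := by
    intro n
    induction n with
    | zero => intro s _; simp
    | succ n ih =>
      intro s hs
      have hne : s.Nonempty := by
        rw [← Finset.card_pos, hs]; omega
      set m := s.max' hne with hm
      have hmem : m ∈ s := s.max'_mem hne
      have hn : n ≤ m := by
        have h2 : s ⊆ Finset.range (m + 1) := fun x hx => by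
          rw [Finset.mem_range]
          have := s.le_max' x hx
          omega
        have := Finset.card_le_card h2
        rw [hs, Finset.card_range] at this
        omega
      rw [Finset.sum_range_succ, ← Finset.sum_erase_add s _ hmem]
      refine add_le_add (ih _ ?_) hn
      rw [Finset.card_erase_of_mem hmem, hs]; rfl
  exact key _ _ hc

/-- Divisibility for the transposed matrix. -/
theorem det_dvd {ι : Type} [Fintype ι] [DecidableEq ι] (q : ℤ) (P : ι → ℤ[X]) (z : ι → ℤ) :
    q ^ (Fintype.card ι * (Fintype.card ι - 1) / 2) ∣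
      (Matrix.of fun j i => (P j).eval (q * z i)).det := by
  obtain ⟨K, hK⟩ : ∃ K, ∀ j, (P j).natDegree < K :=
    ⟨(Finset.univ.sup fun j => (P j).natDegree) + 1, fun j =>
      Nat.lt_succ_of_le (Finset.le_sup (f := fun j => (P j).natDegree) (Finset.mem_univ j))⟩
  have h1 : (Matrix.of fun j i => (P j).eval (q * z i)) =
      fun j => ∑ k ∈ Finset.range K, ((P j).coeff k * q ^ k) • fun i => (z i) ^ k := by
    funext j i
    rw [Finset.sum_apply]
    show (P j).eval (q * z i) = _
    rw [eval_eq_sum_range' (hK j)]
    refine Finset.sum_congr rfl fun k _ => ?_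
    rw [Pi.smul_apply, smul_eq_mul, mul_pow]; ring
  have h2 : (Matrix.of fun j i => (P j).eval (q * z i)).det =
      Matrix.detRowAlternating (fun j => ∑ k ∈ Finset.range K,
        ((P j).coeff k * q ^ k) • fun i => (z i) ^ k) := by
    rw [h1]; rfl
  rw [h2, ← AlternatingMap.coe_multilinearMap, MultilinearMap.map_sum_finset]
  refine Finset.dvd_sum fun κ hκ => ?_
  rw [MultilinearMap.map_smul_univ, AlternatingMap.coe_multilinearMap]
  by_cases hi : Function.Injective κ
  · rw [Finset.prod_mul_distrib, Finset.prod_pow_eq_pow_sum, smul_eq_mul]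
    refine Dvd.dvd.mul_right (Dvd.dvd.mul_left ?_ _) _
    exact pow_dvd_pow q (sum_distinct κ hi)
  · obtain ⟨a, b, hab, hne⟩ : ∃ a b, κ a = κ b ∧ a ≠ b := by
      simp only [Function.Injective, not_forall] at hi
      obtain ⟨a, b, h, h'⟩ := hi
      exact ⟨a, b, h, h'⟩
    have : (Matrix.detRowAlternating (R := ℤ) fun j => fun i => (z i) ^ κ j) = 0 :=
      AlternatingMap.map_eq_zero_of_eq _ _ (by simp [hab]) hne
    rw [this, smul_zero]
    exact dvd_zero _

end Det_aux

theorem tDet : S_Det := by
  intro ι _ _ q x P hx
  choose z hz using hx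
  have h1 := Det_aux.det_dvd q P z
  rw [← Matrix.det_transpose]
  have : (Matrix.of fun i j => (P j).eval (x i)).transpose =
      Matrix.of fun j i => (P j).eval (q * z i) := by
    ext j i
    rw [Matrix.transpose_apply, Matrix.of_apply, Matrix.of_apply, hz i]
  rw [this]
  exact h1

end TNF.HIT
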