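import Pool.Agent.Lib.TNF.HIT.Spec

/-!
# The discriminant

Proof of `S_Dsc`.
-/

set_option autoImplicit false

noncomputable section

namespace TNF.HIT

open Polynomial

theorem tDsc : S_Dsc := by
  intro A _ _ _ _ F hF hirr
  have hinj : Function.Injective (algebraMap A (FractionRing A)) :=
    IsFractionRing.injective A (FractionRing A)
  haveI : CharZero (FractionRing A) := charZero_of_injective_algebraMap hinj
  have hirrK : Irreducible (F.map (algebraMap A (FractionRing A))) :=
    (hF.irreducible_iff_irreducible_map_fraction_map (K := FractionRing A)).1 hirr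
  obtain ⟨a, b, hab⟩ := hirrK.separable
  obtain ⟨m₁, h₁⟩ := IsLocalization.integerNormalization_map_to_map (nonZeroDivisors A) a
  obtain ⟨m₂, h₂⟩ := IsLocalization.integerNormalization_map_to_map (nonZeroDivisors A) b
  have hm₁ : (m₁ : A) ≠ 0 := nonZeroDivisors.ne_zero m₁.2
  have hm₂ : (m₂ : A) ≠ 0 := nonZeroDivisors.ne_zero m₂.2
  refine ⟨Polynomial.C (m₂ : A) * IsLocalization.integerNormalization (nonZeroDivisors A) a,
    Polynomial.C (m₁ : A) * IsLocalization.integerNormalization (nonZeroDivisors A) b,
    (m₁ : A) * (m₂ : A), mul_ne_zero hm₁ hm₂, ?_⟩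
  apply Polynomial.map_injective (algebraMap A (FractionRing A)) hinj
  have e₁ : (m₁ : A) • a = Polynomial.C (algebraMap A (FractionRing A) (m₁ : A)) * a := by
    rw [← Polynomial.smul_eq_C_mul, algebraMap_smul]
  have e₂ : (m₂ : A) • b = Polynomial.C (algebraMap A (FractionRing A) (m₂ : A)) * b := by
    rw [← Polynomial.smul_eq_C_mul, algebraMap_smul]
  rw [e₁] at h₁
  rw [e₂] at h₂
  simp only [Polynomial.map_add, Polynomial.map_mul, Polynomial.map_C, h₁, h₂,
    ← Polynomial.derivative_map, map_mul]
  linear_combination (Polynomial.C (algebraMap A (FractionRing A) (m₁ : A)) *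
    Polynomial.C (algebraMap A (FractionRing A) (m₂ : A))) * hab

end TNF.HIT
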