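import Pool.Agent.Lib.TNF.HIT.Spec

/-! # TNF, HIT, module Dsz: size of a determinant -/

set_option autoImplicit false

namespace TNF.HIT

open Polynomial

theorem tDsz : S_Dsz := by
  intro ι _ _ M b hb
  rw [Matrix.det_apply]
  refine (Finset.abs_sum_le_sum_abs _ _).trans ?_
  have h1 : ∀ σ : Equiv.Perm ι, |Equiv.Perm.sign σ • ∏ i, M (σ i) i| ≤ ∏ j, b j := by
    intro σ
    have h2 : |Equiv.Perm.sign σ • ∏ i, M (σ i) i| = |∏ i, M (σ i) i| := by
      rcases Int.units_eq_one_or (Equiv.Perm.sign σ) with h | h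
      · rw [h, one_smul]
      · rw [h, Units.neg_smul, one_smul, abs_neg]
    rw [h2, Finset.abs_prod]
    exact Finset.prod_le_prod (fun i _ => abs_nonneg _) fun i _ => hb (σ i) i
  refine (Finset.sum_le_card_nsmul _ _ _ fun σ _ => h1 σ).trans (le_of_eq ?_)
  rw [nsmul_eq_mul, Finset.card_univ, Fintype.card_perm]

end TNF.HIT
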