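import Pool.Agent.Lib.TNF.HIT.Spec

/-!
# Package HIT: extension of homomorphisms
-/

set_option autoImplicit false

namespace TNF.HIT

theorem tExt : S_Ext := by
  intro R B Ω _ _ _ _ _ _ _ hinj hint φ
  have hp : (RingHom.ker φ).IsPrime := RingHom.ker_isPrime φ
  obtain ⟨Q, hQ, hQc⟩ := Ideal.exists_ideal_over_prime_of_isIntegral_of_isDomain (S := B) (RingHom.ker φ)
    (by
      rw [(RingHom.injective_iff_ker_eq_bot _).1 hinj]
      exact bot_le)
  let A1 : Algebra (R ⧸ RingHom.ker φ) (B ⧸ Q) := Ideal.Quotient.algebraQuotientOfLEComap hQc.ge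
  let A2 : Algebra (R ⧸ RingHom.ker φ) Ω := (RingHom.kerLift φ).toAlgebra
  have hm1 : ∀ r : R, algebraMap (R ⧸ RingHom.ker φ) (B ⧸ Q) (Ideal.Quotient.mk _ r) =
      Ideal.Quotient.mk Q (algebraMap R B r) := fun r => rfl
  have hm2 : ∀ r : R, algebraMap (R ⧸ RingHom.ker φ) Ω (Ideal.Quotient.mk _ r) = φ r := fun r =>
    RingHom.kerLift_mk φ r
  have F1 : Function.Injective (algebraMap (R ⧸ RingHom.ker φ) (B ⧸ Q)) := by
    rw [injective_iff_map_eq_zero]
    intro a ha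
    obtain ⟨r, rfl⟩ := Ideal.Quotient.mk_surjective a
    rw [hm1, Ideal.Quotient.eq_zero_iff_mem] at ha
    rw [Ideal.Quotient.eq_zero_iff_mem, ← hQc]
    exact ha
  have F2 : Function.Injective (algebraMap (R ⧸ RingHom.ker φ) Ω) := RingHom.kerLift_injective φ
  have I5 : IsDomain (B ⧸ Q) := inferInstance
  have I6 : IsDomain (R ⧸ RingHom.ker φ) := inferInstance
  have I1 : Module.IsTorsionFree (R ⧸ RingHom.ker φ) (B ⧸ Q) :=
    Module.isTorsionFree_iff_algebraMap_injective.2 F1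
  have I2 : Module.IsTorsionFree (R ⧸ RingHom.ker φ) Ω := Module.isTorsionFree_iff_algebraMap_injective.2 F2
  have I3 : Algebra.IsIntegral (R ⧸ RingHom.ker φ) (B ⧸ Q) := by
    refine ⟨fun b => ?_⟩
    obtain ⟨b, rfl⟩ := Ideal.Quotient.mk_surjective b
    obtain ⟨P, hP, hPb⟩ := hint.isIntegral b
    refine ⟨P.map (Ideal.Quotient.mk _), hP.map _, ?_⟩
    rw [Polynomial.eval₂_map]
    have h1 : (algebraMap (R ⧸ RingHom.ker φ) (B ⧸ Q)).comp (Ideal.Quotient.mk (RingHom.ker φ)) =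
        (Ideal.Quotient.mk Q).comp (algebraMap R B) := RingHom.ext hm1
    rw [h1, ← Polynomial.hom_eval₂, hPb, map_zero]
  have I4 : Algebra.IsAlgebraic (R ⧸ RingHom.ker φ) (B ⧸ Q) := inferInstance
  let ψ : (B ⧸ Q) →ₐ[R ⧸ RingHom.ker φ] Ω := IsAlgClosed.lift
  refine ⟨(ψ : (B ⧸ Q) →+* Ω).comp (Ideal.Quotient.mk Q), fun r => ?_⟩
  rw [RingHom.comp_apply, ← hm1, RingHom.coe_coe, AlgHom.commutes, hm2]

end TNF.HIT
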