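import Pool.Agent.Lib.TNF.HIT.Spec

/-!
# PROJECT TNF, package HIT: reduction to irreducible polynomials
-/

set_option autoImplicit false

noncomputable section

namespace TNF.HIT

open Polynomial

namespace Fac_aux

theorem empty (p : ℕ) (x : ℝ) : Thn p x ∅ := by
  refine ⟨0, fun N _ => ?_⟩
  rw [Set.inter_empty, Set.ncard_empty, Nat.cast_zero, zero_mul]

theorem bad_one (p : ℕ) : Bad (1 : (Rp p)[X]) = ∅ := by
  ext s
  constructor
  · rintro ⟨y, hy⟩
    rw [Polynomial.map_one, eval_one] at hy
    exact absurd hy one_ne_zero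
  · intro h
    exact absurd h (Set.notMem_empty s)

theorem bad_mul {p : ℕ} (f g : (Rp p)[X]) : Bad (f * g) ⊆ Bad f ∪ Bad g := by
  rintro s ⟨y, hy⟩
  rw [Polynomial.map_mul, eval_mul, mul_eq_zero] at hy
  rcases hy with h | h
  · exact Or.inl ⟨y, h⟩
  · exact Or.inr ⟨y, h⟩

theorem nr_left {A : Type} [CommRing A] (f g : A[X]) (hf : f.Monic) (h : NR (f * g)) : NR f := by
  refine ⟨hf, fun a ha => h.2 a ?_⟩
  rw [eval_mul, ha, zero_mul]

theorem nr_right {A : Type} [CommRing A] (f g : A[X]) (hg : g.Monic) (h : NR (f * g)) : NR g := by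
  refine ⟨hg, fun a ha => h.2 a ?_⟩
  rw [eval_mul, ha, mul_zero]

end Fac_aux

theorem tFac : S_Bas → S_Fac := by
  intro hB p x hirr
  obtain ⟨-, hmono, -, -, -, -, hunion⟩ := hB
  have key : ∀ n : ℕ, ∀ F : (Rp p)[X], F.natDegree = n → NR F → Thn p x (Bad F) := by
    intro n
    induction n using Nat.strong_induction_on with
    | _ n ih =>
      intro F hn hF
      by_cases h1 : F = 1
      · rw [h1, Fac_aux.bad_one]
        exact Fac_aux.empty p x
      by_cases h2 : Irreducible F
      · exact hirr F hF h2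
      have h3 : ∃ f g : (Rp p)[X], f.Monic ∧ g.Monic ∧ f * g = F ∧
          g.natDegree ∈ Finset.Ioc 0 (F.natDegree / 2) := by
        by_contra hcon
        apply h2
        rw [hF.1.irreducible_iff_natDegree']
        refine ⟨h1, fun f g hf hg hfg hd => hcon ⟨f, g, hf, hg, hfg, hd⟩⟩
      obtain ⟨f, g, hf, hg, hfg, hd⟩ := h3
      rw [Finset.mem_Ioc] at hd
      have hdeg : f.natDegree + g.natDegree = F.natDegree := by
        rw [← hfg, hf.natDegree_mul hg]
      have hF' : NR (f * g) := by rw [hfg]; exact hF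
      have e1 := ih f.natDegree (by omega) f rfl (Fac_aux.nr_left f g hf hF')
      have e2 := ih g.natDegree (by omega) g rfl (Fac_aux.nr_right f g hg hF')
      rw [← hfg]
      exact hmono p x _ _ (Fac_aux.bad_mul f g) (hunion p x _ _ e1 e2)
  intro F hF
  exact key F.natDegree F rfl hF

end TNF.HIT
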