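import Pool.Agent.Lib.TNF.HIT.Spec

/-!
PROJECT TNF, package HIT, module Hen: Hensel's lemma with a parameter.
-/

set_option autoImplicit false

noncomputable section

namespace TNF.HIT

open Polynomial

namespace Hen_aux

theorem ev_eq (F : ℤ[X][X]) (t y : ℤ) : ev F t y = F.eval₂ (evalRingHom t) y := by
  unfold ev
  rw [eval_map]

theorem ev_swap (F : ℤ[X][X]) (t y : ℤ) : ev F t y = (F.eval (C y)).eval t := by
  have h := hom_eval₂ F (RingHom.id ℤ[X]) (evalRingHom t) (C y)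
  rw [RingHom.comp_id] at h
  rw [ev_eq]
  simpa using h.symm

theorem exists_poly (F : ℤ[X][X]) (t₀ : ℤ) (φ : ℤ[X]) :
    ∃ Ψ : ℤ[X], ∀ x, Ψ.eval x = ev F (t₀ + x) (φ.eval x) := by
  refine ⟨F.eval₂ (compRingHom (C t₀ + X)) φ, fun x => ?_⟩
  have h := hom_eval₂ F (compRingHom (C t₀ + X)) (evalRingHom x) φ
  have e : (evalRingHom x).comp (compRingHom (C t₀ + X)) = evalRingHom (t₀ + x) := by
    ext
    · simp
    · simp
  rw [e] at h
  rw [ev_eq]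
  simpa using h

theorem cong (F : ℤ[X][X]) (q t₀ y₀ x v : ℤ) (hx : q ∣ x) (hv : q ∣ v - y₀) :
    q ∣ ev F (t₀ + x) v - ev F t₀ y₀ := by
  have h1 : q ∣ ev F (t₀ + x) v - ev F (t₀ + x) y₀ :=
    hv.trans (sub_dvd_eval_sub v y₀ (F.map (evalRingHom (t₀ + x))))
  have h2 : q ∣ ev F (t₀ + x) y₀ - ev F t₀ y₀ := by
    rw [ev_swap, ev_swap]
    have h3 : t₀ + x - t₀ ∣ (F.eval (C y₀)).eval (t₀ + x) - (F.eval (C y₀)).eval t₀ :=
      sub_dvd_eval_sub _ _ _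
    rw [add_sub_cancel_left] at h3
    exact hx.trans h3
  have h3 := dvd_add h1 h2
  rwa [sub_add_sub_cancel] at h3

theorem taylor (F : ℤ[X][X]) (t v h : ℤ) :
    ∃ k : ℤ, ev F t (v + h) = ev F t v + ev (derivative F) t v * h + k * h ^ 2 := by
  obtain ⟨k, hk⟩ := binomExpansion (F.map (evalRingHom t)) v h
  refine ⟨k, ?_⟩
  unfold ev
  rw [hk, derivative_map]

theorem lift (F : ℤ[X][X]) (q t₀ y₀ u : ℤ) (h0 : q ∣ ev F t₀ y₀)
    (hu : q ∣ 1 - u * ev (derivative F) t₀ y₀) (M : ℕ) :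
    ∃ φ : ℤ[X], ∀ x : ℤ, q ∣ x → q ∣ φ.eval x - y₀ ∧ q ^ (M + 1) ∣ ev F (t₀ + x) (φ.eval x) := by
  induction M with
  | zero =>
    refine ⟨C y₀, fun x hx => ?_⟩
    rw [eval_C, zero_add, pow_one]
    refine ⟨by simp, ?_⟩
    have h1 := cong F q t₀ y₀ x y₀ hx (by simp)
    exact (dvd_iff_dvd_of_dvd_sub h1).2 h0
  | succ M ih =>
    obtain ⟨φ, hφ⟩ := ih
    obtain ⟨Ψ, hΨ⟩ := exists_poly F t₀ φ
    refine ⟨φ - C u * Ψ, fun x hx => ?_⟩
    obtain ⟨a1, a2⟩ := hφ x hx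
    have e : (φ - C u * Ψ).eval x = φ.eval x + -(u * ev F (t₀ + x) (φ.eval x)) := by
      rw [eval_sub, eval_mul, eval_C, hΨ x]
      ring
    rw [e]
    obtain ⟨v, hv⟩ : ∃ v, v = φ.eval x := ⟨_, rfl⟩
    rw [← hv] at a1 a2 ⊢
    obtain ⟨w, hw⟩ : ∃ w, w = ev F (t₀ + x) v := ⟨_, rfl⟩
    rw [← hw] at a2 ⊢
    have b1 : q ∣ w := (dvd_pow_self q (Nat.succ_ne_zero M)).trans a2
    refine ⟨?_, ?_⟩
    · have h1 : v + -(u * w) - y₀ = (v - y₀) - u * w := by ring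
      rw [h1]
      exact dvd_sub a1 (b1.mul_left u)
    · obtain ⟨k, hk⟩ := taylor F (t₀ + x) v (-(u * w))
      rw [← hw] at hk
      rw [hk]
      have h1 := cong (derivative F) q t₀ y₀ x v hx a1
      obtain ⟨c, hc⟩ := h1
      obtain ⟨d, hd⟩ := hu
      obtain ⟨m, hm⟩ := a2
      obtain ⟨n, hn⟩ := b1
      have h2 : w + ev (derivative F) (t₀ + x) v * -(u * w) + k * (-(u * w)) ^ 2 =
          w * (1 - u * ev (derivative F) t₀ y₀) -
            w * (u * (ev (derivative F) (t₀ + x) v - ev (derivative F) t₀ y₀)) +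
            w * (k * u ^ 2 * w) := by ring
      rw [h2, hc, hd]
      have h3 : w * (q * d) - w * (u * (q * c)) + w * (k * u ^ 2 * w) =
          w * q * (d - u * c) + w * w * (k * u ^ 2) := by ring
      rw [h3]
      refine dvd_add ?_ ?_
      · refine Dvd.dvd.mul_right ?_ _
        rw [hm, pow_succ q (M + 1)]
        exact ⟨m, by ring⟩
      · refine Dvd.dvd.mul_right ?_ _
        calc q ^ (M + 1 + 1) = q ^ (M + 1) * q := pow_succ q (M + 1)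
          _ ∣ w * w := mul_dvd_mul ⟨m, hm⟩ ⟨n, hn⟩

end Hen_aux

open Hen_aux in
theorem tHen : S_Hen := by
  intro F q t₀ y₀ hq h0 h1 M
  rcases Nat.eq_zero_or_pos M with hM | hM
  · refine ⟨0, fun x y _ _ _ => ?_⟩
    rw [hM, pow_zero]
    exact one_dvd _
  obtain ⟨m, rfl⟩ : ∃ m, M = m + 1 := ⟨M - 1, by omega⟩
  have hqp : Prime (q : ℤ) := Nat.prime_iff_prime_int.1 hq
  have hcop : ∀ a : ℤ, ¬ (q : ℤ) ∣ a → IsCoprime (q : ℤ) a := fun a ha =>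
    (Prime.coprime_iff_not_dvd hqp).2 ha
  obtain ⟨b, u, hu⟩ := hcop _ h1
  obtain ⟨φ, hφ⟩ := lift F q t₀ y₀ u h0 ⟨b, by linear_combination -hu⟩ m
  refine ⟨φ, fun x y hx hy hxy => ?_⟩
  obtain ⟨a1, a2⟩ := hφ x hx
  obtain ⟨v, hv⟩ : ∃ v, v = φ.eval x := ⟨_, rfl⟩
  rw [← hv] at a1 a2 ⊢
  obtain ⟨k, hk⟩ := taylor F (t₀ + x) y (v - y)
  have e1 : y + (v - y) = v := by ring
  rw [e1, hxy, zero_add] at hk
  have e2 : ev F (t₀ + x) v = (ev (derivative F) (t₀ + x) y + k * (v - y)) * (v - y) := by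
    rw [hk]
    ring
  have hvy : (q : ℤ) ∣ v - y := by
    have h2 := dvd_sub a1 hy
    have h3 : v - y₀ - (y - y₀) = v - y := by ring
    rwa [h3] at h2
  have hnd : ¬ (q : ℤ) ∣ ev (derivative F) (t₀ + x) y + k * (v - y) := by
    intro h2
    have h3 : (q : ℤ) ∣ ev (derivative F) (t₀ + x) y :=
      (dvd_add_left (hvy.mul_left k)).1 h2
    exact h1 ((dvd_iff_dvd_of_dvd_sub (cong (derivative F) q t₀ y₀ x y hx hy)).1 h3)
  have hc : IsCoprime ((q : ℤ) ^ (m + 1)) (ev (derivative F) (t₀ + x) y + k * (v - y)) :=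
    (hcop _ hnd).pow_left
  rw [e2] at a2
  have h4 := hc.dvd_of_dvd_mul_left a2
  have h5 : y - v = -(v - y) := by ring
  rw [h5]
  exact (dvd_neg).2 h4

end TNF.HIT
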