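import Pool.Agent.Lib.TNF.HIT.Spec

/-!
# TNF/HIT/Hom: no root in the fraction field
-/

set_option autoImplicit false

namespace TNF.HIT

open Polynomial

/-- **Hom**: no root in the fraction field. -/
theorem tHom : S_Hom := by
  intro A _ _ _ F hF g₀ g₁ hg h0
  obtain ⟨hmon, hroot⟩ := hF
  let K := FractionRing A
  have hinj : Function.Injective (algebraMap A K) := IsFractionRing.injective A K
  have hb : algebraMap A K g₁ ≠ 0 := by
    intro h
    exact hg (hinj (by rw [h, map_zero]))
  have hev : eval₂ (algebraMap A K) (algebraMap A K g₀ / algebraMap A K g₁) F = 0 := by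
    have h1 : (algebraMap A K g₁) ^ F.natDegree *
        eval₂ (algebraMap A K) (algebraMap A K g₀ / algebraMap A K g₁) F = 0 := by
      rw [eval₂_eq_sum_range, Finset.mul_sum]
      have h2 := congrArg (algebraMap A K) h0
      rw [map_sum, map_zero] at h2
      rw [← h2]
      refine Finset.sum_congr rfl fun i hi => ?_
      have hi' : i ≤ F.natDegree := by
        have := Finset.mem_range.mp hi
        omega
      rw [map_mul, map_mul, map_pow, map_pow]
      have h3 : (algebraMap A K g₁) ^ F.natDegree =
          (algebraMap A K g₁) ^ (F.natDegree - i) * (algebraMap A K g₁) ^ i := by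
        rw [← pow_add, Nat.sub_add_cancel hi']
      rw [h3, div_pow]
      have h4 : (algebraMap A K g₁) ^ i ≠ 0 := pow_ne_zero _ hb
      have h5 : (algebraMap A K g₁) ^ i * ((algebraMap A K g₀) ^ i / (algebraMap A K g₁) ^ i) =
          (algebraMap A K g₀) ^ i := mul_div_cancel₀ _ h4
      linear_combination
        (algebraMap A K (F.coeff i) * (algebraMap A K g₁) ^ (F.natDegree - i)) * h5
    rcases mul_eq_zero.mp h1 with h | h
    · exact absurd h (pow_ne_zero _ hb)
    · exact h
  have hint : IsIntegral A (algebraMap A K g₀ / algebraMap A K g₁) := ⟨F, hmon, hev⟩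
  obtain ⟨g, hgK⟩ := IsIntegrallyClosed.isIntegral_iff.mp hint
  refine hroot g (hinj ?_)
  rw [map_zero, ← eval₂_at_apply, hgK, hev]

end TNF.HIT
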