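import Pool.Agent.Lib.TNF.HIT.Spec

/-!
# Hilbert irreducibility with a count: the choice of the parameters

`tIneq : S_Ineq`, project TNF (`MP_640417_ag`), package HIT.
-/

set_option autoImplicit false

namespace TNF.HIT

open Polynomial

namespace Ineq_aux

/-- `N ^ a ≤ Q ^ m` if `N ^ θ ≤ Q` and `a ≤ θ m`. -/
theorem pow_le {θ : ℝ} {N Q : ℕ} (hN : 1 ≤ N) (hQ : (N : ℝ) ^ θ ≤ (Q : ℝ)) {a m : ℕ} (h : (a : ℝ) ≤ θ * m) :
    N ^ a ≤ Q ^ m := by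
  have hN1 : (1 : ℝ) ≤ (N : ℝ) := by exact_mod_cast hN
  have hN0 : (0 : ℝ) ≤ (N : ℝ) := le_trans zero_le_one hN1
  have h1 : ((N ^ a : ℕ) : ℝ) ≤ ((Q ^ m : ℕ) : ℝ) := by
    push_cast
    calc (N : ℝ) ^ a = (N : ℝ) ^ (a : ℝ) := (Real.rpow_natCast _ _).symm
      _ ≤ (N : ℝ) ^ (θ * m) := Real.rpow_le_rpow_of_exponent_le hN1 h
      _ = ((N : ℝ) ^ θ) ^ m := by rw [Real.rpow_mul hN0, Real.rpow_natCast]
      _ ≤ (Q : ℝ) ^ m := pow_le_pow_left₀ (Real.rpow_nonneg hN0 _) hQ m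
  exact_mod_cast h1

theorem Y_le (d e k N : ℕ) (hN : 1 ≤ N) :
    1 + d * ((e + 1) * (k * N ^ k) * N ^ e) ≤ (1 + d * (e + 1) * k) * N ^ (k + e) := by
  have h1 : 1 ≤ N ^ (k + e) := Nat.one_le_pow _ _ hN
  calc 1 + d * ((e + 1) * (k * N ^ k) * N ^ e) = 1 + d * (e + 1) * k * N ^ (k + e) := by ring
    _ ≤ N ^ (k + e) + d * (e + 1) * k * N ^ (k + e) := Nat.add_le_add_right h1 _
    _ = (1 + d * (e + 1) * k) * N ^ (k + e) := by ring

end Ineq_aux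

open Ineq_aux in
theorem tIneq : S_Ineq := by
  intro θ hθ d e k
  have h2 : 0 < 2 * θ - 1 := by linarith
  obtain ⟨n, hn⟩ : ∃ n : ℕ, ((k : ℝ) + e + 1) / (2 * θ - 1) ≤ n := exists_nat_ge _
  have hn1 : (k : ℝ) + e + 1 ≤ (2 * θ - 1) * n := by
    rw [div_le_iff₀ h2] at hn
    linarith [mul_comm (n : ℝ) (2 * θ - 1)]
  refine ⟨n, 2 * (k + e + 1), (2 * n + 2).factorial * (1 + d * (e + 1) * k) ^ (n + 1) + (e + 1) * k + 1, ?_⟩
  intro N hN
  have hN1 : 1 ≤ N := by omega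
  have hNr : (1 : ℝ) ≤ (N : ℝ) := by exact_mod_cast hN1
  have hp : (1 : ℝ) ≤ (N : ℝ) ^ θ := Real.one_le_rpow hNr (by linarith)
  have hQ : (N : ℝ) ^ θ ≤ ((⌈(N : ℝ) ^ θ⌉₊ : ℕ) : ℝ) := Nat.le_ceil _
  refine ⟨⌈(N : ℝ) ^ θ⌉₊, ?_, ?_, ?_, ?_⟩
  · have : (1 : ℝ) ≤ ((⌈(N : ℝ) ^ θ⌉₊ : ℕ) : ℝ) := le_trans hp hQ
    exact_mod_cast this
  · have := Nat.ceil_lt_add_one (le_trans zero_le_one hp)
    linarith
  · intro q hq
    have hq1 : (N : ℝ) ^ θ ≤ (q : ℝ) := le_trans hQ (by exact_mod_cast hq.le)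
    have e1 : (2 * n + 2).factorial * (1 + d * (e + 1) * k) ^ (n + 1) < N := by omega
    have hpos : 0 < N ^ ((n + 1) * (n + k + e)) := Nat.pow_pos (by omega)
    calc (2 * n + 2).factorial * N ^ (n * (n + 1)) * (1 + d * ((e + 1) * (k * N ^ k) * N ^ e)) ^ (n + 1)
        ≤ (2 * n + 2).factorial * N ^ (n * (n + 1)) * ((1 + d * (e + 1) * k) * N ^ (k + e)) ^ (n + 1) :=
          Nat.mul_le_mul le_rfl (Nat.pow_le_pow_left (Y_le d e k N hN1) _)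
      _ = ((2 * n + 2).factorial * (1 + d * (e + 1) * k) ^ (n + 1)) * N ^ ((n + 1) * (n + k + e)) := by
          have e2 : N ^ (n * (n + 1)) * (N ^ (k + e)) ^ (n + 1) = N ^ ((n + 1) * (n + k + e)) := by
            rw [← pow_mul, ← pow_add]
            congr 1
            ring
          rw [mul_pow, ← e2]
          ac_rfl
      _ < N * N ^ ((n + 1) * (n + k + e)) := Nat.mul_lt_mul_of_pos_right e1 hpos
      _ = N ^ ((n + 1) * (n + k + e) + 1) := (pow_succ' N _).symm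
      _ ≤ N ^ ((n + 1) * (n + k + e + 1)) := Nat.pow_le_pow_right hN1 (by nlinarith [Nat.zero_le n])
      _ ≤ q ^ ((n + 1) * (2 * n + 1)) := by
          refine pow_le hN1 hq1 ?_
          push_cast
          have h3 : (n : ℝ) + k + e + 1 ≤ θ * (2 * n + 1) := by nlinarith
          have h4 : (0 : ℝ) ≤ (n : ℝ) + 1 := by positivity
          nlinarith [mul_le_mul_of_nonneg_left h3 h4]
  · have e1 : (e + 1) * k < N := by omega
    have hpos : 0 < N ^ (k + e) := Nat.pow_pos (by omega)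
    calc (e + 1) * (k * N ^ k) * N ^ e = ((e + 1) * k) * N ^ (k + e) := by ring
      _ < N * N ^ (k + e) := Nat.mul_lt_mul_of_pos_right e1 hpos
      _ = N ^ (k + e + 1) := (pow_succ' N _).symm
      _ ≤ ⌈(N : ℝ) ^ θ⌉₊ ^ (2 * (k + e + 1)) := by
          refine pow_le hN1 hQ ?_
          push_cast
          have h4 : (0 : ℝ) ≤ (k : ℝ) + e + 1 := by positivity
          nlinarith

end TNF.HIT
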