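import Pool.Agent.Lib.TNF.HIT.Spec

/-!
# TNF.HIT, module Kr: roots over the fraction field
-/

set_option autoImplicit false

noncomputable section

namespace TNF.HIT

open Polynomial

namespace Kr_aux

/-- A ring homomorphism commutes with the homogenized sum. -/
lemma map_sum_hom {A B : Type} [CommRing A] [CommRing B] (φ : A →+* B) (F : A[X]) (G c : A) (g : B)
    (h : φ G = φ c * g) :
    φ (∑ i ∈ Finset.range (F.natDegree + 1), F.coeff i * G ^ i * c ^ (F.natDegree - i)) =
      φ c ^ F.natDegree * (F.map φ).eval g := by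
  rw [map_sum, Polynomial.eval_map, Polynomial.eval₂_eq_sum_range, Finset.mul_sum]
  refine Finset.sum_congr rfl fun i hi => ?_
  have hi' : i ≤ F.natDegree := by
    have := Finset.mem_range.mp hi
    omega
  have h2 : φ c ^ F.natDegree = φ c ^ i * φ c ^ (F.natDegree - i) := by
    rw [← pow_add, Nat.add_sub_cancel' hi']
  rw [map_mul, map_mul, map_pow, map_pow, h, h2, mul_pow]
  ring

end Kr_aux

/-- **Kr**: roots over the fraction field. -/
theorem tKr : S_Hom → S_Kr := by
  intro hHom R K _ _ _ _ _ _ F hF g hg
  obtain ⟨b, hb⟩ := IsLocalization.integerNormalization_map_to_map (nonZeroDivisors R) g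
  have hb0 : (b : R) ≠ 0 := nonZeroDivisors.ne_zero b.2
  have hinj : Function.Injective (mapRingHom (algebraMap R K)) := by
    rw [Polynomial.coe_mapRingHom]
    exact Polynomial.map_injective _ (IsFractionRing.injective R K)
  refine hHom R[X] F hF (IsLocalization.integerNormalization (nonZeroDivisors R) g) (C (b : R))
    (by simpa using hb0) ?_
  apply hinj
  rw [map_zero, Kr_aux.map_sum_hom (mapRingHom (algebraMap R K)) F _ _ g, hg, mul_zero]
  rw [coe_mapRingHom, hb, Polynomial.map_C, ← Polynomial.smul_eq_C_mul, algebraMap_smul]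

end TNF.HIT
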