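import Pool.Agent.Lib.TNF.HIT.Spec

/-!
# PROJECT TNF, package HIT: Nullstellensatz with denominators (`S_Nul`)
-/

set_option autoImplicit false

noncomputable section

namespace TNF.HIT

open Polynomial

namespace Nul_aux

variable {R K : Type} [CommRing R] [Field K] [Algebra R K]

/-- Clearing the denominators of one polynomial. -/
theorem lift_one {n : ℕ} (a : MvPolynomial (Fin n) K) (b : R)
    (h : ∀ u ∈ a.support, IsLocalization.IsInteger R (b • MvPolynomial.coeff u a)) :
    ∃ a' : MvPolynomial (Fin n) R, MvPolynomial.map (algebraMap R K) a' =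
      MvPolynomial.C (algebraMap R K b) * a := by
  classical
  have h' : ∀ u, ∃ r : R, u ∈ a.support → algebraMap R K r = b • MvPolynomial.coeff u a := by
    intro u
    by_cases hu : u ∈ a.support
    · obtain ⟨r, hr⟩ := h u hu
      exact ⟨r, fun _ => hr⟩
    · exact ⟨0, fun h2 => absurd h2 hu⟩
  choose r hr using h'
  refine ⟨∑ u ∈ a.support, MvPolynomial.monomial u (r u), ?_⟩
  rw [map_sum]
  conv_rhs => rw [a.as_sum, Finset.mul_sum]
  refine Finset.sum_congr rfl fun u hu => ?_
  rw [MvPolynomial.map_monomial, hr u hu, MvPolynomial.C_mul_monomial, Algebra.smul_def]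

end Nul_aux

open Nul_aux in
theorem tNul : S_Nul := by
  classical
  intro R K Ω _ _ _ _ _ _ _ _ _ _ n m σ P h
  have hmem : MvPolynomial.map (algebraMap R K) P ∈
      (Ideal.span (Set.range fun l => MvPolynomial.map (algebraMap R K) (σ l))).radical := by
    rw [← MvPolynomial.vanishingIdeal_zeroLocus_eq_radical (K := Ω)]
    intro x hx
    rw [MvPolynomial.aeval_map_algebraMap]
    apply h
    intro l
    have h1 := hx _ (Ideal.subset_span (Set.mem_range_self l))
    rwa [MvPolynomial.aeval_map_algebraMap] at h1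
  obtain ⟨M, hM⟩ := hmem
  obtain ⟨a, ha⟩ := Ideal.mem_span_range_iff_exists_fun.1 hM
  obtain ⟨b, hb⟩ := IsLocalization.exist_integer_multiples_of_finset (nonZeroDivisors R)
    ((Finset.univ : Finset (Fin m)).biUnion fun l =>
      (a l).support.image fun u => MvPolynomial.coeff u (a l))
  have hl : ∀ l, ∃ a' : MvPolynomial (Fin n) R, MvPolynomial.map (algebraMap R K) a' =
      MvPolynomial.C (algebraMap R K (b : R)) * a l := by
    intro l
    apply lift_one
    intro u hu
    exact hb _ (Finset.mem_biUnion.2 ⟨l, Finset.mem_univ _, Finset.mem_image_of_mem _ hu⟩)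
  choose a' ha' using hl
  refine ⟨(b : R), M, nonZeroDivisors.coe_ne_zero b, ?_⟩
  have hinj : Function.Injective (MvPolynomial.map (algebraMap R K) :
      MvPolynomial (Fin n) R → MvPolynomial (Fin n) K) :=
    MvPolynomial.map_injective _ (IsFractionRing.injective R K)
  have he : MvPolynomial.C (b : R) * P ^ M = ∑ l, a' l * σ l := by
    apply hinj
    rw [map_mul, map_pow, MvPolynomial.map_C, ← ha, map_sum, Finset.mul_sum]
    refine Finset.sum_congr rfl fun l _ => ?_
    rw [map_mul, ha', mul_assoc]
  rw [he]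
  exact Ideal.sum_mem _ fun l _ => Ideal.mul_mem_left _ _ (Ideal.subset_span ⟨l, rfl⟩)

end TNF.HIT
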