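import Pool.Agent.Lib.TNF.HIT.Spec

/-!
# TNF, package HIT, One: the uniform bound in one variable (helper42)
-/

set_option autoImplicit false

open Polynomial

noncomputable section

namespace TNF.HIT

namespace One_aux

theorem ev_eq (F : ℤ[X][X]) (t y : ℤ) : (F.eval (C y)).eval t = ev F t y := by
  unfold ev
  rw [eval_map, ← coe_evalRingHom]
  conv_rhs => rw [show y = evalRingHom t (C y) by simp]
  rw [eval₂_at_apply]

/-- `Δ(t) = V(t, y) F_Y(t, y)` at a zero of `F`. -/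
theorem dl (F U V : ℤ[X][X]) (Δ : ℤ[X]) (h : U * F + V * derivative F = Polynomial.C Δ) (t y : ℤ)
    (hF : ev F t y = 0) : Δ.eval t = ev V t y * ev (derivative F) t y := by
  have h1 := congrArg (fun P : ℤ[X][X] => (P.eval (C y)).eval t) h
  simp only [eval_add, eval_mul, eval_C] at h1
  rw [ev_eq, ev_eq, ev_eq, ev_eq, hF, mul_zero, zero_add] at h1
  exact h1.symm

theorem fin (N : ℕ) (P : ℤ → Prop) : {t : ℤ | |t| ≤ N ∧ P t}.Finite :=
  (Set.finite_Icc (-(N : ℤ)) N).subset fun _ ht => abs_le.1 ht.1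

theorem trv (N : ℕ) (P : ℤ → Prop) : {t : ℤ | |t| ≤ N ∧ P t}.ncard ≤ 2 * N + 1 := by
  refine (Set.ncard_le_ncard (t := ((Finset.Icc (-(N : ℤ)) N : Finset ℤ) : Set ℤ))
    (fun t ht => ?_) (Finset.finite_toSet _)).trans ?_
  · rw [Finset.mem_coe, Finset.mem_Icc]
    exact abs_le.1 ht.1
  · rw [Set.ncard_coe_finset, Int.card_Icc]
    omega

end One_aux

open One_aux in
theorem tOne : S_Prm → S_Bd → S_Brt → S_Prd → S_Ineq → S_One := by
  intro hPrm hBd hBrt hPrd hIneq θ hθ d e k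
  classical
  obtain ⟨n, r, N₀, hN⟩ := hIneq θ hθ d e k
  refine ⟨max (2 * N₀ + 1 : ℝ) (e + r * (d * 2 ^ r * (e + d * n)) * 2), ?_⟩
  intro N F U V Δ h1 hF hd he hc hUV hΔ hΔe hΔc
  have hN1 : (1 : ℝ) ≤ (N : ℝ) ^ θ := Real.one_le_rpow (by exact_mod_cast h1) (by linarith)
  by_cases hN0 : N ≤ N₀
  · have h2 := trv N fun t => ∃ y, ev F t y = 0
    have h3 : ({t : ℤ | |t| ≤ N ∧ ∃ y, ev F t y = 0}.ncard : ℝ) ≤ 2 * N₀ + 1 := by
      exact_mod_cast h2.trans (by omega)
    refine h3.trans ?_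
    refine (le_max_left _ (e + r * (d * 2 ^ r * (e + d * n)) * 2 : ℝ)).trans ?_
    exact le_mul_of_one_le_right (le_max_of_le_left (by positivity)) hN1
  · rw [not_le] at hN0
    obtain ⟨Q, hQ1, hQ2, hsz, hpr⟩ := hN N hN0
    obtain ⟨q, hqi, hq⟩ := hBrt r Q hQ1
    obtain ⟨hb1, hb2⟩ := hBd N (k * N ^ k) d e h1
    set Y : ℕ := 1 + d * ((e + 1) * (k * N ^ k) * N ^ e) with hY
    have hpc : ∀ t : ℤ, |t| ≤ N → ∀ y, ev F t y = 0 → Δ.eval t ≠ 0 →
        ∃ j, |y| ≤ Y ∧ ¬ (q j : ℤ) ∣ ev (derivative F) t y := by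
      intro t ht y hy hD
      obtain ⟨j, hj⟩ := hPrd r Q q (Δ.eval t) hqi (fun j => ⟨(hq j).1, (hq j).2.1⟩) hD (by
        refine lt_of_le_of_lt (hb1 Δ hΔe (fun j => ?_) t ht) ?_
        · exact_mod_cast hΔc j
        · exact_mod_cast hpr)
      refine ⟨j, ?_, fun h => hj ?_⟩
      · have := hb2 F hF.1 hd he (fun i j => by exact_mod_cast hc i j) t y ht hy
        rw [hY]
        exact_mod_cast this
      · rw [dl F U V Δ hUV t y hy]
        exact Dvd.dvd.mul_left h _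
    set T : Fin r → Finset ℤ := fun j => (fin N fun t => ∃ y : ℤ, |y| ≤ Y ∧ ev F t y = 0 ∧
      ¬ (q j : ℤ) ∣ ev (derivative F) t y).toFinset with hT
    have hTc : ∀ j ∈ (Finset.univ : Finset (Fin r)), (T j).card ≤ d * (2 ^ r * Q) * (e + d * n) := by
      intro j _
      rw [hT]
      simp only
      rw [← Set.ncard_eq_toFinset_card _ (fin N _)]
      refine (hPrm F (q j) n N Y d e (hq j).1 (hsz (q j) (hq j).2.1) hF hd he).trans ?_
      exact Nat.mul_le_mul_right _ (Nat.mul_le_mul_left _ (hq j).2.2)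
    have hsub : {t : ℤ | |t| ≤ N ∧ ∃ y, ev F t y = 0} ⊆
        ((Δ.roots.toFinset ∪ Finset.univ.biUnion T : Finset ℤ) : Set ℤ) := by
      rintro t ⟨ht, y, hy⟩
      rw [Finset.mem_coe, Finset.mem_union]
      by_cases hD : Δ.eval t = 0
      · left
        rw [Multiset.mem_toFinset, mem_roots hΔ]
        exact hD
      · right
        obtain ⟨j, hj1, hj2⟩ := hpc t ht y hy hD
        rw [Finset.mem_biUnion]
        refine ⟨j, Finset.mem_univ _, ?_⟩
        rw [hT, Set.Finite.mem_toFinset]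
        exact ⟨ht, y, hj1, hy, hj2⟩
    have h4 : {t : ℤ | |t| ≤ N ∧ ∃ y, ev F t y = 0}.ncard ≤
        e + r * (d * (2 ^ r * Q) * (e + d * n)) := by
      refine (Set.ncard_le_ncard hsub (Finset.finite_toSet _)).trans ?_
      rw [Set.ncard_coe_finset]
      refine (Finset.card_union_le _ _).trans (add_le_add ?_ ?_)
      · exact (Multiset.toFinset_card_le _).trans ((card_roots' _).trans hΔe)
      · refine (Finset.card_biUnion_le_card_mul _ _ _ hTc).trans ?_
        rw [Finset.card_univ, Fintype.card_fin]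
    have h5 : ({t : ℤ | |t| ≤ N ∧ ∃ y, ev F t y = 0}.ncard : ℝ) ≤
        e + r * (d * (2 ^ r * Q) * (e + d * n)) := by exact_mod_cast h4
    refine h5.trans (le_trans ?_ (mul_le_mul_of_nonneg_right (le_max_right _ _) (by positivity)))
    have h6 : (e : ℝ) ≤ e * (N : ℝ) ^ θ := le_mul_of_one_le_right (by positivity) hN1
    have h7 : (r : ℝ) * (d * (2 ^ r * Q) * (e + d * n)) ≤
        r * (d * 2 ^ r * (e + d * n)) * 2 * (N : ℝ) ^ θ := by
      calc (r : ℝ) * (d * (2 ^ r * Q) * (e + d * n)) = r * (d * 2 ^ r * (e + d * n)) * Q := by ring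
        _ ≤ r * (d * 2 ^ r * (e + d * n)) * (2 * (N : ℝ) ^ θ) :=
            mul_le_mul_of_nonneg_left hQ2 (by positivity)
        _ = _ := by ring
    calc (e : ℝ) + r * (d * (2 ^ r * Q) * (e + d * n)) ≤
          e * (N : ℝ) ^ θ + r * (d * 2 ^ r * (e + d * n)) * 2 * (N : ℝ) ^ θ := add_le_add h6 h7
      _ = _ := by ring

end TNF.HIT
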