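import Pool.Agent.Lib.TNF.HIT.Spec

/-! # One of the primes does not divide -/

set_option autoImplicit false

namespace TNF.HIT

theorem tPrd : S_Prd := by
  intro r Q q D hinj hq hD0 hD
  by_contra hcon
  push Not at hcon
  have h1 : ∏ j, (q j : ℤ) ∣ D := by
    refine Finset.prod_dvd_of_coprime ?_ fun j _ => hcon j
    intro i _ j _ hij
    have h2 : (q i).Coprime (q j) :=
      (Nat.coprime_primes (hq i).1 (hq j).1).2 fun h => hij (hinj h)
    exact Nat.isCoprime_iff_coprime.2 h2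
  have h3 : ∏ j, (q j : ℤ) ≤ |D| :=
    Int.le_of_dvd (abs_pos.2 hD0) ((dvd_abs _ _).2 h1)
  have h4 : (Q : ℤ) ^ r ≤ ∏ j, (q j : ℤ) := by
    have h5 : ∏ _j : Fin r, (Q : ℤ) ≤ ∏ j, (q j : ℤ) :=
      Finset.prod_le_prod (fun _ _ => Int.natCast_nonneg Q) fun j _ => by
        exact_mod_cast (hq j).2.le
    rwa [Finset.prod_const, Finset.card_univ, Fintype.card_fin] at h5
  omega

end TNF.HIT
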