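import Pool.Agent.Lib.TNF.HIT.Spec

/-!
# TNF, package HIT, Prm: one prime (helper42)
-/

set_option autoImplicit false

open Polynomial

noncomputable section

namespace TNF.HIT

namespace Prm_aux

/-- Evaluation at `a` modulo `q`. -/
def ph (q : ℕ) (a : ZMod q) : ℤ[X] →+* ZMod q := eval₂RingHom (Int.castRingHom (ZMod q)) a

theorem ph_int (q : ℕ) (t : ℤ) : ph q (t : ZMod q) = (Int.castRingHom (ZMod q)).comp
    (evalRingHom t) := by
  refine Polynomial.ringHom_ext (fun a => ?_) ?_
  · simp [ph]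
  · simp [ph]

theorem root (q : ℕ) (F : ℤ[X][X]) (t y : ℤ) (h : ev F t y = 0) :
    (F.map (ph q (t : ZMod q))).eval (y : ZMod q) = 0 := by
  have h1 : ((ev F t y : ℤ) : ZMod q) = (F.map (ph q (t : ZMod q))).eval (y : ZMod q) := by
    rw [ph_int, ← Polynomial.map_map, eval_intCast_map]
    rfl
  rw [← h1, h, Int.cast_zero]

end Prm_aux

open Prm_aux in
theorem tPrm : S_Cls → S_Prm := by
  intro hCls F q n N Y d e hq hs hF hd he
  classical
  have : Fact q.Prime := ⟨hq⟩
  set T : Set ℤ := {t : ℤ | |t| ≤ N ∧ ∃ y : ℤ, |y| ≤ Y ∧ ev F t y = 0 ∧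
    ¬ (q : ℤ) ∣ ev (derivative F) t y} with hT
  have hfin : T.Finite := by
    refine (Set.finite_Icc (-(N : ℤ)) N).subset fun t ht => ?_
    exact abs_le.1 ht.1
  have hy : ∀ t : ℤ, ∃ y : ℤ, t ∈ T → |y| ≤ Y ∧ ev F t y = 0 ∧ ¬ (q : ℤ) ∣ ev (derivative F) t y := by
    intro t
    by_cases h : t ∈ T
    · obtain ⟨_, y, hy⟩ := h
      exact ⟨y, fun _ => hy⟩
    · exact ⟨0, fun h' => absurd h' h⟩
  choose y hy using hy
  set f : ℤ → ZMod q × ZMod q := fun t => ((t : ZMod q), (y t : ZMod q)) with hf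
  rw [Set.ncard_eq_toFinset_card T hfin]
  have h1 : ∀ a ∈ hfin.toFinset.image f, (hfin.toFinset.filter fun x => f x = a).card ≤
      e + d * n := by
    intro a ha
    obtain ⟨t₀, ht₀, rfl⟩ := Finset.mem_image.1 ha
    rw [Set.Finite.mem_toFinset] at ht₀
    obtain ⟨_, _, hu⟩ := hy t₀ ht₀
    refine le_trans ?_ (hCls F q n N Y d e t₀ (y t₀) hq hu hs hF hd he)
    rw [← Set.ncard_coe_finset]
    refine Set.ncard_le_ncard (fun t ht => ?_) ?_
    · rw [Finset.mem_coe, Finset.mem_filter, Set.Finite.mem_toFinset] at ht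
      obtain ⟨h2, h3⟩ := ht
      obtain ⟨h4, h5, _⟩ := hy t h2
      rw [hf] at h3
      simp only [Prod.mk.injEq] at h3
      refine ⟨h2.1, ?_, y t, ?_, h4, h5⟩
      · rw [← ZMod.intCast_zmod_eq_zero_iff_dvd, Int.cast_sub, h3.1, sub_self]
      · rw [← ZMod.intCast_zmod_eq_zero_iff_dvd, Int.cast_sub, h3.2, sub_self]
    · refine (Set.finite_Icc (-(N : ℤ)) N).subset fun t ht => ?_
      exact abs_le.1 ht.1
  have h2 := Finset.card_le_mul_card_image hfin.toFinset _ h1
  have h3 : (hfin.toFinset.image f).card ≤ q * d := by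
    have h4 : hfin.toFinset.image f ⊆ (Finset.univ : Finset (ZMod q)).biUnion fun a =>
        (F.map (ph q a)).roots.toFinset.image (Prod.mk a) := by
      intro p hp
      obtain ⟨t, ht, rfl⟩ := Finset.mem_image.1 hp
      rw [Set.Finite.mem_toFinset] at ht
      obtain ⟨_, h5, _⟩ := hy t ht
      rw [Finset.mem_biUnion]
      refine ⟨(t : ZMod q), Finset.mem_univ _, ?_⟩
      rw [Finset.mem_image]
      refine ⟨(y t : ZMod q), ?_, rfl⟩
      rw [Multiset.mem_toFinset, mem_roots (hF.1.map _).ne_zero]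
      exact root q F t (y t) h5
    refine (Finset.card_le_card h4).trans ?_
    have h6 : ∀ a ∈ (Finset.univ : Finset (ZMod q)),
        ((F.map (ph q a)).roots.toFinset.image (Prod.mk a)).card ≤ d := by
      intro a _
      refine Finset.card_image_le.trans ((Multiset.toFinset_card_le _).trans
        ((card_roots' _).trans ?_))
      exact natDegree_map_le.trans hd
    refine (Finset.card_biUnion_le_card_mul _ _ _ h6).trans ?_
    rw [Finset.card_univ, ZMod.card]
  refine h2.trans ?_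
  calc (e + d * n) * (hfin.toFinset.image f).card ≤ (e + d * n) * (q * d) :=
        Nat.mul_le_mul_left _ h3
    _ = d * q * (e + d * n) := by ring

end TNF.HIT
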