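import Pool.Agent.Lib.TNF.HIT.Spec

/-!
# Project TNF, package HIT, module Rat: rational coefficients, not monic
-/

set_option autoImplicit false

noncomputable section

namespace TNF.HIT

open Polynomial

namespace Rat_aux

/-- Extension of the coefficients of the multivariate polynomials. -/
abbrev fi (p : ℕ) : Rp p →+* MvPolynomial (Fin p) ℚ := MvPolynomial.map (Int.castRingHom ℚ)

theorem fi_inj (p : ℕ) : Function.Injective (fi p) :=
  MvPolynomial.map_injective _ (RingHom.injective_int _)

theorem clearA (p : ℕ) (q : MvPolynomial (Fin p) ℚ) :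
    ∃ c : ℤ, c ≠ 0 ∧ ∃ r : Rp p, fi p r = MvPolynomial.C (c : ℚ) * q := by
  induction q using MvPolynomial.induction_on with
  | C a =>
    refine ⟨a.den, by exact_mod_cast a.den_nz, MvPolynomial.C a.num, ?_⟩
    rw [MvPolynomial.map_C, ← MvPolynomial.C_mul]
    congr 1
    have h := a.mul_den_eq_num
    rw [eq_intCast, ← h]
    push_cast
    ring
  | add f g hf hg =>
    obtain ⟨c, hc, r, hr⟩ := hf
    obtain ⟨c', hc', r', hr'⟩ := hg
    refine ⟨c * c', mul_ne_zero hc hc', MvPolynomial.C c' * r + MvPolynomial.C c * r', ?_⟩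
    rw [map_add, map_mul, map_mul, hr, hr', MvPolynomial.map_C, MvPolynomial.map_C, Int.cast_mul, MvPolynomial.C_mul]
    simp only [eq_intCast]
    ring
  | mul_X f i hf =>
    obtain ⟨c, hc, r, hr⟩ := hf
    refine ⟨c, hc, r * MvPolynomial.X i, ?_⟩
    rw [map_mul, hr, MvPolynomial.map_X, mul_assoc]

theorem clearB (p : ℕ) (P : (MvPolynomial (Fin p) ℚ)[X]) :
    ∃ c : ℤ, c ≠ 0 ∧ ∃ R : (Rp p)[X], R.map (fi p) = C (MvPolynomial.C (c : ℚ)) * P := by
  induction P using Polynomial.induction_on' with
  | add f g hf hg =>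
    obtain ⟨c, hc, r, hr⟩ := hf
    obtain ⟨c', hc', r', hr'⟩ := hg
    refine ⟨c * c', mul_ne_zero hc hc', C (MvPolynomial.C c') * r + C (MvPolynomial.C c) * r', ?_⟩
    rw [Polynomial.map_add, Polynomial.map_mul, Polynomial.map_mul, hr, hr', Polynomial.map_C, Polynomial.map_C,
      MvPolynomial.map_C, MvPolynomial.map_C, Int.cast_mul, MvPolynomial.C_mul, Polynomial.C_mul]
    simp only [eq_intCast]
    ring
  | monomial n a =>
    obtain ⟨c, hc, r, hr⟩ := clearA p a
    refine ⟨c, hc, monomial n r, ?_⟩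
    rw [Polynomial.map_monomial, hr, Polynomial.C_mul_monomial]

theorem comp_norm {R : Type} [CommRing R] (P : R[X]) (hP : 1 ≤ P.natDegree) :
    P.integralNormalization.comp (C P.leadingCoeff * X) = C (P.leadingCoeff ^ (P.natDegree - 1)) * P := by
  ext i
  rw [comp_C_mul_X_coeff, coeff_C_mul, integralNormalization_coeff_mul_leadingCoeff_pow i hP, mul_comm]

theorem irr_comp {K : Type} [Field K] (a : K) (ha : a ≠ 0) (f : K[X]) (hf : Irreducible f) :
    Irreducible (f.comp (C a * X)) := by
  have h1 : (C a * X : K[X]).comp (C a⁻¹ * X) = X := by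
    rw [mul_comp, C_comp, X_comp, ← mul_assoc, ← C_mul, mul_inv_cancel₀ ha, C_1, one_mul]
  have h2 : (C a⁻¹ * X : K[X]).comp (C a * X) = X := by
    rw [mul_comp, C_comp, X_comp, ← mul_assoc, ← C_mul, inv_mul_cancel₀ ha, C_1, one_mul]
  have h3 : (algEquivOfCompEqX (C a * X) (C a⁻¹ * X) h1 h2) f = f.comp (C a * X) := by
    rw [comp_eq_aeval]
    rfl
  rw [← h3]
  exact (MulEquiv.irreducible_iff (algEquivOfCompEqX (C a * X) (C a⁻¹ * X) h1 h2)).2 hf

theorem natDegree_comp_lin {K : Type} [Field K] (a : K) (ha : a ≠ 0) (f : K[X]) :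
    (f.comp (C a * X)).natDegree = f.natDegree := by
  rw [natDegree_comp, natDegree_C_mul ha, natDegree_X, mul_one]

end Rat_aux

open Rat_aux in
theorem tRat : S_Rat := by
  intro p P hP hdeg
  obtain ⟨c, hc, P₂, hP₂⟩ := clearB p P
  have hcQ : (c : ℚ) ≠ 0 := by exact_mod_cast hc
  have hcM : (MvPolynomial.C (c : ℚ) : MvPolynomial (Fin p) ℚ) ≠ 0 := by
    rw [Ne, MvPolynomial.C_eq_zero]
    exact hcQ
  have hD : P₂.natDegree = P.natDegree := by
    rw [← natDegree_map_eq_of_injective (fi_inj p) P₂, hP₂, natDegree_C_mul hcM]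
  have hD1 : 1 ≤ P₂.natDegree := by omega
  have hP₂0 : P₂ ≠ 0 := by
    intro h
    rw [h, natDegree_zero] at hD1
    omega
  have hl : P₂.leadingCoeff ≠ 0 := leadingCoeff_ne_zero.2 hP₂0
  have hmon : P₂.integralNormalization.Monic := monic_integralNormalization hP₂0
  have hnd : P₂.integralNormalization.natDegree = P₂.natDegree := natDegree_integralNormalization
  -- the field of fractions
  let K := FractionRing (MvPolynomial (Fin p) ℚ)
  let j : Rp p →+* K := (algebraMap (MvPolynomial (Fin p) ℚ) K).comp (fi p)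
  have hj : Function.Injective j := (IsFractionRing.injective (MvPolynomial (Fin p) ℚ) K).comp (fi_inj p)
  have hjl : j P₂.leadingCoeff ≠ 0 := fun h => hl (hj (h.trans (map_zero j).symm))
  -- the image of P₂ is irreducible over K
  have hjP : P₂.map j = C (algebraMap (MvPolynomial (Fin p) ℚ) K (MvPolynomial.C (c : ℚ))) *
      P.map (algebraMap (MvPolynomial (Fin p) ℚ) K) := by
    show P₂.map ((algebraMap (MvPolynomial (Fin p) ℚ) K).comp (fi p)) = _
    rw [← Polynomial.map_map, hP₂, Polynomial.map_mul, Polynomial.map_C]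
  have hcK : algebraMap (MvPolynomial (Fin p) ℚ) K (MvPolynomial.C (c : ℚ)) ≠ 0 := by
    intro h
    exact hcM (IsFractionRing.injective (MvPolynomial (Fin p) ℚ) K (h.trans (map_zero _).symm))
  have hirr₂ : Irreducible (P₂.map j) := by
    rw [hjP]
    exact (irreducible_isUnit_mul (isUnit_C.2 (isUnit_iff_ne_zero.2 hcK))).2 hP
  have hcomp : (P₂.integralNormalization.map j).comp (C (j P₂.leadingCoeff) * X) =
      C (j P₂.leadingCoeff ^ (P₂.natDegree - 1)) * P₂.map j := by
    have h := congrArg (Polynomial.map j) (comp_norm P₂ hD1)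
    rw [Polynomial.map_comp, Polynomial.map_mul, Polynomial.map_mul, Polynomial.map_C, Polynomial.map_C,
      Polynomial.map_X, map_pow] at h
    exact h
  refine ⟨P₂.integralNormalization, P₂.leadingCoeff, hl, hmon, ?_, ?_⟩
  · rw [hmon.irreducible_iff_natDegree']
    refine ⟨?_, ?_⟩
    · intro h
      rw [h, natDegree_one] at hnd
      omega
    · intro f g hf hg hfg hmem
      rw [Finset.mem_Ioc, hnd] at hmem
      have h1 : (f.map j).comp (C (j P₂.leadingCoeff) * X) * (g.map j).comp (C (j P₂.leadingCoeff) * X) =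
          C (j P₂.leadingCoeff ^ (P₂.natDegree - 1)) * P₂.map j := by
        rw [← mul_comp, ← Polynomial.map_mul, hfg, hcomp]
      have h2 : Irreducible (C (j P₂.leadingCoeff ^ (P₂.natDegree - 1)) * P₂.map j) :=
        (irreducible_isUnit_mul (isUnit_C.2 (isUnit_iff_ne_zero.2 (pow_ne_zero _ hjl)))).2 hirr₂
      have hfn : f.natDegree + g.natDegree = P₂.natDegree := by
        rw [← hf.natDegree_mul hg, hfg, hnd]
      rcases h2.isUnit_or_isUnit h1.symm with h | h
      · have h3 := natDegree_eq_zero_of_isUnit h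
        rw [natDegree_comp_lin _ hjl, natDegree_map_eq_of_injective hj] at h3
        omega
      · have h3 := natDegree_eq_zero_of_isUnit h
        rw [natDegree_comp_lin _ hjl, natDegree_map_eq_of_injective hj] at h3
        omega
  · intro s hs hirr
    let ψ : Rp p →+* ℚ := (Int.castRingHom ℚ).comp (MvPolynomial.eval s)
    have hψ : ψ = (MvPolynomial.eval fun i => (s i : ℚ)).comp (fi p) := by
      apply MvPolynomial.ringHom_ext
      · intro r
        simp [ψ, fi]
      · intro i
        simp [ψ, fi]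
    have hψl : ψ P₂.leadingCoeff ≠ 0 := by
      show ((MvPolynomial.eval s P₂.leadingCoeff : ℤ) : ℚ) ≠ 0
      exact_mod_cast hs
    have hirrQ : Irreducible (P₂.integralNormalization.map ψ) := by
      have h1 : P₂.integralNormalization.map ψ =
          (P₂.integralNormalization.map (MvPolynomial.eval s)).map (algebraMap ℤ ℚ) := by
        rw [Polynomial.map_map]
        rfl
      rw [h1]
      exact ((hmon.map _).irreducible_iff_irreducible_map_fraction_map (K := ℚ)).1 hirr
    have hcompQ : (P₂.integralNormalization.map ψ).comp (C (ψ P₂.leadingCoeff) * X) =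
        C (ψ P₂.leadingCoeff ^ (P₂.natDegree - 1)) * P₂.map ψ := by
      have h := congrArg (Polynomial.map ψ) (comp_norm P₂ hD1)
      rw [Polynomial.map_comp, Polynomial.map_mul, Polynomial.map_mul, Polynomial.map_C, Polynomial.map_C,
        Polynomial.map_X, map_pow] at h
      exact h
    have hPψ : P₂.map ψ = C (c : ℚ) * P.map (MvPolynomial.eval fun i => (s i : ℚ)) := by
      rw [hψ, ← Polynomial.map_map, hP₂, Polynomial.map_mul, Polynomial.map_C, MvPolynomial.eval_C]
    have h3 := irr_comp _ hψl _ hirrQ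
    rw [hcompQ, irreducible_isUnit_mul (isUnit_C.2 (isUnit_iff_ne_zero.2 (pow_ne_zero _ hψl))), hPψ,
      irreducible_isUnit_mul (isUnit_C.2 (isUnit_iff_ne_zero.2 hcQ))] at h3
    exact h3

end TNF.HIT
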