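import Pool.Agent.Lib.TNF.HIT.Spec

/-!
# TNF, package HIT, Rel: the relation on a class (helper42)
-/

set_option autoImplicit false

open Polynomial

noncomputable section

namespace TNF.HIT

namespace Rel_aux

/-- Congruence of values. -/
theorem ev_eq (F : ℤ[X][X]) (t y : ℤ) : (F.eval (C y)).eval t = ev F t y := by
  unfold ev
  rw [eval_map, ← coe_evalRingHom]
  conv_rhs => rw [show y = evalRingHom t (C y) by simp]
  rw [eval₂_at_apply]

theorem ev_congr (F : ℤ[X][X]) {q t t' y y' : ℤ} (ht : q ∣ t - t') (hy : q ∣ y - y') :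
    q ∣ ev F t y - ev F t' y' := by
  have h1 : q ∣ ev F t y - ev F t y' := by
    unfold ev
    exact dvd_trans hy (sub_dvd_eval_sub _ _ _)
  have h2 : q ∣ ev F t y' - ev F t' y' := by
    rw [← ev_eq, ← ev_eq]
    exact dvd_trans ht (sub_dvd_eval_sub _ _ _)
  have := dvd_add h1 h2
  rwa [sub_add_sub_cancel] at this

/-- Determinants of congruent matrices. -/
theorem det_congr {ι : Type} [Fintype ι] [DecidableEq ι] (A B : Matrix ι ι ℤ) (Q : ℤ)
    (h : ∀ i j, Q ∣ A i j - B i j) : Q ∣ A.det - B.det := by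
  have h1 : (Ideal.Quotient.mk (Ideal.span {Q})).mapMatrix A =
      (Ideal.Quotient.mk (Ideal.span {Q})).mapMatrix B := by
    ext i j
    rw [RingHom.mapMatrix_apply, RingHom.mapMatrix_apply, Matrix.map_apply, Matrix.map_apply,
      Ideal.Quotient.eq, Ideal.mem_span_singleton]
    exact h i j
  have h2 : Ideal.Quotient.mk (Ideal.span {Q}) A.det = Ideal.Quotient.mk (Ideal.span {Q}) B.det := by
    rw [RingHom.map_det, RingHom.map_det, h1]
  rwa [Ideal.Quotient.eq, Ideal.mem_span_singleton] at h2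

/-- The monomials `t ^ a`, `y t ^ a`, `a ≤ n`. -/
def mon (n : ℕ) (p : ℤ × ℤ) : Fin (n + 1) ⊕ Fin (n + 1) → ℤ :=
  Sum.elim (fun a => p.1 ^ (a : ℕ)) fun a => p.2 * p.1 ^ (a : ℕ)

end Rel_aux

open Rel_aux in
theorem tRel : S_Det → S_Dsz → S_Hen → S_Rk → S_Rel := by
  intro hDet hDsz hHen hRk F q n N Y t₀ y₀ hq hu hs
  classical
  set V : Set (ℤ × ℤ) := {p | (q : ℤ) ∣ p.1 - t₀ ∧ (q : ℤ) ∣ p.2 - y₀ ∧ |p.1| ≤ N ∧ |p.2| ≤ Y ∧
    ev F p.1 p.2 = 0} with hV
  by_cases hne : V.Nonempty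
  swap
  · refine ⟨1, 0, Or.inl one_ne_zero, by simp, by simp, fun t y h1 h2 h3 h4 h5 => ?_⟩
    exact absurd ⟨(t, y), h1, h2, h3, h4, h5⟩ hne
  have h0 : (q : ℤ) ∣ ev F t₀ y₀ := by
    obtain ⟨p, h1, h2, _, _, h5⟩ := hne
    have h3 := ev_congr F h1 h2
    rw [h5, zero_sub, dvd_neg] at h3
    exact h3
  obtain ⟨φ, hφ⟩ := hHen F q t₀ y₀ hq h0 hu ((n + 1) * (2 * n + 1))
  have hE : Fintype.card (Fin (n + 1) ⊕ Fin (n + 1)) *
      (Fintype.card (Fin (n + 1) ⊕ Fin (n + 1)) - 1) / 2 = (n + 1) * (2 * n + 1) := by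
    rw [Fintype.card_sum, Fintype.card_fin]
    have : ((n + 1) + (n + 1)) * ((n + 1) + (n + 1) - 1) = 2 * ((n + 1) * (2 * n + 1)) := by
      rw [show (n + 1) + (n + 1) - 1 = 2 * n + 1 by omega]; ring
    rw [this, Nat.mul_div_cancel_left _ (by norm_num)]
  have hprod : ∏ j : Fin (n + 1) ⊕ Fin (n + 1), (Sum.elim (fun a : Fin (n + 1) => (N : ℤ) ^ (a : ℕ))
      (fun a : Fin (n + 1) => (Y : ℤ) * (N : ℤ) ^ (a : ℕ)) j : ℤ) =
      (N : ℤ) ^ (n * (n + 1)) * (Y : ℤ) ^ (n + 1) := by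
    rw [Fintype.prod_sum_type]
    simp only [Sum.elim_inl, Sum.elim_inr]
    rw [Finset.prod_mul_distrib, Finset.prod_const, Finset.card_univ, Fintype.card_fin,
      Finset.prod_pow_eq_pow_sum]
    have h10 : (∑ a : Fin (n + 1), (a : ℕ)) * 2 = n * (n + 1) := by
      have := Finset.sum_range_id_mul_two (n + 1)
      rw [Finset.sum_range] at this
      rw [this]; simp [mul_comm]
    rw [← h10, pow_mul]; ring
  obtain ⟨g, hg0, hg⟩ := hRk (Fin (n + 1) ⊕ Fin (n + 1)) (mon n '' V) (by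
    intro v hv
    choose P hP hvP using hv
    have h1 : (Matrix.of v) = Matrix.of fun i j => mon n (P i) j := by
      ext i j; rw [Matrix.of_apply, Matrix.of_apply, hvP]
    rw [h1]
    have h2 := hDet (Fin (n + 1) ⊕ Fin (n + 1)) q (fun i => (P i).1 - t₀)
      (Sum.elim (fun a => (C t₀ + X) ^ (a : ℕ)) fun a => φ * (C t₀ + X) ^ (a : ℕ))
      fun i => (hP i).1
    rw [hE] at h2
    have h3 : (q : ℤ) ^ ((n + 1) * (2 * n + 1)) ∣ (Matrix.of fun i j => mon n (P i) j).det -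
        (Matrix.of fun i j => ((Sum.elim (fun a => (C t₀ + X) ^ (a : ℕ))
          fun a => φ * (C t₀ + X) ^ (a : ℕ) : Fin (n + 1) ⊕ Fin (n + 1) → ℤ[X]) j).eval
            ((P i).1 - t₀)).det := by
      refine det_congr _ _ _ fun i j => ?_
      rw [Matrix.of_apply, Matrix.of_apply]
      obtain ⟨ht, hy, _, _, hF⟩ := hP i
      have h6 := hφ ((P i).1 - t₀) (P i).2 ht hy (by rw [add_sub_cancel]; exact hF)
      cases j with
      | inl a => simp [mon]
      | inr a =>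
        simp only [mon, Sum.elim_inr, eval_mul, eval_pow, eval_add, eval_X, eval_C, add_sub_cancel]
        rw [← sub_mul]
        exact Dvd.dvd.mul_right h6 _
    have h4 : (q : ℤ) ^ ((n + 1) * (2 * n + 1)) ∣ (Matrix.of fun i j => mon n (P i) j).det := by
      have := dvd_add h3 h2
      rwa [sub_add_cancel] at this
    have h5 := hDsz (Fin (n + 1) ⊕ Fin (n + 1)) (Matrix.of fun i j => mon n (P i) j)
      (Sum.elim (fun a : Fin (n + 1) => (N : ℤ) ^ (a : ℕ))
        (fun a : Fin (n + 1) => (Y : ℤ) * (N : ℤ) ^ (a : ℕ))) (by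
      intro i j
      rw [Matrix.of_apply]
      obtain ⟨_, _, h9, h10, _⟩ := hP i
      cases j with
      | inl a =>
        simp only [mon, Sum.elim_inl, abs_pow]
        exact pow_le_pow_left₀ (abs_nonneg _) h9 _
      | inr a =>
        simp only [mon, Sum.elim_inr, abs_mul, abs_pow]
        exact mul_le_mul h10 (pow_le_pow_left₀ (abs_nonneg _) h9 _) (by positivity)
          (by positivity))
    rw [hprod, Fintype.card_sum, Fintype.card_fin] at h5
    refine Int.eq_zero_of_abs_lt_dvd h4 (h5.trans_lt ?_)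
    rw [show (n + 1) + (n + 1) = 2 * n + 2 by ring, ← mul_assoc]
    exact_mod_cast hs)
  set g₀ : ℤ[X] := ∑ a : Fin (n + 1), C (g (Sum.inl a)) * X ^ (a : ℕ) with hg0'
  set g₁ : ℤ[X] := ∑ a : Fin (n + 1), C (g (Sum.inr a)) * X ^ (a : ℕ) with hg1'
  have hcf : ∀ (c : Fin (n + 1) → ℤ) (a : Fin (n + 1)),
      (∑ a : Fin (n + 1), C (c a) * X ^ (a : ℕ) : ℤ[X]).coeff a = c a := by
    intro c a
    rw [finsetSum_coeff, Finset.sum_eq_single a]
    · simp
    · intro b _ hb
      rw [coeff_C_mul, coeff_X_pow, if_neg (fun h => hb (Fin.ext h.symm)), mul_zero]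
    · simp
  refine ⟨g₀, g₁, ?_, ?_, ?_, fun t y h1 h2 h3 h4 h5 => ?_⟩
  · by_contra hcon
    rw [not_or, not_not, not_not] at hcon
    apply hg0
    funext j
    cases j with
    | inl a =>
      have := hcf (fun a => g (Sum.inl a)) a
      rw [← this, ← hg0', hcon.1]; simp
    | inr a =>
      have := hcf (fun a => g (Sum.inr a)) a
      rw [← this, ← hg1', hcon.2]; simp
  · refine natDegree_sum_le_of_forall_le _ _ fun a _ => (natDegree_C_mul_X_pow_le _ _).trans ?_
    omega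
  · refine natDegree_sum_le_of_forall_le _ _ fun a _ => (natDegree_C_mul_X_pow_le _ _).trans ?_
    omega
  · have h6 := hg (mon n (t, y)) ⟨(t, y), ⟨h1, h2, h3, h4, h5⟩, rfl⟩
    rw [Fintype.sum_sum_type] at h6
    simp only [mon, Sum.elim_inl, Sum.elim_inr] at h6
    rw [hg0', hg1', eval_finsetSum, eval_finsetSum, Finset.sum_mul]
    simp only [eval_mul, eval_C, eval_pow, eval_X]
    rw [← h6]
    congr 1
    refine Finset.sum_congr rfl fun a _ => ?_
    ring

end TNF.HIT
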