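import Pool.Agent.Lib.TNF.HIT.Spec

set_option autoImplicit false

noncomputable section

namespace TNF.HIT

open Polynomial

namespace Res_aux

/-- a split monic polynomial as an indexed product -/
lemma exists_roots {L : Type} [Field L] [IsAlgClosed L] (P : L[X]) (hP : P.Monic) :
    ∃ α : Fin P.natDegree → L, P = ∏ i, (X - C (α i)) := by
  have hs : P.Splits := IsAlgClosed.splits P
  have h1 : P = (P.roots.map fun a => X - C a).prod := by
    have := hs.eq_prod_roots
    rw [hP.leadingCoeff] at this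
    simpa using this
  have h2 : P.roots.card = P.natDegree := hs.natDegree_eq_card_roots.symm
  obtain ⟨l, hl⟩ := Quot.exists_rep P.roots
  have hl' : (l : Multiset L) = P.roots := hl
  have hlen : l.length = P.natDegree := by
    rw [← h2, ← hl', Multiset.coe_card]
  refine ⟨fun i => l.get (Fin.cast hlen.symm i), ?_⟩
  have h3 : P = (l.map fun a => X - C a).prod := by
    conv_lhs => rw [h1]
    rw [← hl', Multiset.map_coe, Multiset.prod_coe]
  have h4 : (∏ i : Fin P.natDegree, (X - C (l.get (Fin.cast hlen.symm i)))) = ∏ j : Fin l.length, (X - C (l.get j)) := by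
    exact Fintype.prod_equiv (finCongr hlen.symm) _ _ (fun i => rfl)
  rw [h4]
  conv_lhs => rw [h3]
  rw [← List.prod_ofFn]
  congr 1
  apply List.ext_get
  · simp
  · intro n h1 h2
    simp

lemma natDegree_part {L : Type} [CommRing L] [Nontrivial L] {d : ℕ} (β : Fin d → L) (A : Finset (Fin d)) :
    (∏ i ∈ A, (X - C (β i))).natDegree = A.card := by
  rw [natDegree_prod_of_monic _ _ (fun _ _ => monic_X_sub_C _)]
  simp

lemma monic_part {L : Type} [CommRing L] {d : ℕ} (β : Fin d → L) (A : Finset (Fin d)) :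
    (∏ i ∈ A, (X - C (β i))).Monic := monic_prod_of_monic _ _ (fun _ _ => monic_X_sub_C _)

lemma map_part {L M : Type} [CommRing L] [CommRing M] {d : ℕ} (β : Fin d → L) (A : Finset (Fin d)) (f : L →+* M) :
    (∏ i ∈ A, (X - C (β i))).map f = ∏ i ∈ A, (X - C (f (β i))) := by
  rw [Polynomial.map_prod]
  simp

/-- some coefficient of a proper sub-product is not in the base field -/
lemma not_all {K L : Type} [Field K] [Field L] [Algebra K L] (F : K[X]) (hF : Irreducible F) (d : ℕ)
    (α : Fin d → L) (hα : F.map (algebraMap K L) = ∏ i, (X - C (α i))) (A : Finset (Fin d)) (h0 : 0 < A.card) (h1 : A.card < d) :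
    ∃ k, ∀ c : K, algebraMap K L c ≠ (∏ i ∈ A, (X - C (α i))).coeff k := by
  by_contra hcon
  push Not at hcon
  have hl : (∏ i ∈ A, (X - C (α i))) ∈ lifts (algebraMap K L) := by
    rw [lifts_iff_coeff_lifts]
    intro n
    obtain ⟨c, hc⟩ := hcon n
    exact ⟨c, hc⟩
  rw [mem_lifts] at hl
  obtain ⟨g, hg⟩ := hl
  have hdF : F.natDegree = d := by
    have := congrArg natDegree hα
    rw [natDegree_map] at this
    rw [this, natDegree_part]
    simp
  have hdg : g.natDegree = A.card := by
    have := congrArg natDegree hg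
    rw [natDegree_map] at this
    rw [this, natDegree_part]
  have hdvd : g ∣ F := by
    rw [← Polynomial.map_dvd_map' (algebraMap K L), hg, hα]
    exact Finset.prod_dvd_prod_of_subset _ _ _ (Finset.subset_univ A)
  obtain ⟨h, hh⟩ := hdvd
  rcases hF.isUnit_or_isUnit hh with hu | hu
  · have := natDegree_eq_zero_of_isUnit hu
    omega
  · have h2 := natDegree_eq_zero_of_isUnit hu
    have hne : F ≠ 0 := hF.ne_zero
    have hg0 : g ≠ 0 := by
      rintro rfl
      simp at hh
      exact hne hh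
    have hh0 : h ≠ 0 := by
      rintro rfl
      simp at hh
      exact hne hh
    have h3 : F.natDegree = g.natDegree + h.natDegree := by
      rw [hh, natDegree_mul hg0 hh0]
    omega

end Res_aux

open Res_aux in
theorem tRes : S_Alg → S_Ext → S_Sub → S_Res := by
  intro hAlg hExt hSub p F hFm hFi
  have hKirr : Irreducible (F.map (algebraMap (Rp p) (FractionRing (Rp p)))) :=
    (hFm.irreducible_iff_irreducible_map_fraction_map).1 hFi
  have hmL : (F.map (algebraMap (Rp p) (AlgebraicClosure (FractionRing (Rp p))))).Monic := hFm.map _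
  obtain ⟨α, hα⟩ := exists_roots _ hmL
  have hd : (F.map (algebraMap (Rp p) (AlgebraicClosure (FractionRing (Rp p))))).natDegree = F.natDegree := hFm.natDegree_map _
  generalize hdd : (F.map (algebraMap (Rp p) (AlgebraicClosure (FractionRing (Rp p))))).natDegree = d at α hα
  have hdF : F.natDegree = d := by rw [← hd, hdd]
  have hint : ∀ i, IsIntegral (Rp p) (α i) := by
    intro i
    refine ⟨F, hFm, ?_⟩
    rw [← eval_map, hα, eval_prod]
    exact Finset.prod_eq_zero (Finset.mem_univ i) (by simp)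
  have hαK : (F.map (algebraMap (Rp p) (FractionRing (Rp p)))).map (algebraMap (FractionRing (Rp p)) (AlgebraicClosure (FractionRing (Rp p))))
      = ∏ i, (X - C (α i)) := by
    rw [Polynomial.map_map, ← IsScalarTower.algebraMap_eq, hα]
  have key : ∀ A : {A : Finset (Fin d) // 0 < A.card ∧ A.card < d}, ∃ (k : ℕ) (c : Rp p) (G : (Rp p)[X]), c ≠ 0 ∧ NR G ∧
      aeval (algebraMap (Rp p) (AlgebraicClosure (FractionRing (Rp p))) c * (∏ i ∈ A.1, (X - C (α i))).coeff k) G = 0 := by
    intro A
    obtain ⟨k, hk⟩ := not_all _ hKirr d α hαK A.1 A.2.1 A.2.2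
    obtain ⟨c, G, hc, hG, hz⟩ := hAlg (Rp p) (FractionRing (Rp p)) (AlgebraicClosure (FractionRing (Rp p)))
      ((∏ i ∈ A.1, (X - C (α i))).coeff k) (Algebra.IsAlgebraic.isAlgebraic _) hk
    exact ⟨k, c, G, hc, hG, hz⟩
  choose kA cA GA hcA hGA hzA using key
  let e := Fintype.equivFin {A : Finset (Fin d) // 0 < A.card ∧ A.card < d}
  refine ⟨Fintype.card {A : Finset (Fin d) // 0 < A.card ∧ A.card < d}, fun i => GA (e.symm i), fun i => hGA _, ?_⟩
  intro s hs
  have hsm : (F.map (MvPolynomial.eval s)).Monic := hFm.map _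
  have hsd : (F.map (MvPolynomial.eval s)).natDegree = d := by rw [hFm.natDegree_map, hdF]
  have hd0 : 0 < d := by
    rcases Nat.eq_zero_or_pos d with h | h
    · exfalso
      have h1 : F = 1 := eq_one_of_monic_natDegree_zero hFm (by rw [hdF, h])
      exact hFi.not_isUnit (h1 ▸ isUnit_one)
    · exact h
  rw [hsm.irreducible_iff_natDegree'] at hs
  have hne1 : F.map (MvPolynomial.eval s) ≠ 1 := by
    intro h
    rw [h] at hsd
    simp at hsd
    omega
  have hs2 : ∃ f g : ℤ[X], f.Monic ∧ g.Monic ∧ f * g = F.map (MvPolynomial.eval s) ∧ g.natDegree ∈ Finset.Ioc 0 (d / 2) := by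
    by_contra hcon
    push Not at hcon
    apply hs
    refine ⟨hne1, ?_⟩
    intro f g hf hg hfg
    rw [hsd]
    exact hcon f g hf hg hfg
  obtain ⟨f, g, hf, hg, hfg, hgd⟩ := hs2
  -- the integral closure
  let B := integralClosure (Rp p) (AlgebraicClosure (FractionRing (Rp p)))
  have hinjL : Function.Injective (algebraMap (Rp p) (AlgebraicClosure (FractionRing (Rp p)))) := by
    rw [IsScalarTower.algebraMap_eq (Rp p) (FractionRing (Rp p)) (AlgebraicClosure (FractionRing (Rp p)))]
    exact (algebraMap (FractionRing (Rp p)) (AlgebraicClosure (FractionRing (Rp p)))).injective.comp (IsFractionRing.injective _ _)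
  have hinjB : Function.Injective (algebraMap (Rp p) B) := by
    intro x y hxy
    apply hinjL
    have := congrArg (algebraMap B (AlgebraicClosure (FractionRing (Rp p)))) hxy
    rwa [← IsScalarTower.algebraMap_apply, ← IsScalarTower.algebraMap_apply] at this
  have hBL : Function.Injective (algebraMap B (AlgebraicClosure (FractionRing (Rp p)))) := Subtype.coe_injective
  obtain ⟨ψ, hψ⟩ := hExt (Rp p) B ℂ hinjB inferInstance ((Int.castRingHom ℂ).comp (MvPolynomial.eval s))
  let β : Fin d → B := fun i => ⟨α i, hint i⟩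
  have hβ : F.map (algebraMap (Rp p) B) = ∏ i, (X - C (β i)) := by
    apply Polynomial.map_injective _ hBL
    rw [Polynomial.map_map, ← IsScalarTower.algebraMap_eq, hα, map_part]
    rfl
  have hψc : ψ.comp (algebraMap (Rp p) B) = (Int.castRingHom ℂ).comp (MvPolynomial.eval s) := RingHom.ext hψ
  have hprod : ∏ i, (X - C (ψ (β i))) = g.map (Int.castRingHom ℂ) * f.map (Int.castRingHom ℂ) := by
    rw [← map_part, ← hβ, Polynomial.map_map, hψc, ← Polynomial.map_map, ← hfg, Polynomial.map_mul, mul_comm]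
  obtain ⟨A, hA⟩ := hSub ℂ d (fun i => ψ (β i)) _ _ (hg.map _) hprod
  rw [Finset.mem_Ioc] at hgd
  have hAc : A.card = g.natDegree := by
    have h1 := congrArg natDegree hA
    rw [natDegree_part, hg.natDegree_map] at h1
    exact h1.symm
  have hA0 : 0 < A.card ∧ A.card < d := by
    rw [hAc]
    refine ⟨hgd.1, ?_⟩
    have := hgd.2
    omega
  refine ⟨e ⟨A, hA0⟩, ?_⟩
  simp only [Equiv.symm_apply_apply]
  refine ⟨MvPolynomial.eval s (cA ⟨A, hA0⟩) * g.coeff (kA ⟨A, hA0⟩), ?_⟩
  have hcoefL : (∏ i ∈ A, (X - C (α i))).coeff (kA ⟨A, hA0⟩)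
      = algebraMap B (AlgebraicClosure (FractionRing (Rp p))) ((∏ i ∈ A, (X - C (β i))).coeff (kA ⟨A, hA0⟩)) := by
    rw [← coeff_map, map_part]
    rfl
  have hzB : aeval (algebraMap (Rp p) B (cA ⟨A, hA0⟩) * (∏ i ∈ A, (X - C (β i))).coeff (kA ⟨A, hA0⟩)) (GA ⟨A, hA0⟩) = 0 := by
    apply hBL
    rw [map_zero]
    have h1 := hzA ⟨A, hA0⟩
    simp only at h1
    rw [hcoefL] at h1
    rw [← aeval_algebraMap_apply, map_mul, ← IsScalarTower.algebraMap_apply]
    exact h1
  have hψk : ψ ((∏ i ∈ A, (X - C (β i))).coeff (kA ⟨A, hA0⟩)) = ((g.coeff (kA ⟨A, hA0⟩) : ℤ) : ℂ) := by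
    rw [← coeff_map, map_part]
    have h1 : (∏ i ∈ A, (X - C (ψ (β i)))) = g.map (Int.castRingHom ℂ) := hA.symm
    rw [h1, coeff_map]
    rfl
  have h2 := congrArg ψ hzB
  rw [map_zero, aeval_def, hom_eval₂, hψc, map_mul, hψ, hψk] at h2
  have h3 : ((Int.castRingHom ℂ).comp (MvPolynomial.eval s)) (cA ⟨A, hA0⟩) * ((g.coeff (kA ⟨A, hA0⟩) : ℤ) : ℂ)
      = (Int.castRingHom ℂ) (MvPolynomial.eval s (cA ⟨A, hA0⟩) * g.coeff (kA ⟨A, hA0⟩)) := by
    simp
  rw [h3, ← hom_eval₂] at h2
  rw [eval_map]
  exact (Int.castRingHom ℂ).injective_int (by rw [h2, map_zero])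

end TNF.HIT
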