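import Pool.Agent.Lib.TNF.HIT.Spec

set_option autoImplicit false

namespace TNF.HIT

namespace Rk_aux

/-- The cast of an integral vector. -/
def cs {ι : Type} (v : ι → ℤ) : ι → ℚ := fun j => (v j : ℚ)

/-- If the images span, some family of vectors of `V` has a nonzero determinant. -/
lemma of_top (ι : Type) [Fintype ι] [DecidableEq ι] (V : Set (ι → ℤ))
    (hW : Submodule.span ℚ (cs '' V) = ⊤) :
    ∃ v : ι → (ι → ℤ), (∀ i, v i ∈ V) ∧ (Matrix.of v).det ≠ 0 := by
  obtain ⟨b, hb, hsp, hli⟩ := exists_linearIndependent ℚ (cs '' V)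
  rw [hW] at hsp
  let B : Module.Basis b ℚ (ι → ℚ) := Module.Basis.mk hli (by rw [Subtype.range_coe, hsp])
  let e : ι ≃ b := (Pi.basisFun ℚ ι).indexEquiv B
  have hx : ∀ i : ι, ∃ w ∈ V, cs w = (e i : ι → ℚ) := fun i => hb (e i).2
  choose v hv hcs using hx
  refine ⟨v, hv, ?_⟩
  have hli' : LinearIndependent ℚ (fun i => (e i : ι → ℚ)) := hli.comp e e.injective
  have hM : ((Matrix.of v).map (Int.cast : ℤ → ℚ)).det ≠ 0 := by
    have h1 : IsUnit (Matrix.of fun i => (e i : ι → ℚ)) := by
      rw [← Matrix.linearIndependent_rows_iff_isUnit]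
      exact hli'
    have h2 : (Matrix.of v).map (Int.cast : ℤ → ℚ) = Matrix.of fun i => (e i : ι → ℚ) := by
      ext i j
      have := congrFun (hcs i) j
      simpa [cs] using this
    rw [h2]
    exact ((Matrix.isUnit_iff_isUnit_det _).1 h1).ne_zero
  intro h0
  apply hM
  have h3 : ((Matrix.of v).map (Int.cast : ℤ → ℚ)).det = (((Matrix.of v).det : ℤ) : ℚ) := by
    have := RingHom.map_det (Int.castRingHom ℚ) (Matrix.of v)
    rw [RingHom.mapMatrix_apply] at this
    exact this.symm
  rw [h3, h0, Int.cast_zero]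

end Rk_aux

open Rk_aux in
theorem tRk : S_Rk := by
  intro ι _ _ V h
  by_cases hW : Submodule.span ℚ (cs '' V) = ⊤
  · obtain ⟨v, hv, hd⟩ := of_top ι V hW
    exact absurd (h v hv) hd
  · obtain ⟨f, hf, hle⟩ := Submodule.exists_le_ker_of_lt_top _ (lt_top_iff_ne_top.2 hW)
    obtain ⟨c, hc⟩ := IsLocalization.exist_integer_multiples_of_finite (nonZeroDivisors ℤ)
      (fun j : ι => f (fun i => if j = i then (1 : ℚ) else 0))
    choose g hg using hc
    have hc0 : ((c : ℤ) : ℚ) ≠ 0 := by
      exact_mod_cast nonZeroDivisors.coe_ne_zero c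
    have hg' : ∀ j, ((g j : ℤ) : ℚ) = ((c : ℤ) : ℚ) * f (fun i => if j = i then (1 : ℚ) else 0) := by
      intro j
      have := hg j
      simpa [Algebra.smul_def, Submonoid.smul_def] using this
    refine ⟨g, ?_, ?_⟩
    · intro h0
      apply hf
      refine LinearMap.ext fun x => ?_
      have hz : ∀ j, f (fun i => if j = i then (1 : ℚ) else 0) = 0 := by
        intro j
        have h1 := hg' j
        rw [h0, Pi.zero_apply, Int.cast_zero] at h1
        exact (mul_eq_zero.1 h1.symm).resolve_left hc0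
      rw [LinearMap.pi_apply_eq_sum_univ f x, LinearMap.zero_apply]
      exact Finset.sum_eq_zero fun j _ => by rw [hz j, smul_zero]
    · intro v hv
      have h1 : f (cs v) = 0 := hle (Submodule.subset_span ⟨v, hv, rfl⟩)
      rw [LinearMap.pi_apply_eq_sum_univ] at h1
      have h2 : ((∑ j, g j * v j : ℤ) : ℚ) = ((c : ℤ) : ℚ) * ∑ i, cs v i • f (fun j => if i = j then (1 : ℚ) else 0) := by
        rw [Int.cast_sum, Finset.mul_sum]
        refine Finset.sum_congr rfl fun j _ => ?_
        rw [Int.cast_mul, hg' j]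
        simp only [cs, smul_eq_mul]
        ring
      rw [h1, mul_zero] at h2
      exact_mod_cast h2

end TNF.HIT
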