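import Pool.Agent.Lib.TNF.HIT.Spec

/-!
# TNF.HIT, module Stp: the induction step
-/

set_option autoImplicit false

noncomputable section

namespace TNF.HIT

open Polynomial

namespace Stp_aux

lemma mono {N k k' : ℕ} (hN : 1 ≤ N) (h : k ≤ k') : (k : ℤ) * (N : ℤ) ^ k ≤ k' * (N : ℤ) ^ k' := by
  have h1 : (1 : ℤ) ≤ N := by exact_mod_cast hN
  have h2 : (k : ℤ) ≤ k' := by exact_mod_cast h
  exact mul_le_mul h2 (pow_le_pow_right₀ h1 h) (by positivity) (by positivity)

/-- uniform bound for the coefficients of the specialisations of a polynomial in one variable -/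
lemma size1 (hSz : S_Sz) (p : ℕ) (q : (Rp p)[X]) : ∃ k : ℕ, ∀ N : ℕ, 1 ≤ N → ∀ a ∈ bx p N, ∀ j,
    |(q.map (MvPolynomial.eval a)).coeff j| ≤ k * (N : ℤ) ^ k := by
  choose K hK using hSz p
  refine ⟨(Finset.range (q.natDegree + 1)).sup (fun j => K (q.coeff j)), fun N hN a ha j => ?_⟩
  rw [Polynomial.coeff_map]
  by_cases hj : j ≤ q.natDegree
  · refine (hK (q.coeff j) N hN a ha).trans (mono hN ?_)
    exact Finset.le_sup (f := fun j => K (q.coeff j)) (Finset.mem_range.mpr (by omega))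
  · rw [Polynomial.coeff_eq_zero_of_natDegree_lt (by omega)]
    simp only [map_zero, abs_zero]
    positivity

/-- uniform bound for two variables -/
lemma size2 (hSz : S_Sz) (p : ℕ) (F : (Rp p)[X][X]) : ∃ k : ℕ, ∀ N : ℕ, 1 ≤ N → ∀ a ∈ bx p N, ∀ i j,
    |((F.map (mapRingHom (MvPolynomial.eval a))).coeff i).coeff j| ≤ k * (N : ℤ) ^ k := by
  choose K hK using size1 hSz p
  refine ⟨(Finset.range (F.natDegree + 1)).sup (fun i => K (F.coeff i)), fun N hN a ha i j => ?_⟩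
  rw [Polynomial.coeff_map]
  by_cases hi : i ≤ F.natDegree
  · refine (hK (F.coeff i) N hN a ha j).trans (mono hN ?_)
    exact Finset.le_sup (f := fun i => K (F.coeff i)) (Finset.mem_range.mpr (by omega))
  · rw [Polynomial.coeff_eq_zero_of_natDegree_lt (p := F) (n := i) (by omega)]
    simp only [map_zero, coeff_zero, abs_zero]
    positivity

lemma deg2 (p : ℕ) (F : (Rp p)[X][X]) : ∃ e : ℕ, ∀ i, (F.coeff i).natDegree ≤ e := by
  refine ⟨(Finset.range (F.natDegree + 1)).sup (fun i => (F.coeff i).natDegree), fun i => ?_⟩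
  by_cases hi : i ≤ F.natDegree
  · exact Finset.le_sup (f := fun i => (F.coeff i).natDegree) (Finset.mem_range.mpr (by omega))
  · rw [Polynomial.coeff_eq_zero_of_natDegree_lt (by omega)]
    simp

/-- the variable `0` as the variable of a polynomial -/
def psi (p : ℕ) : Rp (p + 1) →+* (Rp p)[X] := (MvPolynomial.finSuccEquiv ℤ p : Rp (p + 1) ≃ₐ[ℤ] (Rp p)[X]).toRingEquiv

lemma psi_inj (p : ℕ) : Function.Injective (psi p) := (MvPolynomial.finSuccEquiv ℤ p).injective

lemma psi_surj (p : ℕ) : Function.Surjective (psi p) := (MvPolynomial.finSuccEquiv ℤ p).surjective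

lemma eval_cons (p : ℕ) (f : Rp (p + 1)) (t : ℤ) (a : Fin p → ℤ) :
    MvPolynomial.eval (Fin.cons t a : Fin (p + 1) → ℤ) f =
      ((psi p f).map (MvPolynomial.eval a)).eval t := by
  rw [MvPolynomial.eval_eq_eval_mv_eval']
  rfl

lemma nr_map (p : ℕ) (F : (Rp (p + 1))[X]) (h : NR F) : NR (F.map (psi p)) := by
  refine ⟨h.1.map _, fun g hg => ?_⟩
  obtain ⟨g₀, rfl⟩ := psi_surj p g
  rw [Polynomial.eval_map, Polynomial.eval₂_hom] at hg
  exact h.2 g₀ (psi_inj p (by rw [hg, map_zero]))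

lemma map_cons (p : ℕ) (F : (Rp (p + 1))[X]) (t : ℤ) (a : Fin p → ℤ) :
    F.map (MvPolynomial.eval (Fin.cons t a : Fin (p + 1) → ℤ)) =
      ((F.map (psi p)).map (mapRingHom (MvPolynomial.eval a))).map (evalRingHom t) := by
  ext i
  simp only [Polynomial.coeff_map]
  rw [eval_cons]
  rfl

lemma mem_bad (p : ℕ) (F : (Rp (p + 1))[X]) (t : ℤ) (a : Fin p → ℤ) :
    (Fin.cons t a : Fin (p + 1) → ℤ) ∈ Bad F ↔
      ∃ y, ev ((F.map (psi p)).map (mapRingHom (MvPolynomial.eval a))) t y = 0 := by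
  show (∃ y : ℤ, (F.map (MvPolynomial.eval (Fin.cons t a : Fin (p + 1) → ℤ))).eval y = 0) ↔ _
  rw [map_cons]
  rfl

end Stp_aux

open Stp_aux

theorem tStp : S_Bas → S_Zer → S_Sz → S_One → S_Dsc → S_Sys → S_Stp := by
  intro hBas hZer hSz hOne hDsc hSys p θ hθ hHit F hF hirr
  obtain ⟨-, hsub, hexp, hUn, htail, hcons, hun2⟩ := hBas
  obtain ⟨U₀, V₀, Δ₀, hΔ0, hUV0⟩ := hDsc (Rp (p + 1)) F hF.1 hirr
  set F' : (Rp p)[X][X] := F.map (psi p) with hF'def
  have hF' : NR F' := nr_map p F hF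
  set U : (Rp p)[X][X] := U₀.map (psi p) with hU
  set V : (Rp p)[X][X] := V₀.map (psi p) with hV
  set Δ : (Rp p)[X] := psi p Δ₀ with hΔ
  have hΔne : Δ ≠ 0 := fun h => hΔ0 (psi_inj p (by rw [← hΔ, h, map_zero]))
  have hUV : U * F' + V * derivative F' = C Δ := by
    have h1 := congrArg (Polynomial.map (psi p)) hUV0
    rw [Polynomial.map_add, Polynomial.map_mul, Polynomial.map_mul, ← Polynomial.derivative_map,
      Polynomial.map_C] at h1
    exact h1
  obtain ⟨m, G, h, hh, hG, hGsys⟩ := hSys p F' hF'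
  obtain ⟨k1, hk1⟩ := size2 hSz p F'
  obtain ⟨k2, hk2⟩ := size1 hSz p Δ
  obtain ⟨e1, he1⟩ := deg2 p F'
  set δ : Rp p := Δ.leadingCoeff with hδ
  have hδne : δ ≠ 0 := Polynomial.leadingCoeff_ne_zero.mpr hΔne
  -- the exceptional sets
  set A1 : Set (Fin (p + 1) → ℤ) := {s | Fin.tail s ∈ {a : Fin p → ℤ | MvPolynomial.eval a δ = 0}} with hA1
  set A2 : Set (Fin (p + 1) → ℤ) := {s | Fin.tail s ∈ {a : Fin p → ℤ | MvPolynomial.eval a h = 0}} with hA2
  set A3 : Set (Fin (p + 1) → ℤ) := ⋃ i : Fin m, {s | Fin.tail s ∈ Bad (G i)} with hA3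
  set B0 : Set (Fin (p + 1) → ℤ) := {s | s ∈ Bad F ∧ MvPolynomial.eval (Fin.tail s) δ ≠ 0 ∧
    MvPolynomial.eval (Fin.tail s) h ≠ 0 ∧ ∀ i, Fin.tail s ∉ Bad (G i)} with hB0
  have hcov : Bad F ⊆ ((A1 ∪ A2) ∪ A3) ∪ B0 := by
    intro s hs
    by_cases h1 : MvPolynomial.eval (Fin.tail s) δ = 0
    · exact Or.inl (Or.inl (Or.inl h1))
    by_cases h2 : MvPolynomial.eval (Fin.tail s) h = 0
    · exact Or.inl (Or.inl (Or.inr h2))
    by_cases h3 : ∃ i, Fin.tail s ∈ Bad (G i)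
    · obtain ⟨i, hi⟩ := h3
      exact Or.inl (Or.inr (Set.mem_iUnion.mpr ⟨i, hi⟩))
    · exact Or.inr ⟨hs, h1, h2, fun i hi => h3 ⟨i, hi⟩⟩
  have hcast : ((p + 1 : ℕ) : ℝ) - 1 + θ = p + θ := by push_cast; ring
  rw [hcast]
  have tA1 : Thn (p + 1) (p + θ) A1 :=
    hexp _ _ _ _ (by linarith) (htail p _ _ (hZer p δ hδne))
  have tA2 : Thn (p + 1) (p + θ) A2 :=
    hexp _ _ _ _ (by linarith) (htail p _ _ (hZer p h hh))
  have tA3 : Thn (p + 1) (p + θ) A3 :=
    hUn _ _ _ _ fun i => hexp _ _ _ _ (by linarith) (htail p _ _ (hHit (G i) (hG i)))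
  have tB0 : Thn (p + 1) (p + θ) B0 := by
    apply hcons
    obtain ⟨C, hC⟩ := hOne θ hθ F'.natDegree (max e1 Δ.natDegree) (max k1 k2)
    have hC0 : 0 ≤ max C 0 := le_max_right _ _
    refine ⟨max C 0, fun N hN a ha => ?_⟩
    have hNpos : (0 : ℝ) ≤ (N : ℝ) ^ θ := Real.rpow_nonneg (Nat.cast_nonneg _) _
    by_cases hg : MvPolynomial.eval a δ ≠ 0 ∧ MvPolynomial.eval a h ≠ 0 ∧ ∀ i, a ∉ Bad (G i)
    · obtain ⟨hg1, hg2, hg3⟩ := hg
      have hNR : NR (F'.map (mapRingHom (MvPolynomial.eval a))) := by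
        refine ⟨hF'.1.map _, fun g hgz => ?_⟩
        obtain ⟨i, hi⟩ := hGsys a hg2 ⟨g, hgz⟩
        exact hg3 i hi
      have hb := hC N (F'.map (mapRingHom (MvPolynomial.eval a)))
        (U.map (mapRingHom (MvPolynomial.eval a))) (V.map (mapRingHom (MvPolynomial.eval a)))
        (Δ.map (MvPolynomial.eval a)) hN hNR Polynomial.natDegree_map_le
        (fun i => by
          rw [Polynomial.coeff_map]
          exact (Polynomial.natDegree_map_le).trans ((he1 i).trans (le_max_left _ _)))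
        (fun i j => (hk1 N hN a ha i j).trans (mono hN (le_max_left _ _)))
        (by
          have h1 := congrArg (Polynomial.map (mapRingHom (MvPolynomial.eval a))) hUV
          rw [Polynomial.map_add, Polynomial.map_mul, Polynomial.map_mul, ← Polynomial.derivative_map,
            Polynomial.map_C] at h1
          exact h1)
        (by
          intro h0
          apply hg1
          have h2 := congrArg (fun q : ℤ[X] => q.coeff Δ.natDegree) h0
          simpa [Polynomial.coeff_map] using h2)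
        (Polynomial.natDegree_map_le.trans (le_max_right _ _))
        (fun j => (hk2 N hN a ha j).trans (mono hN (le_max_right _ _)))
      have hset : {t : ℤ | |t| ≤ N ∧ Fin.cons (α := fun _ => ℤ) t a ∈ B0} ⊆
          {t : ℤ | |t| ≤ N ∧ ∃ y, ev (F'.map (mapRingHom (MvPolynomial.eval a))) t y = 0} := by
        rintro t ⟨ht, hs⟩
        exact ⟨ht, (mem_bad p F t a).mp hs.1⟩
      have hfin : {t : ℤ | |t| ≤ N ∧ ∃ y, ev (F'.map (mapRingHom (MvPolynomial.eval a))) t y = 0}.Finite := by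
        refine (Set.finite_Icc (-(N : ℤ)) N).subset ?_
        rintro t ⟨ht, -⟩
        exact abs_le.mp ht
      calc (({t : ℤ | |t| ≤ N ∧ Fin.cons (α := fun _ => ℤ) t a ∈ B0}.ncard : ℕ) : ℝ) ≤
          ({t : ℤ | |t| ≤ N ∧ ∃ y, ev (F'.map (mapRingHom (MvPolynomial.eval a))) t y = 0}.ncard : ℕ) := by
            exact_mod_cast Set.ncard_le_ncard hset hfin
        _ ≤ C * (N : ℝ) ^ θ := hb
        _ ≤ max C 0 * (N : ℝ) ^ θ := by gcongr; exact le_max_left _ _
    · have hset : {t : ℤ | |t| ≤ N ∧ Fin.cons (α := fun _ => ℤ) t a ∈ B0} = ∅ := by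
        ext t
        simp only [Set.mem_empty_iff_false, iff_false]
        rintro ⟨-, -, h1, h2, h3⟩
        rw [Fin.tail_cons] at h1 h2
        apply hg
        refine ⟨h1, h2, fun i hi => h3 i ?_⟩
        rw [Fin.tail_cons]
        exact hi
      rw [hset, Set.ncard_empty]
      simp only [Nat.cast_zero]
      positivity
  exact hsub _ _ _ _ hcov (hun2 _ _ _ _ (hun2 _ _ _ _ (hun2 _ _ _ _ tA1 tA2) tA3) tB0)

end TNF.HIT
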