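import Pool.Agent.Lib.TNF.HIT.Spec

/-!
# PROJECT TNF, package HIT: roots in the polynomial ring over the integers
-/

set_option autoImplicit false

namespace TNF.HIT

open Polynomial

namespace Sys_aux

/-- The generic polynomial of degree at most `e`. -/
noncomputable def gh (R : Type) [CommRing R] (e : ℕ) : (MvPolynomial (Fin (e + 1)) R)[X] :=
  ∑ k : Fin (e + 1), C (MvPolynomial.X k) * X ^ (k : ℕ)

/-- The value of `F` at the generic polynomial. -/
noncomputable def Sg {R : Type} [CommRing R] (e : ℕ) (F : R[X][X]) :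
    (MvPolynomial (Fin (e + 1)) R)[X] :=
  F.eval₂ (mapRingHom MvPolynomial.C) (gh R e)

lemma Sg_map {R T : Type} [CommRing R] [CommRing T] (e : ℕ) (F : R[X][X])
    (ψ : MvPolynomial (Fin (e + 1)) R →+* T) (φ : R →+* T) (x : Fin (e + 1) → T)
    (h1 : ∀ r, ψ (MvPolynomial.C r) = φ r) (h2 : ∀ k, ψ (MvPolynomial.X k) = x k) :
    (Sg e F).map ψ =
      (F.map (mapRingHom φ)).eval (∑ k : Fin (e + 1), C (x k) * X ^ (k : ℕ)) := by
  have h3 : ψ.comp MvPolynomial.C = φ := RingHom.ext h1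
  unfold Sg
  rw [← coe_mapRingHom, hom_eval₂, mapRingHom_comp, h3, eval_map]
  congr 1
  simp [gh, h2]

lemma coeff_sum' {T : Type} [CommRing T] (e : ℕ) (x : Fin (e + 1) → T) (κ : Fin (e + 1)) :
    (∑ k : Fin (e + 1), C (x k) * X ^ (k : ℕ)).coeff (κ : ℕ) = x κ := by
  rw [finsetSum_coeff, Finset.sum_eq_single κ]
  · simp
  · intro b _ hb
    rw [coeff_C_mul, coeff_X_pow, if_neg, mul_zero]
    intro h
    exact hb (Fin.ext h.symm)
  · intro h
    exact absurd (Finset.mem_univ _) h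

lemma sum_coeff' {T : Type} [CommRing T] (e : ℕ) (g : T[X]) (hg : g.natDegree ≤ e) :
    (∑ k : Fin (e + 1), C (g.coeff k) * X ^ (k : ℕ)) = g := by
  rw [Fin.sum_univ_eq_sum_range (fun k => C (g.coeff k) * X ^ k) (e + 1)]
  conv_rhs => rw [g.as_sum_range' (e + 1) (by omega)]
  exact Finset.sum_congr rfl fun k _ => C_mul_X_pow_eq_monomial

lemma deg_map {R T : Type} [CommRing R] [CommRing T] (φ : R →+* T) (F : R[X][X]) (e : ℕ)
    (h : ∀ i, (F.coeff i).natDegree ≤ e) (i : ℕ) :
    ((F.map (mapRingHom φ)).coeff i).natDegree ≤ e := by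
  rw [coeff_map, coe_mapRingHom]
  exact (natDegree_map_le).trans (h i)

end Sys_aux

open Sys_aux

theorem tSys : S_Nul → S_Alg → S_Deg → S_Kr → S_Sys := by
  intro hNul hAlg hDeg hKr p F hF
  classical
  obtain ⟨e, he⟩ : ∃ e, ∀ i, (F.coeff i).natDegree ≤ e := by
    refine ⟨F.support.sup fun i => (F.coeff i).natDegree, fun i => ?_⟩
    by_cases hi : i ∈ F.support
    · exact Finset.le_sup (f := fun i => (F.coeff i).natDegree) hi
    · rw [notMem_support_iff] at hi
      rw [hi]; simp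
  let K : Type := FractionRing (Rp p)
  let L : Type := AlgebraicClosure K
  let S : Type := MvPolynomial (Fin (e + 1)) (Rp p)
  let FL : L[X][X] := F.map (mapRingHom (algebraMap (Rp p) L))
  have hFL : FL.Monic := hF.1.map _
  let Rt : Finset L[X] := FL.roots.toFinset
  have hRt : ∀ g : L[X], g ∈ Rt ↔ FL.eval g = 0 := by
    intro g
    rw [Multiset.mem_toFinset, mem_roots hFL.ne_zero, IsRoot.def]
  -- a coefficient which is not in `K`
  have key : ∀ g : Rt, ∃ (κ : Fin (e + 1)) (c : Rp p) (G : (Rp p)[X]), NR G ∧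
      aeval (algebraMap (Rp p) L c * g.1.coeff κ) G = 0 := by
    rintro ⟨g, hg⟩
    rw [hRt] at hg
    have h1 : ∃ j, ∀ c : K, algebraMap K L c ≠ g.coeff j := by
      by_contra hcon
      push Not at hcon
      have h2 : g ∈ lifts (algebraMap K L) := by
        rw [lifts_iff_coeff_lifts]
        intro n
        obtain ⟨c, hc⟩ := hcon n
        exact ⟨c, hc⟩
      rw [mem_lifts] at h2
      obtain ⟨g', hg'⟩ := h2
      apply hKr (Rp p) K F hF g'
      apply map_injective (algebraMap K L) (algebraMap K L).injective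
      rw [Polynomial.map_zero, ← hg, ← hg', ← coe_mapRingHom, eval_map, hom_eval₂, mapRingHom_comp,
        ← IsScalarTower.algebraMap_eq, ← eval_map, coe_mapRingHom]
    obtain ⟨j, hj⟩ := h1
    have hje : j < e + 1 := by
      by_contra hcon
      apply hj 0
      rw [map_zero, coeff_eq_zero_of_natDegree_lt]
      have := hDeg L FL e hFL (deg_map _ F e he) g hg
      omega
    obtain ⟨c, G, -, hG, hz⟩ := hAlg (Rp p) K L (g.coeff j) (Algebra.IsAlgebraic.isAlgebraic _) hj
    exact ⟨⟨j, hje⟩, c, G, hG, hz⟩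
  choose κ c G hG hz using key
  let n : ℕ := Rt.card
  let r : Fin n ≃ Rt := Rt.equivFin.symm
  let P : S := ∏ i : Fin n, aeval (MvPolynomial.C (c (r i)) * MvPolynomial.X (κ (r i)) : S) (G (r i))
  have hP : ∀ {T : Type} [CommRing T] (ψ : S →+* T) (φ : Rp p →+* T) (x : Fin (e + 1) → T),
      (∀ r, ψ (MvPolynomial.C r) = φ r) → (∀ k, ψ (MvPolynomial.X k) = x k) →
      ψ P = ∏ i : Fin n, ((G (r i)).map φ).eval (φ (c (r i)) * x (κ (r i))) := by
    intro T _ ψ φ x h1 h2
    rw [map_prod]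
    refine Finset.prod_congr rfl fun i _ => ?_
    have h3 : ψ.comp MvPolynomial.C = φ := RingHom.ext h1
    rw [aeval_def, hom_eval₂, map_mul, h1, h2, eval_map, MvPolynomial.algebraMap_eq, h3]
  obtain ⟨h, M, hh, hM⟩ := hNul (Rp p) K L (e + 1) ((Sg e F).natDegree + 1)
    (fun l => (Sg e F).coeff l) P (by
      intro x hx
      have h1 : (Sg e F).map (MvPolynomial.aeval x : S →ₐ[Rp p] L).toRingHom = 0 := by
        ext l
        rw [coeff_map, coeff_zero]
        by_cases hl : l < (Sg e F).natDegree + 1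
        · exact hx ⟨l, hl⟩
        · rw [coeff_eq_zero_of_natDegree_lt (by omega), map_zero]
      rw [Sg_map e F _ (algebraMap (Rp p) L) x (fun r => MvPolynomial.aeval_C x r)
        (fun k => MvPolynomial.aeval_X x k)] at h1
      have h2 := (hRt _).2 h1
      have h3 := hP (MvPolynomial.aeval x : S →ₐ[Rp p] L).toRingHom (algebraMap (Rp p) L) x
        (fun r => MvPolynomial.aeval_C x r) (fun k => MvPolynomial.aeval_X x k)
      refine h3.trans ?_
      refine Finset.prod_eq_zero (Finset.mem_univ (r.symm ⟨_, h2⟩)) ?_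
      rw [Equiv.apply_symm_apply]
      have h4 := hz ⟨_, h2⟩
      rw [coeff_sum'] at h4
      rw [eval_map, ← aeval_def]
      exact h4)
  refine ⟨n, fun i => G (r i), h, hh, fun i => hG _, ?_⟩
  rintro a ha ⟨g, hg⟩
  have hgd : g.natDegree ≤ e := hDeg ℤ _ e (hF.1.map _) (deg_map _ F e he) g hg
  let ψ : S →+* ℤ := MvPolynomial.eval₂Hom (MvPolynomial.eval a) (fun k => g.coeff (k : ℕ))
  have hψ1 : ∀ r, ψ (MvPolynomial.C r) = MvPolynomial.eval a r := fun r =>
    MvPolynomial.eval₂Hom_C _ _ _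
  have hψ2 : ∀ k, ψ (MvPolynomial.X k) = g.coeff (k : ℕ) := fun k =>
    MvPolynomial.eval₂Hom_X' _ _ _
  have h1 : (Sg e F).map ψ = 0 := by
    rw [Sg_map e F ψ _ _ hψ1 hψ2, sum_coeff' e g hgd]
    exact hg
  have h2 : Ideal.span (Set.range fun l : Fin ((Sg e F).natDegree + 1) => (Sg e F).coeff l) ≤
      RingHom.ker ψ := by
    rw [Ideal.span_le]
    rintro _ ⟨l, rfl⟩
    rw [SetLike.mem_coe, RingHom.mem_ker]
    have := congrArg (fun q => q.coeff (l : ℕ)) h1
    simpa only [coeff_map, coeff_zero] using this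
  have h3 := h2 hM
  rw [RingHom.mem_ker, map_mul, map_pow, hψ1] at h3
  have h4 : ψ P = 0 := eq_zero_of_pow_eq_zero ((mul_eq_zero.1 h3).resolve_left ha)
  rw [hP ψ _ _ hψ1 hψ2, Finset.prod_eq_zero_iff] at h4
  obtain ⟨i, -, hi⟩ := h4
  exact ⟨i, _, hi⟩

end TNF.HIT
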