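import Pool.Agent.Lib.TNF.HIT.Spec

/-!
# Size
-/

set_option autoImplicit false

namespace TNF.HIT

namespace Sz_aux

theorem mono {k l : ℕ} (h : k ≤ l) {N : ℕ} (hN : 1 ≤ N) : (k : ℤ) * (N : ℤ) ^ k ≤ l * (N : ℤ) ^ l := by
  have h1 : (1 : ℤ) ≤ N := by exact_mod_cast hN
  have h2 : (k : ℤ) ≤ l := by exact_mod_cast h
  exact mul_le_mul h2 (pow_le_pow_right₀ h1 h) (by positivity) (by positivity)

end Sz_aux

open Sz_aux in
theorem tSz : S_Sz := by
  intro p h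
  induction h using MvPolynomial.induction_on with
  | C c =>
    refine ⟨c.natAbs, fun N hN a _ => ?_⟩
    rw [MvPolynomial.eval_C, Int.natCast_natAbs]
    have h1 : (1 : ℤ) ≤ N := by exact_mod_cast hN
    have h2 : (1 : ℤ) ≤ (N : ℤ) ^ c.natAbs := one_le_pow₀ h1
    exact le_mul_of_one_le_right (abs_nonneg c) h2
  | add f g hf hg =>
    obtain ⟨k, hk⟩ := hf
    obtain ⟨l, hl⟩ := hg
    refine ⟨k + l, fun N hN a ha => ?_⟩
    have h1 : (1 : ℤ) ≤ N := by exact_mod_cast hN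
    rw [map_add]
    refine (abs_add_le _ _).trans ((add_le_add (hk N hN a ha) (hl N hN a ha)).trans ?_)
    have e1 : (N : ℤ) ^ k ≤ (N : ℤ) ^ (k + l) := pow_le_pow_right₀ h1 (Nat.le_add_right _ _)
    have e2 : (N : ℤ) ^ l ≤ (N : ℤ) ^ (k + l) := pow_le_pow_right₀ h1 (Nat.le_add_left _ _)
    have e3 : (k : ℤ) * (N : ℤ) ^ k ≤ k * (N : ℤ) ^ (k + l) :=
      mul_le_mul_of_nonneg_left e1 (by positivity)
    have e4 : (l : ℤ) * (N : ℤ) ^ l ≤ l * (N : ℤ) ^ (k + l) :=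
      mul_le_mul_of_nonneg_left e2 (by positivity)
    push_cast
    linarith
  | mul_X f i hf =>
    obtain ⟨k, hk⟩ := hf
    refine ⟨k + 1, fun N hN a ha => ?_⟩
    have h1 : (1 : ℤ) ≤ N := by exact_mod_cast hN
    rw [map_mul, MvPolynomial.eval_X, abs_mul]
    have h2 : |a i| ≤ N := ha i
    have h3 : |MvPolynomial.eval a f| * |a i| ≤ (k * (N : ℤ) ^ k) * N :=
      mul_le_mul (hk N hN a ha) h2 (abs_nonneg _) (by positivity)
    refine h3.trans ?_
    have h4 : (0 : ℤ) ≤ (N : ℤ) ^ (k + 1) := by positivity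
    push_cast
    rw [mul_assoc, ← pow_succ]
    nlinarith

end TNF.HIT
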