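import Pool.Agent.Lib.TNF.HIT.Spec

set_option autoImplicit false

namespace TNF.HIT

open Polynomial

namespace Zer_aux

theorem cardBound {p : ℕ} (h : Rp (p + 1)) (hh : h ≠ 0) (N : ℕ) :
    (Finset.filter (fun f : Fin (p + 1) → ℤ => MvPolynomial.eval f h = 0)
      (Fintype.piFinset fun _ => Finset.Icc (-(N : ℤ)) N)).card ≤ h.totalDegree * (2 * N + 1) ^ p := by
  classical
  have key := MvPolynomial.schwartz_zippel_totalDegree hh (Finset.Icc (-(N : ℤ)) N)
  have hS : (Finset.Icc (-(N : ℤ)) N).card = 2 * N + 1 := by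
    rw [Int.card_Icc]; omega
  rw [hS] at key
  have hpos : (0 : NNRat) < (((2 * N + 1 : ℕ) : NNRat)) := by
    exact_mod_cast Nat.succ_pos (2 * N)
  rw [div_le_div_iff₀ (pow_pos hpos _) hpos] at key
  have k2 : (Finset.filter (fun f : Fin (p + 1) → ℤ => MvPolynomial.eval f h = 0)
      (Fintype.piFinset fun _ => Finset.Icc (-(N : ℤ)) N)).card * (2 * N + 1) ≤
        h.totalDegree * (2 * N + 1) ^ (p + 1) := by
    exact_mod_cast key
  rw [pow_succ, ← mul_assoc] at k2
  exact Nat.le_of_mul_le_mul_right k2 (Nat.succ_pos (2 * N))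

end Zer_aux

theorem tZer : S_Zer := by
  classical
  intro p h hh
  rcases p with _ | p
  · refine ⟨0, fun N hN => ?_⟩
    have he : bx 0 N ∩ {a | MvPolynomial.eval a h = 0} = ∅ := by
      rw [Set.eq_empty_iff_forall_notMem]
      rintro a ⟨-, ha⟩
      apply hh
      rw [MvPolynomial.eq_C_of_isEmpty h] at ha ⊢
      have ha' : MvPolynomial.coeff 0 h = 0 := by
        simpa using ha
      rw [ha', MvPolynomial.C_0]
    rw [he]
    simp
  · refine ⟨(h.totalDegree : ℝ) * 3 ^ p, fun N hN => ?_⟩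
    have hcast : ((p + 1 : ℕ) : ℝ) - 1 = (p : ℝ) := by push_cast; ring
    rw [hcast, Real.rpow_natCast]
    have hset : bx (p + 1) N ∩ {a | MvPolynomial.eval a h = 0} =
        ((Finset.filter (fun f : Fin (p + 1) → ℤ => MvPolynomial.eval f h = 0)
          (Fintype.piFinset fun _ => Finset.Icc (-(N : ℤ)) N) : Finset (Fin (p + 1) → ℤ)) :
            Set (Fin (p + 1) → ℤ)) := by
      ext s
      simp [bx, abs_le]
    rw [hset, Set.ncard_coe_finset]
    have h1 := Zer_aux.cardBound h hh N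
    have h2 : (2 * N + 1) ^ p ≤ (3 * N) ^ p := Nat.pow_le_pow_left (by omega) p
    have h3 := h1.trans (Nat.mul_le_mul_left h.totalDegree h2)
    have h4 : (((Finset.filter (fun f : Fin (p + 1) → ℤ => MvPolynomial.eval f h = 0)
      (Fintype.piFinset fun _ => Finset.Icc (-(N : ℤ)) N)).card : ℕ) : ℝ) ≤
        ((h.totalDegree * (3 * N) ^ p : ℕ) : ℝ) := by exact_mod_cast h3
    refine h4.trans (le_of_eq ?_)
    push_cast
    rw [mul_pow]
    ring

end TNF.HIT
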