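import Pool.Agent.Lib.TNF.HIT.Alg
import Pool.Agent.Lib.TNF.HIT.Bas
import Pool.Agent.Lib.TNF.HIT.Bd
import Pool.Agent.Lib.TNF.HIT.Brg
import Pool.Agent.Lib.TNF.HIT.Brt
import Pool.Agent.Lib.TNF.HIT.Cls
import Pool.Agent.Lib.TNF.HIT.Cnt
import Pool.Agent.Lib.TNF.HIT.Deg
import Pool.Agent.Lib.TNF.HIT.Det
import Pool.Agent.Lib.TNF.HIT.Dsc
import Pool.Agent.Lib.TNF.HIT.Dsz
import Pool.Agent.Lib.TNF.HIT.Ext
import Pool.Agent.Lib.TNF.HIT.Fac
import Pool.Agent.Lib.TNF.HIT.Hall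
import Pool.Agent.Lib.TNF.HIT.Hen
import Pool.Agent.Lib.TNF.HIT.Hom
import Pool.Agent.Lib.TNF.HIT.Ineq
import Pool.Agent.Lib.TNF.HIT.Kr
import Pool.Agent.Lib.TNF.HIT.Nst
import Pool.Agent.Lib.TNF.HIT.One
import Pool.Agent.Lib.TNF.HIT.Prd
import Pool.Agent.Lib.TNF.HIT.Prm
import Pool.Agent.Lib.TNF.HIT.Rat
import Pool.Agent.Lib.TNF.HIT.Rel
import Pool.Agent.Lib.TNF.HIT.Res
import Pool.Agent.Lib.TNF.HIT.Rk
import Pool.Agent.Lib.TNF.HIT.Stp
import Pool.Agent.Lib.TNF.HIT.Sub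
import Pool.Agent.Lib.TNF.HIT.Sys
import Pool.Agent.Lib.TNF.HIT.Sz
import Pool.Agent.Lib.TNF.HIT.Zer

/-!
# TNF, package HIT: Hilbert's irreducibility theorem with a count (helper59, helper42)

`StmtHIT`, `StmtHIT2`: for polynomials irreducible over `ℚ(S_1, …, S_p)` at most
`C N ^ (p - 1/2 + ε)` integral points of the box of size `N` are outside the Hilbert set.
-/

set_option autoImplicit false

namespace TNF.HIT

theorem one : S_One := tOne (tPrm (tCls (tRel tDet tDsz tHen tRk) tHom)) tBd tBrt tPrd tIneq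

theorem hall : S_Hall :=
  tHall (tFac tBas) (tStp tBas tZer tSz one tDsc (tSys tNul tAlg tDeg (tKr tHom)))

theorem cnt : S_Cnt := tCnt tBas tZer hall (tRes tAlg tExt tSub) tRat

theorem tHIT : StmtHIT := (tBrg cnt).1

theorem tHIT2 : StmtHIT2 := (tBrg cnt).2

end TNF.HIT
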