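import Pool.Agent.Lib.TNF.HIT.Spec

/-!
MP_640417_ag, project TNF, package HIT, module Alg (helper28): algebraic elements.
-/

set_option autoImplicit false

noncomputable section

namespace TNF.HIT

open Polynomial

theorem tAlg : S_Alg := by
  intro R K Ω _ _ _ _ _ _ _ _ _ _ α hα hne
  have hR : IsAlgebraic R α := (IsFractionRing.isAlgebraic_iff R K Ω).2 hα
  obtain ⟨c, hc, hint⟩ := hR.exists_integral_multiple
  have hint' : IsIntegral R (algebraMap R Ω c * α) := by
    rw [← Algebra.smul_def]; exact hint
  refine ⟨c, minpoly R (algebraMap R Ω c * α), hc, ⟨minpoly.monic hint', ?_⟩, minpoly.aeval _ _⟩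
  intro r hr
  have e1 : minpoly K (algebraMap R Ω c * α) =
      (minpoly R (algebraMap R Ω c * α)).map (algebraMap R K) :=
    minpoly.isIntegrallyClosed_eq_field_fractions' K hint'
  have hroot : (minpoly K (algebraMap R Ω c * α)).IsRoot (algebraMap R K r) := by
    rw [e1, IsRoot.def, eval_map, eval₂_at_apply, hr, map_zero]
  have hintK : IsIntegral K (algebraMap R Ω c * α) := hint'.tower_top
  have h2 : algebraMap K Ω (algebraMap R K r) = algebraMap R Ω c * α :=
    minpoly.root hintK hroot
  have hcK : algebraMap R K c ≠ 0 := fun h => hc ((IsFractionRing.injective R K) (by rw [h, map_zero]))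
  refine hne ((algebraMap R K c)⁻¹ * algebraMap R K r) ?_
  rw [map_mul, h2, map_inv₀, ← IsScalarTower.algebraMap_apply R K Ω]
  have h3 : algebraMap R Ω c ≠ 0 := by
    rw [IsScalarTower.algebraMap_apply R K Ω]
    exact fun h => hcK ((algebraMap K Ω).injective (by rw [h, map_zero]))
  field_simp

end TNF.HIT
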