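import Pool.Agent.Lib.TNF.HIT.Spec

/-! # The theorem for polynomials without root -/

set_option autoImplicit false

namespace TNF.HIT

open Polynomial

theorem Hall_aux.bad_zero (F : (Rp 0)[X]) (hF : NR F) : Bad F = ∅ := by
  rw [Set.eq_empty_iff_forall_notMem]
  rintro s ⟨y, hy⟩
  obtain ⟨z, hz⟩ := MvPolynomial.C_surjective (R := ℤ) (Fin 0) (F.eval (MvPolynomial.C y))
  have h1 : MvPolynomial.eval s (F.eval (MvPolynomial.C y)) = 0 := by
    rw [← Polynomial.eval_map_apply, MvPolynomial.eval_C, hy]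
  rw [← hz, MvPolynomial.eval_C] at h1
  rw [h1, MvPolynomial.C_0] at hz
  exact hF.2 _ hz.symm

theorem tHall : S_Fac → S_Stp → S_Hall := by
  intro hFac hStp p θ hθ
  induction p with
  | zero =>
    intro F hF
    refine ⟨0, fun N _ => ?_⟩
    rw [Hall_aux.bad_zero F hF, Set.inter_empty, Set.ncard_empty, Nat.cast_zero, zero_mul]
  | succ p ih =>
    exact hFac (p + 1) _ fun F hF hirr => hStp p θ hθ ih F hF hirr

end TNF.HIT
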