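import Mathlib

/-!
# PROJECT TNF, package HIT (helper59): Hilbert irreducibility in `p` variables, with a count

The `q`-adic determinant method; everything is algebraic and uniform. Every module `Xyz`: file `TNF/HIT/Xyz.lean`, `theorem tXyz : S_Xyz`, namespace
`TNF.HIT`, import `Pool.Agent.Lib.TNF.HIT.Spec`. If the docstring says `From S_A, S_B` the theorem is `tXyz : S_A → S_B → S_Xyz`. Auxiliary lemmas in
`namespace TNF.HIT.Xyz_aux`. No hypothesis may be added; if a statement is wrong or inconvenient, mail helper59.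
-/

set_option autoImplicit false

noncomputable section

namespace TNF.HIT

open Polynomial

/-- `ℤ[s_1, …, s_p]`. -/
abbrev Rp (p : ℕ) : Type := MvPolynomial (Fin p) ℤ

/-- The integral points of the box. -/
def bx (p N : ℕ) : Set (Fin p → ℤ) := {s | ∀ i, |s i| ≤ N}

/-- `B` has at most `C N ^ x` points in the box. -/
def Thn (p : ℕ) (x : ℝ) (B : Set (Fin p → ℤ)) : Prop :=
  ∃ C : ℝ, ∀ N : ℕ, 1 ≤ N → ((bx p N ∩ B).ncard : ℝ) ≤ C * (N : ℝ) ^ x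

/-- `F(t, y)`. -/
def ev (F : ℤ[X][X]) (t y : ℤ) : ℤ := (F.map (evalRingHom t)).eval y

/-- The points where `F(s, Y)` has an integral root. -/
def Bad {p : ℕ} (F : (Rp p)[X]) : Set (Fin p → ℤ) := {s | ∃ y : ℤ, (F.map (MvPolynomial.eval s)).eval y = 0}

/-- Monic, without root in `A`. -/
def NR {A : Type} [CommRing A] (F : A[X]) : Prop := F.Monic ∧ ∀ g : A, F.eval g ≠ 0

/-! ## 1. Counting -/

/-- **Bas**: FORMAL RULES. PROOF. `bx p N` is finite (it is the image of / contained in `Fintype.piFinset fun _ => Finset.Icc (-N) N`), of cardinality `(2 N + 1) ^ p ≤ (3 N) ^ p`; all sets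
are finite, `Set.ncard_le_ncard`, `Set.ncard_union_le`; the constants may be assumed `≥ 0` (replace `C` by `|C|`); `N ^ x ≤ N ^ x'` for `N ≥ 1`, `x ≤ x'` (`Real.rpow_le_rpow_of_exponent_le`). (5) `s ↦ (s 0, Fin.tail s)` is injective, the set is contained in
`Icc (-N) N × (bx p N ∩ A)`, `2 N + 1 ≤ 3 N`, `N * N ^ x = N ^ (x + 1)`. (6) the set is the union over the `a ∈ bx p N` of the `Fin.cons t a`: at most `(3 N) ^ p * C N ^ x` points
(`Set.Finite.toFinset`, `Finset.card_le_mul_card_image` or `Finset.card_biUnion_le`). -/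
def S_Bas : Prop :=
  (∀ p N : ℕ, (bx p N).Finite) ∧
  (∀ (p : ℕ) (x : ℝ) (B B' : Set (Fin p → ℤ)), B ⊆ B' → Thn p x B' → Thn p x B) ∧
  (∀ (p : ℕ) (x x' : ℝ) (B : Set (Fin p → ℤ)), x ≤ x' → Thn p x B → Thn p x' B) ∧
  (∀ (p : ℕ) (x : ℝ) (k : ℕ) (B : Fin k → Set (Fin p → ℤ)), (∀ i, Thn p x (B i)) → Thn p x (⋃ i, B i)) ∧
  (∀ (p : ℕ) (x : ℝ) (A : Set (Fin p → ℤ)), Thn p x A → Thn (p + 1) (x + 1) {s | Fin.tail s ∈ A}) ∧
  (∀ (p : ℕ) (x : ℝ) (B : Set (Fin (p + 1) → ℤ)), (∃ C : ℝ, ∀ N : ℕ, 1 ≤ N → ∀ a ∈ bx p N,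
    ({t : ℤ | |t| ≤ N ∧ Fin.cons (α := fun _ => ℤ) t a ∈ B}.ncard : ℝ) ≤ C * (N : ℝ) ^ x) → Thn (p + 1) (p + x) B) ∧
  ∀ (p : ℕ) (x : ℝ) (B B' : Set (Fin p → ℤ)), Thn p x B → Thn p x B' → Thn p x (B ∪ B')

/-- **Zer**: ZEROS OF A POLYNOMIAL. PROOF. `MvPolynomial.schwartz_zippel_totalDegree` for `S = Finset.Icc (-N) N`, `#S = 2 N + 1`: at most `totalDegree h * (2 N + 1) ^ (p - 1)` zeros for
`p ≥ 1`; for `p = 0` there is none (`h` is a nonzero constant) and `C = 0` works. -/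
def S_Zer : Prop :=
  ∀ (p : ℕ) (h : Rp p), h ≠ 0 → Thn p ((p : ℝ) - 1) {a | MvPolynomial.eval a h = 0}

/-- **Sz**: SIZE. PROOF. Induction on `h` (`MvPolynomial.induction_on`), or the sum over the support: `|eval a h| ≤ (∑ |coeff|) * N ^ totalDegree`; `k` = the maximum of the two numbers. -/
def S_Sz : Prop :=
  ∀ (p : ℕ) (h : Rp p), ∃ k : ℕ, ∀ N : ℕ, 1 ≤ N → ∀ a ∈ bx p N, |MvPolynomial.eval a h| ≤ k * (N : ℤ) ^ k

/-- **Bd**: BOUNDS. PROOF. (1) triangle inequality, `|t| ^ j ≤ N ^ e`. (2) `y ^ D = - ∑_(i < D) c_i(t) y ^ i`, `D = F.natDegree ≤ d`, `|c_i(t)| ≤ (e + 1) B N ^ e` by (1). If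
`|y| ≥ 1` and `|y| > d (e + 1) B N ^ e`, then `|y| ^ D ≤ D (e + 1) B N ^ e |y| ^ (D - 1) < |y| ^ D`. -/
def S_Bd : Prop :=
  ∀ (N B d e : ℕ), 1 ≤ N →
    (∀ Δ : ℤ[X], Δ.natDegree ≤ e → (∀ j, |Δ.coeff j| ≤ B) → ∀ t : ℤ, |t| ≤ N → |Δ.eval t| ≤ (e + 1) * B * (N : ℤ) ^ e) ∧
    ∀ F : ℤ[X][X], F.Monic → F.natDegree ≤ d → (∀ i, (F.coeff i).natDegree ≤ e) → (∀ i j, |(F.coeff i).coeff j| ≤ B) →
      ∀ t y : ℤ, |t| ≤ N → ev F t y = 0 → |y| ≤ 1 + d * ((e + 1) * B * (N : ℤ) ^ e)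

/-! ## 2. The determinant method -/

/-- **Det**: DIVISIBILITY OF THE INTERPOLATION DETERMINANT. PROOF. `(P j).eval (x i) = ∑_(k < K) c_jk x_i ^ k`. The determinant is multilinear in the columns
(transpose, `Matrix.detRowAlternating`, `MultilinearMap.map_sum`, `map_smul_univ`): it is the sum over `κ : ι → Fin K` of `∏_j c_(j, κ j) * det (x_i ^ κ j)`. If `κ` is not injective two columns
are equal and the term is `0`. `x_i = q z_i`: `det ((q z_i) ^ κ j) = q ^ (∑ κ j) * det (z_i ^ κ j)` (`Matrix.det_mul_row` or `det_mul_column`), and `∑ κ j ≥ E (E - 1) / 2` for injective `κ` (the sum of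
`E` distinct natural numbers is at least `0 + 1 + … + (E - 1)`; `Finset.sum_range_id`, induction on the finset, remove the maximum). -/
def S_Det : Prop :=
  ∀ (ι : Type) [Fintype ι] [DecidableEq ι] (q : ℤ) (x : ι → ℤ) (P : ι → ℤ[X]), (∀ i, q ∣ x i) →
    q ^ (Fintype.card ι * (Fintype.card ι - 1) / 2) ∣ (Matrix.of fun i j => (P j).eval (x i)).det

/-- **Dsz**: SIZE OF A DETERMINANT. PROOF. `Matrix.det_apply`, `|∏_i M (σ i) i| ≤ ∏_i b i`, the number of permutations. -/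
def S_Dsz : Prop :=
  ∀ (ι : Type) [Fintype ι] [DecidableEq ι] (M : Matrix ι ι ℤ) (b : ι → ℤ), (∀ i j, |M i j| ≤ b j) →
    |M.det| ≤ (Fintype.card ι).factorial * ∏ j, b j

/-- **Hen**: HENSEL'S LEMMA WITH A PARAMETER. PROOF. `F₁ = F.map (taylor-shift t ↦ t₀ + X)`, so `ev F (t₀ + x) (φ.eval x) = (F₁.eval φ).eval x` for `φ ∈ ℤ[X]`. `I = Ideal.span {X, C q}`. `u ∈ ℤ`, `u * ev F.derivative t₀ y₀ ≡ 1` mod `q`.
`φ_1 = C y₀`, `φ_(M+1) = φ_M - C u * F₁.eval φ_M`. By induction `φ_M - C y₀ ∈ I` and `F₁.eval φ_M ∈ I ^ M` (`M ≥ 1`): `F₁.eval (φ - u f) = f - u f F₁'.eval φ + f ^ 2 (…)` (`Polynomial.evalSubFactor` / `Polynomial.binomExpansion`), `f = F₁.eval φ_M`,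
and `1 - u F₁'.eval φ_M ∈ I` (its value at `X = 0`, mod `q`). If `q ∣ x` then `g ∈ I ^ M` gives `q ^ M ∣ g.eval x` (`Ideal.map` under `evalRingHom x`). For a point: `0 = ev F (t₀ + x) y`, `v = φ_M.eval x`, `q ^ M ∣ ev F (t₀ + x) v`,
`q ∣ y - v`; `ev F (t₀+x) v - ev F (t₀+x) y = (v - y) * (ev F.derivative (t₀+x) y + (v - y) * …)`, the second factor is `≡ ev F.derivative t₀ y₀ ≢ 0` mod `q`, so it is coprime to `q ^ M`. (`M = 0` is trivial.) -/
def S_Hen : Prop :=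
  ∀ (F : ℤ[X][X]) (q : ℕ) (t₀ y₀ : ℤ), q.Prime → (q : ℤ) ∣ ev F t₀ y₀ → ¬ (q : ℤ) ∣ ev (derivative F) t₀ y₀ → ∀ M : ℕ,
    ∃ φ : ℤ[X], ∀ x y : ℤ, (q : ℤ) ∣ x → (q : ℤ) ∣ y - y₀ → ev F (t₀ + x) y = 0 → (q : ℤ) ^ M ∣ y - φ.eval x

/-- **Rk**: VANISHING MINORS. PROOF. Over `ℚ`: `W` = the span of `V` in `ι → ℚ`. If `W = ⊤` then `V` contains a basis (`Submodule.exists_fun_fin_finrank_span_eq` or `exists_linearIndependent`, cardinality `card ι`): a family `v : ι → V`, linearly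
independent, so its determinant is not `0`. So `W ≠ ⊤` and there is a nonzero linear form which vanishes on `W` (`Submodule.exists_le_ker_of_lt_top`); multiply its coefficients by a common denominator
(`IsLocalization.exist_integer_multiples_of_finset`, or the product of the denominators). -/
def S_Rk : Prop :=
  ∀ (ι : Type) [Fintype ι] [DecidableEq ι] (V : Set (ι → ℤ)), (∀ v : ι → (ι → ℤ), (∀ i, v i ∈ V) → (Matrix.of v).det = 0) →
    ∃ g : ι → ℤ, g ≠ 0 ∧ ∀ v ∈ V, ∑ j, g j * v j = 0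

/-- **Rel**: THE RELATION ON A CLASS. From S_Det, S_Dsz, S_Hen, S_Rk. PROOF. If there is no such point take `g₀ = 1`, `g₁ = 0`. Otherwise `q ∣ ev F t₀ y₀` (congruence). `ι = Fin (n+1) ⊕ Fin (n+1)`, `card ι = 2 n + 2`; to the point `(t, y)` belongs the vector
`w (inl a) = t ^ a`, `w (inr a) = y * t ^ a`; `V` = the set of these vectors. `S_Rk` applies: let `(t_i, y_i)`, `i : ι`, be points of the class, `t_i = t₀ + x_i`; `M₀ = (n+1) (2n+1)`, `φ` from `S_Hen` for `M₀`. `y_i ≡ φ.eval x_i` mod `q ^ M₀`, so the determinant is congruent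
mod `q ^ M₀` to `det ((P j).eval (x i))`, `P (inl a) = (C t₀ + X) ^ a`, `P (inr a) = φ * (C t₀ + X) ^ a` (`Int.ModEq`, or the image in `ZMod (q ^ M₀)`: `RingHom.map_det`), which is divisible by `q ^ M₀` (`S_Det`). Its absolute value is at most
`(2n+2)! * ∏_a N ^ a * ∏_a (Y * N ^ a) = (2n+2)! * N ^ (n (n+1)) * Y ^ (n+1) < q ^ M₀` (`S_Dsz`), so it is `0` (`Int.eq_zero_of_abs_lt_dvd`). Finally `g₀ = ∑_a C (g (inl a)) * X ^ a`, `g₁ = ∑_a C (g (inr a)) * X ^ a`. -/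
def S_Rel : Prop :=
  ∀ (F : ℤ[X][X]) (q n N Y : ℕ) (t₀ y₀ : ℤ), q.Prime → ¬ (q : ℤ) ∣ ev (derivative F) t₀ y₀ →
    (2 * n + 2).factorial * N ^ (n * (n + 1)) * Y ^ (n + 1) < q ^ ((n + 1) * (2 * n + 1)) →
    ∃ g₀ g₁ : ℤ[X], (g₀ ≠ 0 ∨ g₁ ≠ 0) ∧ g₀.natDegree ≤ n ∧ g₁.natDegree ≤ n ∧
      ∀ t y : ℤ, (q : ℤ) ∣ t - t₀ → (q : ℤ) ∣ y - y₀ → |t| ≤ N → |y| ≤ Y → ev F t y = 0 → g₀.eval t + g₁.eval t * y = 0

/-- **Hom**: NO ROOT IN THE FRACTION FIELD. PROOF. If the sum is `0`, divide by `g₁ ^ D` in `K = FractionRing A`: `g₀ / g₁` is a root of the monic polynomial `F`, so it is integral over `A` and it is the image of some `g ∈ A` (`IsIntegrallyClosed.isIntegral_iff`), and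
`F.eval g = 0` (injectivity). -/
def S_Hom : Prop :=
  ∀ (A : Type) [CommRing A] [IsDomain A] [IsIntegrallyClosed A] (F : A[X]), NR F → ∀ g₀ g₁ : A, g₁ ≠ 0 →
    ∑ i ∈ Finset.range (F.natDegree + 1), F.coeff i * g₀ ^ i * g₁ ^ (F.natDegree - i) ≠ 0

/-- **Cls**: ONE CLASS. From S_Rel, S_Hom. PROOF. `g₀, g₁` from `S_Rel`. If `g₁ = 0`: `g₀ ≠ 0` and all `t` are roots of `g₀`: at most `n ≤ e + d n` (`d ≥ 1`: if `F.natDegree = 0` then `F = 1` has no zeros and the set is empty). Otherwise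
`H = ∑_i F.coeff i * (-g₀) ^ i * g₁ ^ (D - i) ≠ 0` (`S_Hom` for `A = ℤ[X]`), `natDegree H ≤ e + d n`, and for a point `-g₀(t) = g₁(t) y`, so `H(t) = g₁(t) ^ D * ev F t y = 0`. A nonzero polynomial has at most `natDegree` roots
(`Polynomial.card_roots'`). -/
def S_Cls : Prop :=
  ∀ (F : ℤ[X][X]) (q n N Y d e : ℕ) (t₀ y₀ : ℤ), q.Prime → ¬ (q : ℤ) ∣ ev (derivative F) t₀ y₀ →
    (2 * n + 2).factorial * N ^ (n * (n + 1)) * Y ^ (n + 1) < q ^ ((n + 1) * (2 * n + 1)) →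
    NR F → F.natDegree ≤ d → (∀ i, (F.coeff i).natDegree ≤ e) →
    {t : ℤ | |t| ≤ N ∧ (q : ℤ) ∣ t - t₀ ∧ ∃ y : ℤ, (q : ℤ) ∣ y - y₀ ∧ |y| ≤ Y ∧ ev F t y = 0}.ncard ≤ e + d * n

/-- **Prm**: ONE PRIME. From S_Cls. PROOF. The set is the union, over the pairs `(t̄, ȳ) ∈ ZMod q × ZMod q` with `F̄(t̄, ȳ) = 0`, `F̄_Y(t̄, ȳ) ≠ 0`, of the sets of `S_Cls` for representatives `t₀, y₀` of `t̄, ȳ` (`ZMod.intCast_zmod_eq_zero_iff_dvd`, values mod `q`).
For each of the `q` values of `t̄` the polynomial `F̄(t̄, Y)` over the field `ZMod q` is monic of degree `≤ d`, so it has at most `d` roots: at most `d q` pairs. `Finset.card_biUnion_le` / `Set.ncard` of a finite union. -/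
def S_Prm : Prop :=
  ∀ (F : ℤ[X][X]) (q n N Y d e : ℕ), q.Prime →
    (2 * n + 2).factorial * N ^ (n * (n + 1)) * Y ^ (n + 1) < q ^ ((n + 1) * (2 * n + 1)) →
    NR F → F.natDegree ≤ d → (∀ i, (F.coeff i).natDegree ≤ e) →
    {t : ℤ | |t| ≤ N ∧ ∃ y : ℤ, |y| ≤ Y ∧ ev F t y = 0 ∧ ¬ (q : ℤ) ∣ ev (derivative F) t y}.ncard ≤ d * q * (e + d * n)

/-- **Brt**: PRIMES. PROOF. `Nat.exists_prime_lt_and_le_two_mul` for `2 ^ j * Q`, `j < r`: `2 ^ j Q < q_j ≤ 2 ^ (j+1) Q`. -/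
def S_Brt : Prop :=
  ∀ (r Q : ℕ), 1 ≤ Q → ∃ q : Fin r → ℕ, Function.Injective q ∧ ∀ j, (q j).Prime ∧ Q < q j ∧ q j ≤ 2 ^ r * Q

/-- **Prd**: ONE OF THE PRIMES DOES NOT DIVIDE. PROOF. Otherwise the product of the distinct primes divides `D` (`Finset.prod_primes_dvd` / coprime), it is `≥ Q ^ r` and `> |D|`, so `D = 0`. -/
def S_Prd : Prop :=
  ∀ (r Q : ℕ) (q : Fin r → ℕ) (D : ℤ), Function.Injective q → (∀ j, (q j).Prime ∧ Q < q j) → D ≠ 0 → |D| < (Q : ℤ) ^ r →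
    ∃ j, ¬ (q j : ℤ) ∣ D

/-- **Ineq**: THE CHOICE OF THE PARAMETERS. PROOF. `Q = ⌈N ^ θ⌉₊ ≤ 2 N ^ θ`, `N ^ θ ≤ Q`. `Y ≤ (1 + d (e+1) k) N ^ (k + e) =: K N ^ (k+e)`. Choose `n` with `θ (2 n + 1) ≥ n + k + e + 1` (`θ > 1/2`) and `N₀ = (2n+2)! K ^ (n+1) + (e+1) k + 1`, `r = 2 (k + e + 1)`.
For `N > N₀`: `(2n+2)! N ^ (n(n+1)) Y ^ (n+1) ≤ (2n+2)! K ^ (n+1) N ^ ((n+1)(n+k+e)) < N ^ ((n+1)(n+k+e+1)) ≤ N ^ (θ (n+1) (2n+1)) ≤ Q ^ ((n+1)(2n+1))`; `(e+1) k N ^ (k+e) < N ^ (k+e+1) ≤ Q ^ r` (as `θ r ≥ k+e+1`). -/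
def S_Ineq : Prop :=
  ∀ θ : ℝ, 1 / 2 < θ → ∀ d e k : ℕ, ∃ n r N₀ : ℕ, ∀ N : ℕ, N₀ < N → ∃ Q : ℕ, 1 ≤ Q ∧ (Q : ℝ) ≤ 2 * (N : ℝ) ^ θ ∧
    (∀ q : ℕ, Q < q → (2 * n + 2).factorial * N ^ (n * (n + 1)) * (1 + d * ((e + 1) * (k * N ^ k) * N ^ e)) ^ (n + 1) <
      q ^ ((n + 1) * (2 * n + 1))) ∧ (e + 1) * (k * N ^ k) * N ^ e < Q ^ r

/-- **One**: THE UNIFORM BOUND IN ONE VARIABLE. From S_Prm, S_Bd, S_Brt, S_Prd, S_Ineq. PROOF. `n, r, N₀` from `S_Ineq`. For `N ≤ N₀` the number is at most `2 N₀ + 1`. Let `N > N₀`, `Q` from `S_Ineq`, `q_j` from `S_Brt`, `B = k N ^ k`, `Y = 1 + d ((e+1) B N ^ e)`. For `|t| ≤ N` with a root `y`: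
`Δ(t) = 0` (at most `e` values of `t`), or `q_j ∤ Δ(t)` for some `j` (`S_Prd`, `S_Bd` (1)), `|y| ≤ Y` (`S_Bd` (2)), and `Δ(t) = ev U t y * 0 + ev V t y * ev F' t y`, so `q_j ∤ ev F' t y`: `t` is in the set of `S_Prm` for `q_j`, which has at most
`d q_j (e + d n) ≤ d 2 ^ r Q (e + d n)` elements. Total: `e + r d 2 ^ r (e + d n) 2 N ^ θ`. -/
def S_One : Prop :=
  ∀ θ : ℝ, 1 / 2 < θ → ∀ d e k : ℕ, ∃ C : ℝ, ∀ (N : ℕ) (F U V : ℤ[X][X]) (Δ : ℤ[X]), 1 ≤ N → NR F → F.natDegree ≤ d →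
    (∀ i, (F.coeff i).natDegree ≤ e) → (∀ i j, |(F.coeff i).coeff j| ≤ k * (N : ℤ) ^ k) → U * F + V * derivative F = Polynomial.C Δ →
    Δ ≠ 0 → Δ.natDegree ≤ e → (∀ j, |Δ.coeff j| ≤ k * (N : ℤ) ^ k) →
    ({t : ℤ | |t| ≤ N ∧ ∃ y, ev F t y = 0}.ncard : ℝ) ≤ C * (N : ℝ) ^ θ

/-! ## 3. The induction on the number of variables -/

/-- **Dsc**: THE DISCRIMINANT. PROOF. `K = FractionRing A`; `F` is irreducible over `K` (`Polynomial.Monic.irreducible_iff_irreducible_map_fraction_map`), of positive degree, `K` has characteristic `0`, so `F` is separable: `U' F + V' F' = 1` over `K`. Multiply by a common denominator `Δ` of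
the coefficients of `U', V'` (`IsLocalization.integerNormalization` or `exist_integer_multiples_of_finset`) and use the injectivity of `A[X] → K[X]`. -/
def S_Dsc : Prop :=
  ∀ (A : Type) [CommRing A] [IsDomain A] [IsIntegrallyClosed A] [CharZero A] (F : A[X]), F.Monic → Irreducible F →
    ∃ (U V : A[X]) (Δ : A), Δ ≠ 0 ∧ U * F + V * derivative F = Polynomial.C Δ

/-- **Nul**: NULLSTELLENSATZ WITH DENOMINATORS. PROOF. `I` = the ideal of `MvPolynomial (Fin n) K` generated by the images of the `σ l`. By `MvPolynomial.vanishingIdeal_zeroLocus_eq_radical` (for `K ⊆ Ω`) some power of the image of `P` is in `I`: `P ^ M = ∑ a_l σ_l`. Multiply by a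
common denominator `h ∈ R` of the coefficients of the `a_l` and use the injectivity of `MvPolynomial (Fin n) R → MvPolynomial (Fin n) K` (`MvPolynomial.map_injective`). -/
def S_Nul : Prop :=
  ∀ (R K Ω : Type) [CommRing R] [IsDomain R] [Field K] [Algebra R K] [IsFractionRing R K] [Field Ω] [Algebra K Ω] [Algebra R Ω]
    [IsScalarTower R K Ω] [IsAlgClosed Ω] (n m : ℕ) (σ : Fin m → MvPolynomial (Fin n) R) (P : MvPolynomial (Fin n) R),
    (∀ x : Fin n → Ω, (∀ l, MvPolynomial.aeval x (σ l) = 0) → MvPolynomial.aeval x P = 0) →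
    ∃ (h : R) (M : ℕ), h ≠ 0 ∧ MvPolynomial.C h * P ^ M ∈ Ideal.span (Set.range σ)

/-- **Alg**: ALGEBRAIC ELEMENTS. PROOF. `c ≠ 0` with `c α` integral over `R` (`IsAlgebraic.exists_integral_multiple`, after `IsFractionRing.isAlgebraic_iff`), `G = minpoly R (c α)`, monic; its image over `K` is `minpoly K (c α)`
(`minpoly.isIntegrallyClosed_eq_field_fractions'`). If `G.eval r = 0` then `minpoly K (c α)` has the root `r ∈ K`, being irreducible it is `X - r`, so `c α = r` and `α = r / c` is in the image of `K`. -/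
def S_Alg : Prop :=
  ∀ (R K Ω : Type) [CommRing R] [IsDomain R] [IsIntegrallyClosed R] [Field K] [Algebra R K] [IsFractionRing R K] [Field Ω] [Algebra K Ω]
    [Algebra R Ω] [IsScalarTower R K Ω] (α : Ω), IsAlgebraic K α → (∀ c : K, algebraMap K Ω c ≠ α) →
    ∃ (c : R) (G : R[X]), c ≠ 0 ∧ NR G ∧ aeval (algebraMap R Ω c * α) G = 0

/-- **Deg**: THE DEGREE OF A ROOT. PROOF. `D = F.natDegree`, `D ≥ 1` (`F = 1` has no root). Let `γ = g.natDegree > e`. `g ^ D = - ∑_(i < D) F.coeff i * g ^ i` has degree at most `e + (D - 1) γ < D γ`: a contradiction. -/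
def S_Deg : Prop :=
  ∀ (A : Type) [CommRing A] [IsDomain A] (F : A[X][X]) (e : ℕ), F.Monic → (∀ i, (F.coeff i).natDegree ≤ e) →
    ∀ g : A[X], F.eval g = 0 → g.natDegree ≤ e

/-- **Kr**: ROOTS OVER THE FRACTION FIELD. From S_Hom. PROOF. Let `g ∈ K[X]` be a root, `c ∈ R`, `c ≠ 0`, `c g = G ∈ R[X]` (common denominator). `∑_i F.coeff i * G ^ i * (C c) ^ (D - i)` maps to `c ^ D * F(g) = 0` in `K[X]`, so it is `0` (injectivity): a contradiction to `S_Hom` for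
`A = R[X]` (a unique factorization domain is integrally closed). -/
def S_Kr : Prop :=
  ∀ (R K : Type) [CommRing R] [IsDomain R] [UniqueFactorizationMonoid R] [Field K] [Algebra R K] [IsFractionRing R K] (F : R[X][X]),
    NR F → ∀ g : K[X], (F.map (mapRingHom (algebraMap R K))).eval g ≠ 0

/-- **Sys**: ROOTS IN `ℤ[t]`. From S_Nul, S_Alg, S_Deg, S_Kr. PROOF. `R = Rp p`, `K = FractionRing R`, `Ω = AlgebraicClosure K`, `e` = the maximum of the degrees of the `F.coeff i`. `S = MvPolynomial (Fin (e+1)) R`, `g^ = ∑_k C (X k) * X ^ k ∈ S[t]`,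
`Σ = (F over S[t]).eval g^ ∈ S[t]`, `σ_l = Σ.coeff l ∈ S`, `l ≤ natDegree Σ`. For `x : Fin (e+1) → Ω`: all `σ_l(x) = 0` iff `g_x = ∑ x_k t ^ k` is a root of `F` in `Ω[t]`. There are finitely many such roots; for each one, `g`, some coefficient `g_k` is not in (the image of) `K`:
otherwise `g ∈ K[t]`, a contradiction to `S_Kr`; it is algebraic over `K`. `S_Alg`: `c_g`, `G_g`, `aeval (c_g g_k) G_g = 0`. `P = ∏_g aeval (C c_g * X k_g) G_g ∈ S`. `S_Nul`: `h`, `M`, `C h * P ^ M = ∑ b_l σ_l`. Let `h(a) ≠ 0` and `g₁ ∈ ℤ[t]` a root of `F_a`;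
`natDegree g₁ ≤ e` (`S_Deg`; the degrees of the coefficients do not increase under `a`). The homomorphism `ψ : S → ℤ`, `r ↦ r(a)`, `X k ↦ g₁.coeff k` (`MvPolynomial.eval₂Hom`) maps `σ_l` to the coefficient of `F_a(g₁) = 0`, so `h(a) ψ(P) ^ M = 0`, `ψ(P) = 0`, and some factor
`(G_g)_a (c_g(a) * g₁.coeff k_g) = 0`. The family `G` is indexed by `Fin` of the number of the roots (`Finset.equivFin`, or a list). -/
def S_Sys : Prop :=
  ∀ (p : ℕ) (F : (Rp p)[X][X]), NR F → ∃ (k : ℕ) (G : Fin k → (Rp p)[X]) (h : Rp p), h ≠ 0 ∧ (∀ i, NR (G i)) ∧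
    ∀ a : Fin p → ℤ, MvPolynomial.eval a h ≠ 0 → (∃ g : ℤ[X], (F.map (mapRingHom (MvPolynomial.eval a))).eval g = 0) →
      ∃ i, a ∈ Bad (G i)

/-- **Hit**: the theorem for polynomials without root. -/
def Hit (p : ℕ) (θ : ℝ) : Prop := ∀ F : (Rp p)[X], NR F → Thn p ((p : ℝ) - 1 + θ) (Bad F)

/-- **Fac**: REDUCTION TO IRREDUCIBLE POLYNOMIALS. From S_Bas. PROOF. Strong induction on `F.natDegree`. `F = 1`: `Bad F` is empty. If `F` is not irreducible and `F ≠ 1`: `F = g h`, `g`, `h` monic of smaller degree (`Polynomial.Monic.irreducible_iff_natDegree'`), without root;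
`Bad F ⊆ Bad g ∪ Bad h` (`ℤ` is a domain). -/
def S_Fac : Prop :=
  ∀ (p : ℕ) (x : ℝ), (∀ F : (Rp p)[X], NR F → Irreducible F → Thn p x (Bad F)) → ∀ F : (Rp p)[X], NR F → Thn p x (Bad F)

/-- **Stp**: THE INDUCTION STEP for irreducible `F`. From S_Bas, S_Zer, S_Sz, S_One, S_Dsc, S_Sys. PROOF. `Ψ = MvPolynomial.finSuccEquiv ℤ p : Rp (p+1) ≃ (Rp p)[X]` (the variable `0` is `t`), `F' = F.map Ψ ∈ (Rp p)[X][X]`, `NR F'`. `S_Dsc` (for `A = Rp (p+1)`), mapped by `Ψ`: `U F' + V F'_Y = C Δ`, `Δ ∈ (Rp p)[X]`, `Δ ≠ 0`;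
`δ` = the leading coefficient of `Δ`. `G_i, h` from `S_Sys` for `F'`. For `a : Fin p → ℤ` let `F_a = F'.map (mapRingHom (eval a))`; for `s = Fin.cons t a`: `F.map (eval s) = F_a.map (evalRingHom t)`, so `s ∈ Bad F` iff `ev F_a t y = 0` for some `y`. `Bad F` is contained in the union of
`{s | tail s ∈ {δ = 0}}`, `{s | tail s ∈ {h = 0}}` (`S_Zer` and `S_Bas` (5): exponent `p ≤ p + θ`), `{s | tail s ∈ Bad (G i)}` (`Hit p θ`, exponent `p - 1 + θ + 1`) and `B₀` = the `s ∈ Bad F` with `δ(a) ≠ 0`, `h(a) ≠ 0`, `a ∉ Bad (G i)` for all `i`, `a = tail s`. For `B₀` use `S_Bas` (6) with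
`x = θ`: for `a ∈ bx p N` the set is empty or `F_a` is monic, without root in `ℤ[t]` (`S_Sys`), `Δ_a ≠ 0`, the degrees are bounded independently of `a`, the coefficients are `≤ k N ^ k` (`S_Sz`, the maximum over the finitely many nonzero coefficients of coefficients of `F'` and of `Δ`), and `S_One` applies. -/
def S_Stp : Prop :=
  ∀ (p : ℕ) (θ : ℝ), 1 / 2 < θ → Hit p θ → ∀ F : (Rp (p + 1))[X], NR F → Irreducible F → Thn (p + 1) (((p + 1 : ℕ) : ℝ) - 1 + θ) (Bad F)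

/-- **Hall**: THE THEOREM FOR POLYNOMIALS WITHOUT ROOT. From S_Fac, S_Stp. PROOF. Induction on `p`. `p = 0`: `MvPolynomial (Fin 0) ℤ` is `ℤ` (`MvPolynomial.isEmptyRingEquiv`, `MvPolynomial.C` is bijective), so `Bad F = ∅`. -/
def S_Hall : Prop := ∀ (p : ℕ) (θ : ℝ), 1 / 2 < θ → Hit p θ

/-! ## 4. Irreducibility -/

/-- **Ext**: EXTENSION OF HOMOMORPHISMS. PROOF. `𝔭 = ker φ` is prime; there is a prime `𝔓` of `B` with `𝔓.comap (algebraMap R B) = 𝔭` (`Ideal.exists_ideal_over_prime_of_isIntegral` for the ideal `⊥`, injectivity of the structure map). `B ⧸ 𝔓` is a domain, integral over `R ⧸ 𝔭`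
(`Ideal.Quotient.algebraQuotientOfLEComap` or the subring `φ(R)`), `R ⧸ 𝔭 → Ω` is injective; `IsAlgClosed.lift` for `R ⧸ 𝔭 ⊆ B ⧸ 𝔓`. -/
def S_Ext : Prop :=
  ∀ (R B Ω : Type) [CommRing R] [IsDomain R] [CommRing B] [IsDomain B] [Algebra R B] [Field Ω] [IsAlgClosed Ω], Function.Injective (algebraMap R B) →
    Algebra.IsIntegral R B → ∀ φ : R →+* Ω, ∃ ψ : B →+* Ω, ∀ r, ψ (algebraMap R B r) = φ r

/-- **Sub**: A MONIC FACTOR is a partial product. PROOF. Induction on `d` (or on the finset of the indices; state it for a finset `T` of indices): if `T = ∅`, `g h = 1`, `g` monic, so `g = 1`. Otherwise take `i ∈ T`; `X - β i` is prime, so it divides `g` or `h`; divide. Or compare the multisets of roots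
(`Polynomial.roots_mul`, `Multiset.le_map`-type). -/
def S_Sub : Prop :=
  ∀ (L : Type) [Field L] (d : ℕ) (β : Fin d → L) (g h : L[X]), g.Monic → ∏ i, (X - C (β i)) = g * h →
    ∃ A : Finset (Fin d), g = ∏ i ∈ A, (X - C (β i))

/-- **Res**: RESOLVENTS. From S_Alg, S_Ext, S_Sub. PROOF. `R = Rp p`, `K = FractionRing R`, `L = AlgebraicClosure K`, `F = ∏_(i : Fin d) (X - α_i)` in `L[X]`, `d = F.natDegree`; `α_i ∈ B = integralClosure R L`. For a subset `A` of `Fin d` with `0 < #A < d` let `g_A = ∏_(i ∈ A) (X - α_i) ∈ B[X]`. Some coefficient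
`(g_A).coeff k_A` is not in the image of `K`: otherwise `g_A ∈ K[X]` divides `F` over `K` (`F = g_A * g_(Aᶜ)`; division of monic polynomials: the quotient is in `K[X]` too), and `F` is irreducible over `K` (`Polynomial.Monic.irreducible_iff_irreducible_map_fraction_map`). `S_Alg` (`Ω = L`):
`c_A`, `G_A`. Let `F.map (eval s)` be reducible over `ℤ`: monic of degree `d`, so it is `g h`, `g`, `h` monic, `0 < natDegree g < d` (`Polynomial.Monic.irreducible_iff_natDegree'`; it is not `1`, since `d ≥ 1`). `S_Ext` (`Ω = ℂ`): `ψ : B → ℂ` extends `r ↦ r(s)`. `∏ (X - ψ α_i) = g h` in `ℂ[X]`, so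
`g = ∏_(i ∈ A) (X - ψ α_i)` (`S_Sub`), the image of `g_A`, `#A = natDegree g`; `ψ ((g_A).coeff k_A) = g.coeff k_A ∈ ℤ`. Apply `ψ` to `aeval (c_A * (g_A).coeff k_A) G_A = 0` (in `B ⊆ L`): `c_A(s) * g.coeff k_A` is an integral root of `G_A.map (eval s)`. -/
def S_Res : Prop :=
  ∀ (p : ℕ) (F : (Rp p)[X]), F.Monic → Irreducible F → ∃ (k : ℕ) (G : Fin k → (Rp p)[X]), (∀ i, NR (G i)) ∧
    ∀ s : Fin p → ℤ, ¬ Irreducible (F.map (MvPolynomial.eval s)) → ∃ i, s ∈ Bad (G i)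

/-- **Rat**: RATIONAL COEFFICIENTS, not monic. PROOF. `K = FractionRing (Rp p)`; it is also a fraction field of `MvPolynomial (Fin p) ℚ` (or work with both fields and an isomorphism; or avoid fields: see below). `c ≥ 1` an integer such that `c P` is the image of `P₂ ∈ (Rp p)[X]`, `l` = its leading
coefficient, `h = l`, `D = natDegree ≥ 1`. `F₁ = P₂.integralNormalization` (monic, `F₁(l X) = l ^ (D - 1) P₂(X)`, Mathlib: `Polynomial.integralNormalization`; or define it by its coefficients `P₂.coeff i * l ^ (D - 1 - i)`, `X ^ D`). Irreducible: if `F₁ = g₁ g₂` with monic factors of degrees `0 < d₁, d₂ < D` (`Polynomial.Monic.irreducible_iff_natDegree'`) then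
`l ^ (D - 1) P₂(X) = g₁(l X) g₂(l X)`, so `P`, over the fraction field, is a product of two polynomials of positive degrees: a contradiction. For `s` with `l(s) ≠ 0`: `F₁.map (eval s)` is irreducible over `ℚ` (Gauss: `Polynomial.Monic.irreducible_iff_irreducible_map_fraction_map` or `Polynomial.IsPrimitive.Int.irreducible_iff_irreducible_map_cast`); if
`P(s, X) = g₁ g₂` over `ℚ` with positive degrees, then `F₁(s, X) = c l(s) ^ (D - 1) g₁(X / l(s)) g₂(X / l(s))` would be reducible (`P(s, X)` has degree `D`). -/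
def S_Rat : Prop :=
  ∀ (p : ℕ) (P : (MvPolynomial (Fin p) ℚ)[X]),
    Irreducible (P.map (algebraMap (MvPolynomial (Fin p) ℚ) (FractionRing (MvPolynomial (Fin p) ℚ)))) → 0 < P.natDegree →
    ∃ (F₁ : (Rp p)[X]) (h : Rp p), h ≠ 0 ∧ F₁.Monic ∧ Irreducible F₁ ∧ ∀ s : Fin p → ℤ, MvPolynomial.eval s h ≠ 0 →
      Irreducible (F₁.map (MvPolynomial.eval s)) → Irreducible (P.map (MvPolynomial.eval fun i => (s i : ℚ)))

/-- **Cnt**: HILBERT'S IRREDUCIBILITY THEOREM with a count. From S_Bas, S_Zer, S_Hall, S_Res, S_Rat. PROOF. For each `P ∈ F`: `F₁`, `h` (`S_Rat`), `G_i` (`S_Res`), `Hit p (1/2 + ε)`; finite unions (induction on the list `F`). `Δ`: an integral multiple of `Δ` is the image of `Δ₁ ≠ 0` in `Rp p`;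
`S_Zer` for `Δ₁` and the `h`, the exponent `p - 1 ≤ p - 1/2 + ε`. -/
def S_Cnt : Prop :=
  ∀ (p : ℕ) (F : List (MvPolynomial (Fin p) ℚ)[X]) (Δ : MvPolynomial (Fin p) ℚ), Δ ≠ 0 →
    (∀ P ∈ F, Irreducible (P.map (algebraMap (MvPolynomial (Fin p) ℚ) (FractionRing (MvPolynomial (Fin p) ℚ)))) ∧ 0 < P.natDegree) →
    ∀ ε : ℝ, 0 < ε → Thn p ((p : ℝ) - 1 / 2 + ε) {s | ¬ (MvPolynomial.eval (fun i => (s i : ℚ)) Δ ≠ 0 ∧
      ∀ P ∈ F, Irreducible (P.map (MvPolynomial.eval fun i => (s i : ℚ))))}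

end TNF.HIT
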