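import Pool.Agent.Lib.TNF.HIT.Spec

/-!
# TNF, package HIT, module Sub: a monic factor of a product of linear polynomials is a partial product
-/

set_option autoImplicit false

noncomputable section

namespace TNF.HIT

open Polynomial

namespace Sub_aux

theorem fin {L : Type} [Field L] {d : ℕ} (β : Fin d → L) (T : Finset (Fin d)) :
    ∀ g h : L[X], g.Monic → ∏ i ∈ T, (X - C (β i)) = g * h →
      ∃ A ⊆ T, g = ∏ i ∈ A, (X - C (β i)) := by
  classical
  induction T using Finset.induction_on with
  | empty =>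
    intro g h hg hgh
    rw [Finset.prod_empty] at hgh
    refine ⟨∅, subset_rfl, ?_⟩
    rw [Finset.prod_empty]
    exact hg.eq_one_of_isUnit (IsUnit.of_mul_eq_one h hgh.symm)
  | insert i T hi ih =>
    intro g h hg hgh
    rw [Finset.prod_insert hi] at hgh
    have hne : (X - C (β i)) ≠ 0 := X_sub_C_ne_zero (β i)
    have hdvd : (X - C (β i)) ∣ g * h := ⟨_, hgh.symm⟩
    rcases (prime_X_sub_C (β i)).dvd_or_dvd hdvd with ⟨g', rfl⟩ | ⟨h', rfl⟩
    · have hg' : g'.Monic := (monic_X_sub_C (β i)).of_mul_monic_left hg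
      have h1 : ∏ j ∈ T, (X - C (β j)) = g' * h := by
        rw [mul_assoc] at hgh
        exact mul_left_cancel₀ hne hgh
      obtain ⟨A, hA, rfl⟩ := ih g' h hg' h1
      refine ⟨insert i A, Finset.insert_subset_insert i hA, ?_⟩
      rw [Finset.prod_insert fun hiA => hi (hA hiA)]
    · have h1 : ∏ j ∈ T, (X - C (β j)) = g * h' := by
        rw [mul_left_comm] at hgh
        exact mul_left_cancel₀ hne hgh
      obtain ⟨A, hA, hgA⟩ := ih g h' hg h1
      exact ⟨A, hA.trans (Finset.subset_insert i T), hgA⟩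

end Sub_aux

theorem tSub : S_Sub := by
  intro L _ d β g h hg hgh
  obtain ⟨A, -, hA⟩ := Sub_aux.fin β Finset.univ g h hg hgh
  exact ⟨A, hA⟩

end TNF.HIT
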